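import Pool.Agent.N164.BB.Hom

/-!
# Raising the weights by two
-/

set_option autoImplicit false

open CategoryTheory AlgebraicGeometry

universe u v w

namespace Pool.Agent.N164.BB

open Pool.Agent.H914 Pool.Agent.H914.VarClass Pool.Agent.H914.VarClass.Obj Pool.Agent.W492.BB
  Pool.Agent.W550.Corr Pool.Agent.TH133 Pool.Agent.Y148.BB Pool.Agent.X308.S

set_option linter.unusedSectionVars false
set_option linter.unusedVariables false

variable {k : Type u} [Field k] {𝒱 : VarClass k}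

variable {C : TheoryData.{u, v, 0} 𝒱 ℚ} {K : Type w} [Field K]
  {H : WeilTheoryData.{u, v, w} C K} {S S' T X Y Z W P : 𝒱.Obj}
  {𝒦 : 𝒱.Obj → Prop} {Q : ℕ → ∀ S : 𝒱.Obj, C.A (S.prod S) → Prop}
  {N : ∀ X : 𝒱.Obj, ℕ → Submodule ℚ (C.A X)}

/-- The self-intersection number of the diagonal of the curve `T` is not `2` (it is `2 - 2 g`). -/
def HasGenus (C : TheoryData.{u, v, 0} 𝒱 ℚ) (T : 𝒱.Obj) : Prop :=
  ∃ q : ℚ, q ≠ 2 ∧ HasDegree C (C.mul (dg C T) (dg C T)) q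

/-- The homologically trivial cycles of codimension `j` on the parts of weight `2 j` vanish. -/
def HomInjectiveAt (H : WeilTheoryData.{u, v, w} C K) (𝒦 : 𝒱.Obj → Prop)
    (Q : ℕ → ∀ S : 𝒱.Obj, C.A (S.prod S) → Prop) (j : ℕ) : Prop :=
  ∀ (P : 𝒱.Obj) (p : C.A (P.prod P)), IsPart 𝒦 Q (2 * j) P p →
    ∀ z : C.A P, C.Deg j z → H.cl z = 0 → C.act p z = z → z = 0

/-- The Abel-Jacobi maps in codimension `j` are injective on the parts of weight `2 j - 1`. -/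
def InjectiveAt (𝒦 : 𝒱.Obj → Prop) (Q : ℕ → ∀ S : 𝒱.Obj, C.A (S.prod S) → Prop)
    (N : ∀ X : 𝒱.Obj, ℕ → Submodule ℚ (C.A X)) (j : ℕ) : Prop :=
  ∀ (P : 𝒱.Obj) (p : C.A (P.prod P)), IsPart 𝒦 Q (2 * j - 1) P p →
    ∀ z ∈ N P j, C.act p z = z → z = 0

section chow

variable [hC : IsChowProj C]

include hC

lemma HasDegree.sub {x y : C.A X} {q r : ℚ} (h : HasDegree C x q) (h' : HasDegree C y r) :
    HasDegree C (x - y) (q - r) := by
  intro Z
  rw [map_sub, map_sub, map_sub, map_sub, (h Z).1, (h Z).2, (h' Z).1, (h' Z).2, sub_smul]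
  exact ⟨rfl, rfl⟩

lemma mul_dg (a : C.A (X.prod X)) :
    a * dg C X = C.push (Obj.lift (𝟙 X) (𝟙 X)) (C.pull (Obj.lift (𝟙 X) (𝟙 X)) a) := by
  have h := C.proj_left (Obj.lift (𝟙 X) (𝟙 X)) 1 a
  rw [mul_one] at h
  exact h.symm

/-- The intersection number of the projector on `h^1(T)` with the diagonal is `- 2 g`. -/
lemma odd_dg {o : C.A T} (hd : HasDegree C o 1) {q : ℚ}
    (hq : HasDegree C (C.mul (dg C T) (dg C T)) q) : HasDegree C (oddProj C o * dg C T) (q - 2) := by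
  have h1 : HasDegree C (C.ext o (1 : C.A T) * dg C T) 1 := by
    rw [mul_dg, TheoryData.ext, map_mul, ← C.pull_comp, ← C.pull_comp, lift_fst, lift_snd,
      C.pull_id, C.pull_id, mul_one]
    exact HasDegree.push hd
  have h2 : HasDegree C (C.ext (1 : C.A T) o * dg C T) 1 := by
    rw [mul_dg, TheoryData.ext, map_mul, ← C.pull_comp, ← C.pull_comp, lift_fst, lift_snd,
      C.pull_id, C.pull_id, one_mul]
    exact HasDegree.push hd
  have h3 := (HasDegree.sub (HasDegree.sub hq h1) h2)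
  rw [oddProj, sub_mul, sub_mul]
  rwa [show q - 1 - 1 = q - 2 by ring] at h3

lemma isoPart_assoc {P T T' : 𝒱.Obj} (p : C.A (P.prod P)) (r : C.A (T.prod T))
    (r' : C.A (T'.prod T')) : IsoPart (tens C p (tens C r r')) (tens C (tens C p r) r')
      (C.graph (aJ P T T')) (C.graph (aI P T T')) where
  u_mem := by
    have h := graph_mem (C := C) (aJ P T T')
    rw [dim_prod, dim_prod] at h
    rw [dim_prod, dim_prod]
    rwa [show ((P.dim + (T.dim + T'.dim) : ℕ) : ℤ) = ((P.dim + T.dim + T'.dim : ℕ) : ℤ) by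
      push_cast; ring]
  v_mem := by
    have h := graph_mem (C := C) (aI P T T')
    rw [dim_prod, dim_prod] at h
    rw [dim_prod, dim_prod]
    rwa [show ((P.dim + T.dim + T'.dim : ℕ) : ℤ) = ((P.dim + (T.dim + T'.dim) : ℕ) : ℤ) by
      push_cast; ring]
  uv := graph_comp_graph _ _ aJ_aI
  comm := tens_assoc p r r'

/-- The class `z × π_1(T)` on `(P × T) × T`. -/
noncomputable def raised (P : 𝒱.Obj) (o : C.A T) (z : C.A P) : C.A ((P.prod T).prod T) :=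
  C.push (aJ P T T) (C.ext z (oddProj C o))

/-- The class `z` can be recovered from `z × π_1(T)` if the genus of `T` is not zero. -/
lemma zero_of_raised {o : C.A T} (hd : HasDegree C o 1) (hT : HasGenus C T) {z : C.A P}
    (hz : raised P o z = 0) : z = 0 := by
  obtain ⟨q, hq2, hq⟩ := hT
  have h1 : C.ext z (oddProj C o) = 0 := by
    have h2 : C.push (aI P T T) (raised P o z) = C.ext z (oddProj C o) := by
      rw [raised, ← C.push_comp, aJ_aI, C.push_id]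
    rw [← h2, hz, map_zero]
  have h2 : C.push (fst P (T.prod T)) (C.ext z (oddProj C o) *
      C.pull (snd P (T.prod T)) (dg C T)) = (q - 2) • z := by
    rw [TheoryData.ext, mul_assoc, ← map_mul, C.proj_left, (odd_dg hd hq P).2, mul_smul_comm,
      mul_one]
  rw [h1, zero_mul, map_zero] at h2
  rcases smul_eq_zero.1 h2.symm with h | h
  · exact (hq2 (by linarith)).elim
  · exact h

lemma raised_mem (hT : T.dim = 1) {o : C.A T} (ho : C.Deg 1 o) {j : ℤ} {z : C.A P}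
    (hz : z ∈ C.gr P j) : raised P o z ∈ C.gr ((P.prod T).prod T) (j + 1) := by
  have h1 : oddProj C o ∈ C.gr (T.prod T) 1 := by
    have := odd_mem (C := C) hT ho
    rw [hT] at this
    exact_mod_cast this
  have h2 := C.push_mem (aJ P T T) (ext_mem' (C := C) hz h1)
  have e : j + 1 + 1 * ((((P.prod T).prod T).dim : ℤ) - ((P.prod (T.prod T)).dim : ℤ)) = j + 1 := by
    rw [dim_prod, dim_prod, dim_prod, dim_prod]
    push_cast
    ring
  rwa [e] at h2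

lemma act_raised (hT : T.dim = 1) {o : C.A T} (ho : C.Deg 1 o) (hd : HasDegree C o 1)
    {p : C.A (P.prod P)} {z : C.A P} (hpz : C.act p z = z) :
    C.act (tens C (tens C p (oddProj C o)) (oddProj C o)) (raised P o z) = raised P o z := by
  have h1 : C.act (tens C p (tens C (oddProj C o) (oddProj C o))) (C.ext z (oddProj C o)) =
      C.ext z (oddProj C o) := by
    rw [act_tens_ext C _ _ (fun f c => ch_comm C _ _) z (oddProj C o), hpz,
      act_tens_mid (tp_odd o), odd_odd hT ho hd, odd_odd hT ho hd]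
  have h2 := (isoPart_assoc p (oddProj C o) (oddProj C o)).comm
  rw [raised, ← C.act_graph]
  conv_lhs => rw [← C.act_comp, ← h2, C.act_comp, h1]

end chow

section weil

variable [hC : IsChowProj C] [hH : IsWeilProj H]

include hC hH

lemma cl_raised {o : C.A T} {z : C.A P} (hz : H.cl z = 0) : H.cl (raised P o z) = 0 := by
  rw [raised, H.cl_push, TheoryData.ext, map_mul, H.cl_pull, hz, map_zero, zero_mul, map_zero]

lemma raised_mem_N (hN : IsAbelJacobiKernel H N) (hT : T.dim = 1) {o : C.A T} (ho : C.Deg 1 o)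
    {j : ℕ} {z : C.A P} (hz : z ∈ N P j) : raised P o z ∈ N ((P.prod T).prod T) (j + 1) := by
  have h0 : oddProj C o ∈ C.gr (T.prod T) 1 := by
    have := odd_mem (C := C) hT ho
    rw [hT] at this
    exact_mod_cast this
  have h1 : C.pull (fst P (T.prod T)) z ∈ N (P.prod (T.prod T)) j := by
    rw [← C.act_cograph]
    refine hN.stable _ _ j j _ ?_ z hz
    have := cograph_mem (C := C) (fst P (T.prod T))
    rwa [add_sub_cancel_right]
  have h2 : C.ext z (oddProj C o) ∈ N (P.prod (T.prod T)) (j + 1) := by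
    have e : C.ext z (oddProj C o) = C.act (C.mulCorr (C.pull (snd P (T.prod T)) (oddProj C o)))
        (C.pull (fst P (T.prod T)) z) := by
      rw [C.act_mulCorr, TheoryData.ext]
      exact ch_comm C _ _
    rw [e]
    refine hN.stable _ _ j (j + 1) _ ?_ _ h1
    have h3 := C.push_mem (Obj.lift (𝟙 (P.prod (T.prod T))) (𝟙 (P.prod (T.prod T))))
      (C.pull_mem (snd P (T.prod T)) h0)
    rw [TheoryData.mulCorr]
    have e2 : (1 : ℤ) + 1 * ((((P.prod (T.prod T)).prod (P.prod (T.prod T))).dim : ℤ) -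
        ((P.prod (T.prod T)).dim : ℤ)) = ((P.prod (T.prod T)).dim : ℤ) + ((j + 1 : ℕ) : ℤ) - j := by
      rw [dim_prod (P.prod (T.prod T))]
      push_cast
      ring
    rwa [e2] at h3
  rw [raised, ← C.act_graph]
  refine hN.stable _ _ (j + 1) (j + 1) _ ?_ _ h2
  rw [add_sub_cancel_right]
  exact (isoPart_assoc (dg C P) (dg C T) (dg C T)).u_mem

end weil

section good

variable [hC : IsChowProj C]

include hC

/-- Every part twisted by powers of `h^1(T₀) ⊗ h^1(T₀)` is covered by parts whose curve factors are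
equal to a curve `T` which dominates a given one. -/
def Good (𝒦 : 𝒱.Obj → Prop) (Q : ℕ → ∀ S : 𝒱.Obj, C.A (S.prod S) → Prop) (T : 𝒱.Obj) (n : ℕ)
    {P : 𝒱.Obj} (p : C.A (P.prod P)) : Prop :=
  ∀ T', 𝒦 T' → Dominates C T' T → ∃ (P' : 𝒱.Obj) (p' : C.A (P'.prod P')),
    IsPart (fun S => S = T') Q n P' p' ∧ Covers p p'

lemma Good.curve (H : WeilTheoryData.{u, v, w} C K) [hH : IsWeilProj H]
    (h𝒦 : ∀ T, 𝒦 T → T.dim = 1) {T T₀ : 𝒱.Obj} {n : ℕ} {p : C.A (P.prod P)}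
    (h : Good 𝒦 Q T n p) (hT₀ : 𝒦 T₀) (hdom : Dominates C T T₀) {o : C.A T₀} (ho : C.Deg 1 o)
    (hd : HasDegree C o 1) : Good 𝒦 Q T (n + 1) (tens C p (oddProj C o)) := by
  intro T' hT' hdom'
  obtain ⟨P', p', hp', hcov⟩ := h T' hT' hdom'
  obtain ⟨o', ho', hd', hcov'⟩ := covers_odd H (h𝒦 T₀ hT₀) (h𝒦 T' hT') (hdom'.trans hdom) ho hd
  exact ⟨P'.prod T', tens C p' (oddProj C o'), .prod n 1 P' T' p' _ hp' (.curve T' o' rfl ho' hd'),
    hcov.tens hcov'⟩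

lemma dominates_refl (T : 𝒱.Obj) : Dominates C T T := ⟨𝟙 T, 1, one_ne_zero, by
  change C.push (𝟙 T) 1 = _
  rw [C.push_id, one_smul]⟩

/-- The general form of the descent: `V j y` is a property of classes `y` of codimension `j` which
is stable under pull-backs and under `z ↦ z × π_1(T)`. -/
theorem descent (H : WeilTheoryData.{u, v, w} C K) [hH : IsWeilProj H]
    (h𝒦 : ∀ T, 𝒦 T → T.dim = 1) {T T₀ : 𝒱.Obj} (hT : 𝒦 T)
    (hT₀ : 𝒦 T₀) (hg : HasGenus C T₀) (hdom : Dominates C T T₀)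
    (V : ∀ (j : ℕ) {X : 𝒱.Obj}, C.A X → Prop)
    (hpull : ∀ (j : ℕ) {X Y : 𝒱.Obj} (f : X ⟶ Y) (y : C.A Y), V j y → V j (C.pull f y))
    (hraise : ∀ (j : ℕ) {P : 𝒱.Obj} (o : C.A T₀) (z : C.A P), C.Deg 1 o → V j z →
      V (j + 1) (raised P o z)) (r : ℕ) :
    ∀ (n j : ℕ) {P : 𝒱.Obj} {p : C.A (P.prod P)}, Good 𝒦 Q T n p →
      (∀ (P' : 𝒱.Obj) (p' : C.A (P'.prod P')), IsPart (fun S => S = T) Q (n + 2 * r) P' p' →
        ∀ y : C.A P', V (j + r) y → C.act p' y = y → y = 0) →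
      ∀ z : C.A P, V j z → C.act p z = z → z = 0 := by
  induction r with
  | zero =>
    intro n j P p hG h z hz hpz
    obtain ⟨P', p', hp', hcov⟩ := hG T hT (dominates_refl T)
    exact hcov.zero hpz fun f hf => h P' p' hp' _ (hpull j f z hz) hf
  | succ r ih =>
    intro n j P p hG h z hz hpz
    obtain ⟨o, ho, hd⟩ := exists_point (C := C) (h𝒦 T₀ hT₀)
    refine zero_of_raised hd hg ?_
    have hG' := ((hG.curve H h𝒦 hT₀ hdom ho hd).curve H h𝒦 hT₀ hdom ho hd)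
    refine ih (n + 1 + 1) (j + 1) hG' ?_ _ (hraise j o z ho hz)
      (act_raised (h𝒦 T₀ hT₀) ho hd hpz)
    intro P' p' hp' y hy hpy
    refine h P' p' ?_ y ?_ hpy
    · rwa [show n + 2 * (r + 1) = n + 1 + 1 + 2 * r by ring]
    · rwa [show j + (r + 1) = j + 1 + r by ring]

end good

section final

variable [hC : IsChowProj C] [hH : IsWeilProj H]

include hC hH

theorem homInjective_of_at (h𝒦 : ∀ T, 𝒦 T → T.dim = 1) (hD : IsDirected C 𝒦) {T₀ : 𝒱.Obj}
    (hT₀ : 𝒦 T₀) (hg : HasGenus C T₀) {j : ℕ} {p : C.A (P.prod P)}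
    (hP : IsPart 𝒦 Q (2 * j) P p) :
    ∃ T, 𝒦 T ∧ ∀ T', 𝒦 T' → Dominates C T' T → ∀ r,
      HomInjectiveAt H (fun S => S = T') Q (j + r) →
      ∀ z : C.A P, C.Deg j z → H.cl z = 0 → C.act p z = z → z = 0 := by
  obtain ⟨T₁, hT₁, h₁⟩ := exists_single H h𝒦 hD hP
  obtain ⟨T, hT, hd₁, hd₀⟩ := hD.2 T₁ T₀ hT₁ hT₀
  refine ⟨T, hT, fun T' hT' hdom' r h z hz hcl hpz => ?_⟩
  refine descent H h𝒦 hT' hT₀ hg (hdom'.trans hd₀) (fun j _ y => C.Deg j y ∧ H.cl y = 0)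
    (fun j X Y f y hy => ⟨C.pull_mem f hy.1, by rw [H.cl_pull, hy.2, map_zero]⟩)
    (fun j P o z ho hz => ⟨by
      have := raised_mem (h𝒦 T₀ hT₀) ho hz.1
      exact_mod_cast this, cl_raised hz.2⟩) r (2 * j) j
    (p := p) (fun T'' hT'' hdom => h₁ T'' hT'' ((hdom.trans hdom').trans hd₁)) ?_ z ⟨hz, hcl⟩ hpz
  intro P' p' hp' y hy hpy
  refine h P' p' ?_ y hy.1 hy.2 hpy
  rwa [show 2 * (j + r) = 2 * j + 2 * r by ring]

theorem injective_of_at (hN : IsAbelJacobiKernel H N) (h𝒦 : ∀ T, 𝒦 T → T.dim = 1)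
    (hD : IsDirected C 𝒦) {T₀ : 𝒱.Obj} (hT₀ : 𝒦 T₀) (hg : HasGenus C T₀) {j : ℕ} (hj : 1 ≤ j)
    {p : C.A (P.prod P)} (hP : IsPart 𝒦 Q (2 * j - 1) P p) :
    ∃ T, 𝒦 T ∧ ∀ T', 𝒦 T' → Dominates C T' T → ∀ r, InjectiveAt (fun S => S = T') Q N (j + r) →
      ∀ z ∈ N P j, C.act p z = z → z = 0 := by
  obtain ⟨T₁, hT₁, h₁⟩ := exists_single H h𝒦 hD hP
  obtain ⟨T, hT, hd₁, hd₀⟩ := hD.2 T₁ T₀ hT₁ hT₀
  refine ⟨T, hT, fun T' hT' hdom' r h z hz hpz => ?_⟩
  refine descent H h𝒦 hT' hT₀ hg (hdom'.trans hd₀) (fun j _ y => y ∈ N _ j)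
    (fun j X Y f y hy => pull_mem_N hN hy f)
    (fun j P o z ho hz => raised_mem_N hN (h𝒦 T₀ hT₀) ho hz) r (2 * j - 1) j
    (p := p) (fun T'' hT'' hdom => h₁ T'' hT'' ((hdom.trans hdom').trans hd₁)) ?_ z hz hpz
  intro P' p' hp' y hy hpy
  refine h P' p' ?_ y hy hpy
  rwa [show 2 * (j + r) - 1 = 2 * j - 1 + 2 * r by omega]

omit hC hH in
lemma IsFactor.mono {𝒦' : 𝒱.Obj → Prop} (h𝒦 : ∀ T, 𝒦' T → 𝒦 T) {n : ℕ} {r : C.A (T.prod T)}
    (h : IsFactor 𝒦' Q n T r) : IsFactor 𝒦 Q n T r := by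
  cases h with
  | curve _ o hT ho hd => exact .curve T o (h𝒦 T hT) ho hd
  | variety _ _ _ h => exact .variety _ _ _ h

omit hC hH in
lemma IsPart.mono {𝒦' : 𝒱.Obj → Prop} (h𝒦 : ∀ T, 𝒦' T → 𝒦 T) {n : ℕ} {p : C.A (P.prod P)}
    (h : IsPart 𝒦' Q n P p) : IsPart 𝒦 Q n P p := by
  induction h with
  | factor n T r hr => exact .factor n T r (hr.mono h𝒦)
  | prod n m P T p r hp hr ih => exact .prod n m P T p r ih (hr.mono h𝒦)

/-- **Main theorem, with the kernels of the Abel-Jacobi maps.** -/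
theorem mainA (hA : IsAdmissible H 𝒦 Q) (hD : IsDirected C 𝒦) (hg : ∃ T, 𝒦 T ∧ HasGenus C T)
    (hN : IsAbelJacobiKernel H N) :
    ((∃ F, IsBlochBeilinsonOn H N (IsDominated 𝒦 Q ⊤) F) ↔
      ∀ T, 𝒦 T → ∀ e : ℕ, ∃ T' j, 𝒦 T' ∧ Dominates C T' T ∧ e ≤ j ∧
        InjectiveAt (fun S => S = T') Q N j) ∧
    (∀ d : ℕ, (∀ T, 𝒦 T → ∃ T', 𝒦 T' ∧ Dominates C T' T ∧ InjectiveAt (fun S => S = T') Q N d) →
      ∃ F, IsBlochBeilinsonOn H N (IsDominated 𝒦 Q d) F ∧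
        ∀ X, IsDominated 𝒦 Q d X → ∃ π, IsCK H X π ∧ ∀ j ν : ℕ, F X j ν = ckFil C π j ν) ∧
    (∀ d : ℕ, (∃ F, IsBlochBeilinsonOn H N (IsDominated 𝒦 Q (2 * d - 1 : ℕ)) F) →
      InjectiveAt 𝒦 Q N d) := by
  obtain ⟨T₀, hT₀, hg₀⟩ := hg
  obtain ⟨h1, h2, h3, h4⟩ := main hA hN
  refine ⟨⟨fun hF T hT e => ?_, fun h => h1.2 ?_⟩, fun d h => ?_, fun d hF => ?_⟩
  · refine ⟨T, max e 2, hT, dominates_refl T, le_max_left _ _, fun P p hP z hz hpz => ?_⟩
    refine h1.1 hF _ (le_max_right _ _) le_top P p (hP.mono ?_) z hz hpz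
    rintro _ rfl
    exact hT
  · intro j hj _ P p hP z hz hpz
    obtain ⟨T, hT, hTT⟩ := injective_of_at hN hA.curve hD hT₀ hg₀ (by omega) hP
    obtain ⟨T', j', hT', hdom, hjj, hinj⟩ := h T hT j
    obtain ⟨r, rfl⟩ := Nat.exists_eq_add_of_le hjj
    exact hTT T' hT' hdom r hinj z hz hpz
  · have hup : InjectiveUpTo 𝒦 Q N d := by
      intro j hj hjd P p hP z hz hpz
      have hjd' : j ≤ d := by exact_mod_cast hjd
      obtain ⟨T, hT, hTT⟩ := injective_of_at hN hA.curve hD hT₀ hg₀ (by omega) hP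
      obtain ⟨T', hT', hdom, hinj⟩ := h T hT
      obtain ⟨r, rfl⟩ := Nat.exists_eq_add_of_le hjd'
      exact hTT T' hT' hdom r hinj z hz hpz
    obtain ⟨⟨F, hF⟩, hck⟩ := h2 d hup
    refine ⟨F, hF, fun X hX => ?_⟩
    obtain ⟨π, hπ⟩ := hck X hX
    exact ⟨π, hπ, fun j ν => h4 d F hF X hX π hπ j ν⟩
  · intro P p hP z hz hpz
    rcases Nat.lt_or_ge 1 d with h | h
    · exact h3 d hF d h le_rfl P p hP z hz hpz
    · have hpos := hP.pos hA
      obtain rfl : d = 1 := by omega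
      exact hN.abel P z hz

/-- **Main theorem, without Abel-Jacobi maps.** -/
theorem mainB (hA : IsAdmissible H 𝒦 Q) (hD : IsDirected C 𝒦) (hg : ∃ T, 𝒦 T ∧ HasGenus C T)
    (hPic : PicardFaithful H) :
    ((∃ F, IsBBFiltration H (IsDominated 𝒦 Q ⊤) F) ↔
      ∀ T, 𝒦 T → ∀ e : ℕ, ∃ T' j, 𝒦 T' ∧ Dominates C T' T ∧ e ≤ j ∧
        HomInjectiveAt H (fun S => S = T') Q j) ∧
    (∀ d e : ℕ, 3 * d ≤ 2 * e + 2 →
      (∀ T, 𝒦 T → ∃ T', 𝒦 T' ∧ Dominates C T' T ∧ HomInjectiveAt H (fun S => S = T') Q e) →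
      ∃ F, IsBBFiltration H (IsDominated 𝒦 Q d) F) ∧
    (∀ e : ℕ, (∃ F, IsBBFiltration H (IsDominated 𝒦 Q (2 * e : ℕ)) F) →
      HomInjectiveAt H 𝒦 Q e) := by
  obtain ⟨T₀, hT₀, hg₀⟩ := hg
  refine ⟨⟨fun ⟨F, hF⟩ T hT e => ?_, fun h => ?_⟩, fun d e hde h => ?_, fun e ⟨F, hF⟩ => ?_⟩
  · have h1 := homInjective_of_isBBFiltration (d := ⊤) hA (by simp) hF
    refine ⟨T, max e 2, hT, dominates_refl T, le_max_left _ _, fun P p hP z hz hcl hpz => ?_⟩
    refine h1 _ (le_max_right _ _) le_top P p (hP.mono ?_) z hz hcl hpz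
    rintro _ rfl
    exact hT
  · refine ⟨_, isBBFiltration_of_hom (e := ⊤) hA hPic ?_ le_rfl (by simp)⟩
    intro j hj _ P p hP z hz hcl hpz
    obtain ⟨T, hT, hTT⟩ := homInjective_of_at (H := H) hA.curve hD hT₀ hg₀ hP
    obtain ⟨T', j', hT', hdom, hjj, hinj⟩ := h T hT j
    obtain ⟨r, rfl⟩ := Nat.exists_eq_add_of_le hjj
    exact hTT T' hT' hdom r hinj z hz hcl hpz
  · refine ⟨_, isBBFiltration_of_hom (e := (e : ℕ∞)) hA hPic ?_ ?_ ?_⟩
    · intro j hj hje P p hP z hz hcl hpz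
      have hje' : j ≤ e := by exact_mod_cast hje
      obtain ⟨T, hT, hTT⟩ := homInjective_of_at (H := H) hA.curve hD hT₀ hg₀ hP
      obtain ⟨T', hT', hdom, hinj⟩ := h T hT
      obtain ⟨r, rfl⟩ := Nat.exists_eq_add_of_le hje'
      exact hTT T' hT' hdom r hinj z hz hcl hpz
    · have : d ≤ e := by omega
      exact_mod_cast this
    · have : d + d + d ≤ 2 * e + 1 + 1 := by omega
      exact_mod_cast this
  · intro P p hP z hz hcl hpz
    rcases Nat.lt_or_ge 1 e with h | h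
    · exact homInjective_of_isBBFiltration (d := (e : ℕ∞)) hA (by push_cast; exact le_rfl) hF e h
        le_rfl P p hP z hz hcl hpz
    · have hpos := hP.pos hA
      obtain rfl : e = 1 := by omega
      have hmid := hP.middle hA
      rw [← hpz]
      refine hPic P p ?_ (hmid.kills 1 (by norm_num)) z (by exact_mod_cast hz) hcl
      have := hmid.deg
      rw [hmid.dim]
      exact this

end final

end Pool.Agent.N164.BB
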