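import Pool.Agent.N164.BB.Stmt
import Pool.Agent.N164.BB.Raise

/-!
# Comparison of the definitions of the statement with those used in the proof
-/

set_option autoImplicit false

open CategoryTheory AlgebraicGeometry

universe u v w

namespace Pool.Agent.N164.Bridge

open Pool.Agent.H914 Pool.Agent.H914.VarClass Pool.Agent.H914.VarClass.Obj
open Pool.Agent.W492.BB (TheoryData WeilTheoryData IsTheory IsChow IsWeil)
open Pool.Agent.W550.Corr (HasIso dg)
open Pool.Agent.TH133 (IsChowProj IsWeilProj)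
open Pool.Agent.N164 (Prim.IsChowTheory Prim.IsWeilTheory Prim.Cor Prim.Sub Prim.Mem)

variable {k : Type u} [Field k] {𝒱 : VarClass k} {C : TheoryData.{u, v, 0} 𝒱 ℚ} {K : Type w}
  [Field K] {H : WeilTheoryData.{u, v, w} C K} {X Y : 𝒱.Obj}

lemma chow (h : Prim.IsChowTheory C) : IsChowProj C where
  isTheory := h.isTheory
  mul_comm := h.mul_comm
  exists_deg_one X := by
    obtain ⟨x, hx, hd⟩ := h.degree_one X
    refine ⟨x, hx, fun Z => ?_, fun Z => ?_⟩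
    · exact ((hd Z).2).trans (one_smul ℚ (1 : C.A Z))
    · exact ((hd Z).1).trans (one_smul ℚ (1 : C.A Z))
  push_one := h.push_one
  gr_zero := h.codim_zero
  gr_top := h.codim_top
  degree X x hx := h.degree X x hx
  polarized X := by
    obtain ⟨a, ha, q, hq, hd⟩ := h.polarized X
    exact ⟨a, ha, q, hq, (hd X).1⟩

lemma weil (h : Prim.IsWeilTheory H) : IsWeilProj H where
  isTheory := h.isTheory
  isOriented := ⟨h.deg_push, h.nondeg⟩
  kunnethFormula X Y m c hc := h.kunneth X Y m c hc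
  isClassMap := ⟨h.cyc_mem, h.cyc_pull, h.cyc_push, h.cyc_central⟩
  gr_zero := h.codim_zero
  one_ne_zero := h.one_ne_zero
  tr_eq_zero := h.deg_eq_zero

lemma isCK_iff {π : ℕ → C.A (X.prod X)} : Prim.IsCK H X π ↔ TH133.IsCK H X π :=
  ⟨fun h => ⟨h.deg, h.out, h.idem, h.orth, h.sum, h.act_self, fun i m a h1 h2 => h.act_ne i m h1 a h2⟩,
    fun h => ⟨h.deg, h.out, h.idem, h.orth, h.sum, h.act_self, fun i m h1 a h2 => h.act_ne i m a h1 h2⟩⟩

variable {𝒦 : 𝒱.Obj → Prop} {Q : ℕ → ∀ S : 𝒱.Obj, C.A (S.prod S) → Prop}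

lemma isFactor_iff {n : ℕ} {T : 𝒱.Obj} {r : C.A (T.prod T)} :
    Prim.IsFactor 𝒦 Q n T r ↔ BB.IsFactor 𝒦 Q n T r := by
  constructor
  · intro h
    cases h with
    | curve T o hT ho hd => exact .curve T o hT ho hd
    | variety _ _ _ h => exact .variety _ _ _ h
  · intro h
    cases h with
    | curve T o hT ho hd => exact .curve T o hT ho hd
    | variety _ _ _ h => exact .variety _ _ _ h

lemma isPart_iff {n : ℕ} {T : 𝒱.Obj} {r : C.A (T.prod T)} :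
    Prim.IsPart 𝒦 Q n T r ↔ BB.IsPart 𝒦 Q n T r := by
  constructor
  · intro h
    induction h with
    | factor n T r hr => exact .factor n T r (isFactor_iff.1 hr)
    | prod n m P T p r hp hr ih => exact .prod n m P T p r ih (isFactor_iff.1 hr)
  · intro h
    induction h with
    | factor n T r hr => exact .factor n T r (isFactor_iff.2 hr)
    | prod n m P T p r hp hr ih => exact .prod n m P T p r ih (isFactor_iff.2 hr)

lemma isProduct_iff {T : 𝒱.Obj} : Prim.IsProduct 𝒦 Q T ↔ BB.IsProduct 𝒦 Q T := by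
  constructor
  · intro h
    induction h with
    | factor T hT => exact .factor T hT
    | prod P T hP hT ih => exact .prod P T ih hT
  · intro h
    induction h with
    | factor T hT => exact .factor T hT
    | prod P T hP hT ih => exact .prod P T ih hT

lemma weightPart_eq {m : ℕ∞} {w : ℕ} :
    BB.weightPart 𝒦 Q m X w = Submodule.span ℚ {c | Prim.Factors 𝒦 Q m X w c} := by
  rw [BB.weightPart]
  congr 1
  ext c
  constructor
  · rintro (⟨n, i, P, p, a, b, hp, hn, hw, ha, hb, rfl⟩ | ⟨i, a, b, hw, ha, hb, rfl⟩)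
    · subst hw
      exact .part n i P p a b (isPart_iff.2 hp) hn ha hb
    · subst hw
      exact .lefschetz i a b ha hb
  · intro h
    cases h with
    | part n i P p a b hp hn ha hb =>
      exact Or.inl ⟨n, i, P, p, a, b, isPart_iff.1 hp, hn, rfl, ha, hb, rfl⟩
    | lefschetz i a b ha hb => exact Or.inr ⟨i, a, b, rfl, ha, hb, rfl⟩

lemma comb_iff {m : ℕ∞} {z : C.A (X.prod X)} :
    Prim.IsComb C (fun c => ∃ w : ℕ, Prim.Factors 𝒦 Q m X w c) z ↔
      z ∈ ⨆ w : ℕ, BB.weightPart 𝒦 Q m X w := by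
  simp only [weightPart_eq, ← Submodule.span_iUnion]
  have e : {c | ∃ w : ℕ, Prim.Factors 𝒦 Q m X w c} = ⋃ w : ℕ, {c | Prim.Factors 𝒦 Q m X w c} := by
    ext c; simp
  rw [← e]
  rfl

lemma comb_iff' {m : ℕ∞} {l : ℕ} {z : C.A (X.prod X)} :
    Prim.IsComb C (fun c => ∃ w : ℕ, l ≤ w ∧ Prim.Factors 𝒦 Q m X w c) z ↔
      z ∈ ⨆ w : ℕ, BB.weightPart 𝒦 Q m X (l + w) := by
  simp only [weightPart_eq, ← Submodule.span_iUnion]
  have e : {c | ∃ w : ℕ, l ≤ w ∧ Prim.Factors 𝒦 Q m X w c} =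
      ⋃ w : ℕ, {c | Prim.Factors 𝒦 Q m X (l + w) c} := by
    ext c
    simp only [Set.mem_ofPred_eq, Set.mem_iUnion]
    constructor
    · rintro ⟨w, h1, h2⟩
      exact ⟨w - l, by rwa [Nat.add_sub_cancel' h1]⟩
    · rintro ⟨w, h⟩
      exact ⟨l + w, Nat.le_add_right l w, h⟩
  rw [← e]
  rfl

lemma pencil_iff {n : ℕ} {q : C.A (X.prod X)} :
    Prim.HasPencil 𝒦 Q n q ↔ BB.HasPencil 𝒦 Q n q := by
  have key : ∀ (P : 𝒱.Obj) (j : ℤ), {c | Prim.ComesFromDivisor 𝒦 Q n q P j c} =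
      {c | ∃ (Y : 𝒱.Obj) (i : Y ⟶ X) (w : C.A (P.prod Y))
      (e : C.A (Y.prod Y)), Y.dim + 1 = n ∧ C.Deg (j - 1) w ∧
      C.comp e (C.comp (C.graph i) q) = 0 ∧
      dg C Y - e ∈ ⨆ w : ℕ, BB.weightPart 𝒦 Q ⊤ Y (n - 1 + w) ∧
      c = C.down (W492.BB.prodMap (𝟙 P) i) w} := by
    intro P j
    ext c
    constructor
    · rintro ⟨Y, i, w, e, h1, h2, h3, h4, h5⟩
      exact ⟨Y, i, w, e, h1, h2, h3, comb_iff'.1 h4, h5⟩
    · rintro ⟨Y, i, w, e, h1, h2, h3, h4, h5⟩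
      exact ⟨Y, i, w, e, h1, h2, h3, comb_iff'.2 h4, h5⟩
  constructor
  · intro h P j z hz h'
    rw [← key]
    exact h P j z hz fun Y i r hr he => h' Y i r (isFactor_iff.1 hr) he
  · intro h P j z hz h'
    have := h P j z hz fun Y i r hr he => h' Y i r (isFactor_iff.2 hr) he
    rw [← key] at this
    exact this

lemma transcendental_iff {S : 𝒱.Obj} {q : C.A (S.prod S)} :
    Prim.IsTranscendental H 𝒦 S q ↔ BB.IsTranscendental H 𝒦 S q := by
  constructor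
  · rintro ⟨h1, h2, h3, h4, h5, x, π, h6, h7, h8, h9, h10⟩
    exact ⟨h1, h2, h3, h4, h5, x, π, h6, h7, h8, isCK_iff.1 h9, h10⟩
  · rintro ⟨h1, h2, h3, h4, h5, x, π, h6, h7, h8, h9, h10⟩
    exact ⟨h1, h2, h3, h4, h5, x, π, h6, h7, h8, isCK_iff.2 h9, h10⟩

lemma primitive_iff {n : ℕ} {q : C.A (X.prod X)} :
    Prim.IsPrimitivePart H 𝒦 Q n X q ↔ BB.IsPrimitivePart H 𝒦 Q n X q := by
  constructor
  · rintro ⟨h1, h2, h3, h4, h5, h6, h7, h8⟩
    exact ⟨h1, h2, h3, h4, h5, h6, pencil_iff.1 h7, comb_iff.1 h8⟩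
  · rintro ⟨h1, h2, h3, h4, h5, h6, h7, h8⟩
    exact ⟨h1, h2, h3, h4, h5, h6, pencil_iff.2 h7, comb_iff.2 h8⟩

lemma admissible (h : Prim.IsAdmissible H 𝒦 Q) : BB.IsAdmissible H 𝒦 Q :=
  ⟨h.curve, h.fibre, fun n S q hq => (h.variety n S q hq).imp
    (fun h => ⟨h.1, transcendental_iff.1 h.2⟩) primitive_iff.1⟩

lemma directed (h : Prim.IsAdmissible H 𝒦 Q) : BB.IsDirected C 𝒦 :=
  ⟨h.genus.imp fun _ h => h.1, h.directed⟩

lemma genus (h : Prim.IsAdmissible H 𝒦 Q) : ∃ T, 𝒦 T ∧ BB.HasGenus C T := h.genus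

lemma dominated_eq {d : ℕ∞} : Prim.IsDominated 𝒦 Q d = BB.IsDominated 𝒦 Q d := by
  funext X
  have key : {c | ∃ (P : 𝒱.Obj) (i : ℕ) (a : C.A (X.prod P)) (b : C.A (P.prod X)),
      Prim.IsProduct 𝒦 Q P ∧ (P.dim : ℕ∞) ≤ d ∧ C.Deg (X.dim - i) a ∧ C.Deg (P.dim + i) b ∧
      c = C.comp a b} = {c | ∃ (P : 𝒱.Obj) (i : ℕ) (a : C.A (X.prod P)) (b : C.A (P.prod X)),
      BB.IsProduct 𝒦 Q P ∧ (P.dim : ℕ∞) ≤ d ∧ C.Deg (X.dim - i) a ∧ C.Deg (P.dim + i) b ∧
      c = C.comp a b} := by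
    simp only [isProduct_iff]
  rw [BB.IsDominated, ← key]
  rfl

end Pool.Agent.N164.Bridge
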