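import Pool.Agent.N164.BB.Stmt

/-!
# Bloch-Beilinson filtrations and the kernels of the Abel-Jacobi maps: the definitions
-/

set_option autoImplicit false

open CategoryTheory AlgebraicGeometry

universe u v w

namespace Pool.Agent.N164.Prim

open Pool.Agent.H914 Pool.Agent.H914.VarClass Pool.Agent.H914.VarClass.Obj Pool.Agent.W492.BB

variable {k : Type u} [Field k] {𝒱 : VarClass k}

section filtrations

variable {C : TheoryData.{u, v, 0} 𝒱 ℚ}

/-- The class `z` lies in `(π_{2j-ν} + ⋯ + π_0)_* CH^j(X)`, the step `F^ν CH^j(X)` of the filtration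
attached to the Chow-Kunneth decomposition `π` of `X` (the step is zero if `ν > 2 j`). -/
def InStep {X : 𝒱.Obj} (π : ℕ → Cor C X X) (j ν : ℕ) (z : C.A X) : Prop :=
  ∃ y : C.A X, C.Deg j y ∧ z = C.act (psum C π (2 * j + 1 - ν)) y

variable {K : Type w} [Field K] (H : WeilTheoryData.{u, v, w} C K)

/-- The formal properties of the kernels `N X j ⊆ CH^j(X)` of the Abel-Jacobi maps
`CH^j(X)_hom → J^(2j-1)(X) ⊗ ℚ`:
* they consist of homologically trivial classes and are stable under all correspondences;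
* a correspondence acting as zero on `H^(2j-1)(X)` maps `CH^j(X)_hom` to the kernel of the
  Abel-Jacobi map of the target;
* the theorem of Abel: the kernel is zero for divisors. -/
structure IsAbelJacobiKernel (N : ∀ X : 𝒱.Obj, ℕ → Sub C X) : Prop where
  hom : ∀ (X : 𝒱.Obj) (j : ℕ) (z : C.A X), Mem (N X j) z → HomTriv H j z
  stable : ∀ (X Y : 𝒱.Obj) (j i : ℕ) (Γ : Cor C X Y), Maps C Γ j i →
    ∀ z : C.A X, Mem (N X j) z → Mem (N Y i) (C.act Γ z)
  kills : ∀ (X Y : 𝒱.Obj) (j i : ℕ) (Γ : Cor C X Y), Maps C Γ j i → Kills H Γ (2 * j - 1) →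
    ∀ z : C.A X, HomTriv H j z → Mem (N Y i) (C.act Γ z)
  abel : ∀ (X : 𝒱.Obj) (z : C.A X), Mem (N X 1) z → z = zero C X

/-- `F X j ν` is the step `F^ν CH^j(X)` of a Bloch-Beilinson filtration on the Chow groups of the
varieties `X` in the class `S` (the conditions 1, 2, 3, 4 of the problem, `N` being the kernels of
the Abel-Jacobi maps): the filtration is decreasing, `F^0 = CH^j(X)`, `F^1` is the homologically
trivial part, `F^2` is the kernel of the Abel-Jacobi map, `F^(j+1) CH^j(X) = 0`, correspondences of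
all degrees respect the filtration, and they map `F^ν CH^j(X)` to `F^(ν+1)` if they act as zero on
`H^(2j-ν)(X)`. -/
structure IsBlochBeilinsonOn (N : ∀ X : 𝒱.Obj, ℕ → Sub C X) (S : 𝒱.Obj → Prop)
    (F : ∀ X : 𝒱.Obj, ℕ → ℕ → Sub C X) : Prop where
  anti : ∀ X, S X → ∀ (j ν : ℕ) (z : C.A X), Mem (F X j (ν + 1)) z → Mem (F X j ν) z
  zero : ∀ X, S X → ∀ (j : ℕ) (z : C.A X), Mem (F X j 0) z ↔ C.Deg j z
  one : ∀ X, S X → ∀ (j : ℕ) (z : C.A X), Mem (F X j 1) z ↔ HomTriv H j z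
  two : ∀ X, S X → ∀ (j : ℕ) (z : C.A X), Mem (F X j 2) z ↔ Mem (N X j) z
  top : ∀ X, S X → ∀ (j : ℕ) (z : C.A X), Mem (F X j (j + 1)) z → z = Prim.zero C X
  stable : ∀ X Y, S X → S Y → ∀ (j i ν : ℕ) (Γ : Cor C X Y), Maps C Γ j i →
    ∀ z : C.A X, Mem (F X j ν) z → Mem (F Y i ν) (C.act Γ z)
  shift : ∀ X Y, S X → S Y → ∀ (j i ν : ℕ) (Γ : Cor C X Y), Maps C Γ j i →
    Kills H Γ (2 * j - ν) → ∀ z : C.A X, Mem (F X j ν) z → Mem (F Y i (ν + 1)) (C.act Γ z)

/-- The Abel-Jacobi maps in codimension `j` are injective on the parts `(P, p)` of weight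
`2 j - 1 = dim P`: a class `z ∈ CH^j(P)` in the kernel of the Abel-Jacobi map such that `p_* z = z`
is zero. -/
def InjectiveAt (𝒦 : 𝒱.Obj → Prop) (Q : ℕ → ∀ S : 𝒱.Obj, Cor C S S → Prop)
    (N : ∀ X : 𝒱.Obj, ℕ → Sub C X) (j : ℕ) : Prop :=
  ∀ (P : 𝒱.Obj) (p : Cor C P P), IsPart 𝒦 Q (2 * j - 1) P p →
    ∀ z : C.A P, Mem (N P j) z → C.act p z = z → z = zero C P

end filtrations

end Pool.Agent.N164.Prim
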