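import Pool.Agent.N164.BB.Bridge
import Pool.Agent.N164.BB.StmtA

/-!
# The main theorem on Bloch-Beilinson filtrations and Abel-Jacobi maps
-/

set_option autoImplicit false

open CategoryTheory AlgebraicGeometry

universe u v w

namespace Pool.Agent.N164.Bridge

open Pool.Agent.H914 Pool.Agent.H914.VarClass Pool.Agent.H914.VarClass.Obj
open Pool.Agent.W492.BB (TheoryData WeilTheoryData IsTheory IsChow IsWeil)
open Pool.Agent.TH133 (IsChowProj IsWeilProj)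

attribute [-instance] Pool.Agent.TH829.Kim.chCommRing

variable {k : Type u} [Field k] {𝒱 : VarClass k} {C : TheoryData.{u, v, 0} 𝒱 ℚ} {K : Type w}
  [Field K] {H : WeilTheoryData.{u, v, w} C K} {X Y : 𝒱.Obj} {𝒦 : 𝒱.Obj → Prop}
  {Q : ℕ → ∀ S : 𝒱.Obj, C.A (S.prod S) → Prop} {N : ∀ X : 𝒱.Obj, ℕ → Submodule ℚ (C.A X)}

lemma inStep_iff {π : ℕ → C.A (X.prod X)} {j ν : ℕ} {z : C.A X} :
    Prim.InStep π j ν z ↔ z ∈ TH133.ckFil C π j ν :=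
  ⟨fun ⟨y, h1, h2⟩ => ⟨y, h1, h2.symm⟩, fun ⟨y, h1, h2⟩ => ⟨y, h1, h2.symm⟩⟩

lemma kernel_iff : Prim.IsAbelJacobiKernel H N ↔ Y148.BB.IsAbelJacobiKernel H N :=
  ⟨fun h => ⟨h.hom, h.stable, fun X Y j i Γ h1 h2 z h3 h4 => h.kills X Y j i Γ h1 h2 z ⟨h3, h4⟩,
    h.abel⟩,
    fun h => ⟨h.deg, h.stable, fun X Y j i Γ h1 h2 z h3 => h.kills X Y j i Γ h1 h2 z h3.1 h3.2,
    h.abel⟩⟩

lemma bb_iff {S : 𝒱.Obj → Prop} {F : ∀ X : 𝒱.Obj, ℕ → ℕ → Submodule ℚ (C.A X)} :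
    Prim.IsBlochBeilinsonOn H N S F ↔ Y148.BB.IsBlochBeilinsonOn H N S F := by
  constructor
  · intro h
    exact ⟨fun X hX j ν z hz => h.anti X hX j ν z hz, h.zero, h.one,
      fun X hX j => Submodule.ext (h.two X hX j),
      fun X hX j => (Submodule.eq_bot_iff _).2 (h.top X hX j), h.stable, h.shift⟩
  · intro h
    exact ⟨fun X hX j ν z hz => h.anti X hX j ν hz, h.zero, h.one,
      fun X hX j z => by rw [Prim.Mem, h.two X hX j],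
      fun X hX j z hz => (Submodule.eq_bot_iff _).1 (h.top X hX j) z hz, h.stable, h.shift⟩

lemma injective_iff {𝒦 : 𝒱.Obj → Prop} {j : ℕ} :
    Prim.InjectiveAt 𝒦 Q N j ↔ BB.InjectiveAt 𝒦 Q N j :=
  ⟨fun h P p hp => h P p (isPart_iff.2 hp), fun h P p hp => h P p (isPart_iff.1 hp)⟩

/-- The main theorem, in terms of the definitions of the statement. -/
theorem mainA (hC : Prim.IsChowTheory C) (hH : Prim.IsWeilTheory H)
    (hA : Prim.IsAdmissible H 𝒦 Q) (hN : Prim.IsAbelJacobiKernel H N) :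
    ((∃ F, Prim.IsBlochBeilinsonOn H N (Prim.IsDominated 𝒦 Q ⊤) F) ↔
      ∀ T, 𝒦 T → ∀ e : ℕ, ∃ T' j, 𝒦 T' ∧ Prim.Dominates C T' T ∧ e ≤ j ∧
        Prim.InjectiveAt (fun S => S = T') Q N j) ∧
    (∀ d : ℕ, (∀ T, 𝒦 T → ∃ T', 𝒦 T' ∧ Prim.Dominates C T' T ∧
      Prim.InjectiveAt (fun S => S = T') Q N d) →
      ∃ F, Prim.IsBlochBeilinsonOn H N (Prim.IsDominated 𝒦 Q d) F ∧
      ∀ X, Prim.IsDominated 𝒦 Q d X → ∃ π, Prim.IsCK H X π ∧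
        ∀ (j ν : ℕ) (z : C.A X), Prim.Mem (F X j ν) z ↔ Prim.InStep π j ν z) ∧
    (∀ d : ℕ, (∃ F, Prim.IsBlochBeilinsonOn H N (Prim.IsDominated 𝒦 Q (2 * d - 1 : ℕ)) F) →
      Prim.InjectiveAt 𝒦 Q N d) := by
  have := chow hC
  have := weil hH
  obtain ⟨h1, h2, h3⟩ := BB.mainA (admissible hA) (directed hA) (genus hA) (kernel_iff.1 hN)
  refine ⟨?_, fun d hd => ?_, fun d hd => ?_⟩
  · rw [dominated_eq]
    refine ⟨fun ⟨F, hF⟩ T hT e => ?_, fun h => ?_⟩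
    · obtain ⟨T', j, hT', hdom, hj, hinj⟩ := h1.1 ⟨F, bb_iff.1 hF⟩ T hT e
      exact ⟨T', j, hT', hdom, hj, injective_iff.2 hinj⟩
    · obtain ⟨F, hF⟩ := h1.2 fun T hT e => by
        obtain ⟨T', j, hT', hdom, hj, hinj⟩ := h T hT e
        exact ⟨T', j, hT', hdom, hj, injective_iff.1 hinj⟩
      exact ⟨F, bb_iff.2 hF⟩
  · rw [dominated_eq]
    obtain ⟨F, hF, hck⟩ := h2 d fun T hT => by
      obtain ⟨T', hT', hdom, hinj⟩ := hd T hT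
      exact ⟨T', hT', hdom, injective_iff.1 hinj⟩
    refine ⟨F, bb_iff.2 hF, fun X hX => ?_⟩
    obtain ⟨π, hπ, hFπ⟩ := hck X hX
    refine ⟨π, isCK_iff.2 hπ, fun j ν z => ?_⟩
    rw [inStep_iff, Prim.Mem, hFπ]
  · obtain ⟨F, hF⟩ := hd
    rw [dominated_eq] at hF
    exact injective_iff.2 (h3 d ⟨F, bb_iff.1 hF⟩)

end Pool.Agent.N164.Bridge
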