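import Pool.Agent.N164.BB.Ideal
import Pool.Agent.X308.S.Ring
import Pool.Agent.TH133.SelfDual

/-!
# Chow-Kunneth decompositions of the varieties dominated by products of curves and surfaces
-/

set_option autoImplicit false

open CategoryTheory AlgebraicGeometry

universe u v w

namespace Pool.Agent.N164.BB

open Pool.Agent.H914 Pool.Agent.H914.VarClass Pool.Agent.H914.VarClass.Obj Pool.Agent.W492.BB
  Pool.Agent.W550.Corr Pool.Agent.TH133 Pool.Agent.Y148.BB Pool.Agent.X308.S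

set_option linter.unusedSectionVars false
set_option linter.unusedVariables false

variable {k : Type u} [Field k] {𝒱 : VarClass k}

/-- Bilinear maps and suprema. -/
lemma bilin_iSup {R A B D ι κ : Type*} [Field R] [AddCommGroup A] [Module R A] [AddCommGroup B]
    [Module R B] [AddCommGroup D] [Module R D] (f : A →ₗ[R] B →ₗ[R] D) {s : ι → Submodule R A}
    {t : κ → Submodule R B} {S : Submodule R D} (h : ∀ i j, ∀ a ∈ s i, ∀ b ∈ t j, f a b ∈ S)
    {x : A} {y : B} (hx : x ∈ ⨆ i, s i) (hy : y ∈ ⨆ j, t j) : f x y ∈ S := by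
  have h1 : ∀ i, ∀ a ∈ s i, f a y ∈ S := by
    intro i a ha
    have h2 : ⨆ j, t j ≤ S.comap (f a) := iSup_le fun j b hb => h i j a ha b hb
    exact h2 hy
  have h3 : ⨆ i, s i ≤ S.comap (LinearMap.flip f y) := iSup_le fun i a ha => h1 i a ha
  exact h3 hx

variable {C : TheoryData.{u, v, 0} 𝒱 ℚ} {K : Type w} [Field K]
  {H : WeilTheoryData.{u, v, w} C K} {S S' T X Y Z W P : 𝒱.Obj}
  {𝒦 : 𝒱.Obj → Prop} {Q : ℕ → ∀ S : 𝒱.Obj, C.A (S.prod S) → Prop}
  {N : ∀ X : 𝒱.Obj, ℕ → Submodule ℚ (C.A X)}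

variable [hC : IsChowProj C] [hH : IsWeilProj H] {E E' : Prop} {m m' d : ℕ∞}

include hC hH

lemma wt_mem_iSup {w : ℤ} {x : C.A (X.prod X)} (hx : x ∈ wt 𝒦 Q E m X w) :
    x ∈ ⨆ w, wt 𝒦 Q E m X w := Submodule.mem_iSup_of_mem w hx

lemma diag_curve (h𝒦 : ∀ T, 𝒦 T → T.dim = 1) (hT : 𝒦 T) :
    dg C T ∈ ⨆ w, wt 𝒦 Q True T.dim T w := by
  have hT1 := h𝒦 T hT
  obtain ⟨o, ho, hd⟩ := exists_point (C := C) hT1
  have h1 := C.one_mem T
  have hdg := dg_mem C T
  rw [hT1] at hdg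
  rw [dg_eq_odd o]
  refine Submodule.add_mem _ (Submodule.add_mem _ ?_ ?_) ?_
  · have e : oddProj C o = C.comp (dg C T) (C.comp (oddProj C o) (dg C T)) := by
      rw [comp_dg, dg_comp]
    rw [e]
    apply wt_mem_iSup (H := H) (w := 1)
    refine wt_part (i := 0) (.factor 1 T _ (.curve T o hT ho hd)) ?_ (fun _ => le_rfl)
      (by norm_num) ?_ ?_
    · rw [hT1]
    · rw [hT1]
      simpa using hdg
    · simpa using hdg
  · apply wt_mem_iSup (H := H) (w := 0)
    refine wt_unit (i := 0) (fun _ => le_rfl) (by norm_num) ?_ h1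
    rw [hT1]
    simpa using ho
  · apply wt_mem_iSup (H := H) (w := 2)
    refine wt_unit (i := 1) (fun _ => by norm_num) (by norm_num) ?_ ho
    rw [hT1]
    simpa using h1

lemma throughOdd_le (h𝒦 : ∀ T, 𝒦 T → T.dim = 1) (hS : S.dim = 2) {i : ℤ} (hi : 0 ≤ i) :
    throughOdd C 𝒦 S i ≤ wt 𝒦 Q True S.dim S (1 + 2 * i) := by
  unfold throughOdd
  rw [Submodule.span_le]
  rintro _ ⟨T, o, f, g, hT, ho, hd, hf, hg, rfl⟩
  refine wt_part (i := i) (.factor 1 T _ (.curve T o hT ho hd)) ?_ (fun _ => hi)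
    (by norm_num) ?_ ?_
  · rw [hS]
    norm_num
  · rw [hS]
    exact_mod_cast hf
  · exact_mod_cast hg

lemma diag_surface (h𝒦 : ∀ T, 𝒦 T → T.dim = 1) {q : C.A (S.prod S)} (hQ : Q 2 S q)
    (hq : IsTranscendental H 𝒦 S q) : dg C S ∈ ⨆ w, wt 𝒦 Q True S.dim S w := by
  have hS := hq.dim_eq
  have h1 := C.one_mem S
  have hdg := dg_mem C S
  rw [hS] at hdg
  obtain ⟨x, π, hx, hx1, hpen, hck, h0, h4, hπq, h2, hπ1, hπ3⟩ := hq.exists_ck
  have hsum := hck.sum
  rw [hS] at hsum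
  simp only [show 2 * 2 + 1 = 5 from rfl, Finset.sum_range_succ, Finset.sum_range_zero,
    zero_add] at hsum
  rw [← hsum]
  refine Submodule.add_mem _ (Submodule.add_mem _ (Submodule.add_mem _ (Submodule.add_mem _
    ?_ ?_) ?_) ?_) ?_
  · rw [h0]
    apply wt_mem_iSup (H := H) (w := 0)
    refine wt_unit (i := 0) (fun _ => le_rfl) (by norm_num) ?_ h1
    rw [hS]
    simpa using hx
  · exact wt_mem_iSup (H := H) (throughOdd_le (H := H) h𝒦 hS le_rfl hπ1)
  · apply wt_mem_iSup (H := H) (w := 2)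
    rw [← sub_add_cancel (π 2) q]
    refine Submodule.add_mem _ ?_ ?_
    · have h5 : Submodule.span ℚ {c | ∃ D D' : C.A S, C.Deg 1 D ∧ C.Deg 1 D' ∧ c = C.ext D D'} ≤
          wt 𝒦 Q True S.dim S 2 := by
        rw [Submodule.span_le]
        rintro _ ⟨D, D', hD, hD', rfl⟩
        refine wt_unit (i := 1) (fun _ => by norm_num) (by norm_num) ?_ hD'
        rw [hS]
        simpa using hD
      exact h5 h2
    · have e : q = C.comp (dg C S) (C.comp q (dg C S)) := by
        rw [comp_dg, dg_comp]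
      rw [e]
      refine wt_part (i := 0) (.factor 2 S _ (.variety 2 S q hQ)) ?_ (fun _ => le_rfl)
        (by norm_num) ?_ ?_
      · rw [hS]
      · rw [hS]
        simpa using hdg
      · simpa using hdg
  · exact wt_mem_iSup (H := H) (throughOdd_le (H := H) h𝒦 hS (by norm_num) hπ3)
  · rw [h4]
    apply wt_mem_iSup (H := H) (w := 4)
    refine wt_unit (i := 2) (fun _ => by norm_num) (by norm_num) ?_ hx
    rw [hS]
    simpa using h1

omit hC hH in
lemma weightPart_le {w : ℕ} : weightPart 𝒦 Q m X w ≤ wt 𝒦 Q True m X (w : ℤ) := by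
  unfold weightPart
  rw [Submodule.span_le, Set.union_subset_iff]
  constructor
  · rintro _ ⟨n, i, P, p, a, b, hP, hn, hw, ha, hb, rfl⟩
    exact wt_part (i := (i : ℤ)) hP hn (fun _ => by omega) (by omega) ha hb
  · rintro _ ⟨i, a, b, hw, ha, hb, rfl⟩
    exact wt_unit (i := (i : ℤ)) (fun _ => by omega) (by omega) ha hb

lemma diag_factor (hA : IsAdmissible H 𝒦 Q)
    (hT : 𝒦 T ∨ ∃ n q, Q n T q) : dg C T ∈ ⨆ w, wt 𝒦 Q True T.dim T w := by
  rcases hT with hT | ⟨n, q, hT⟩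
  · exact diag_curve (H := H) hA.curve hT
  · rcases hA.variety n T q hT with ⟨rfl, hq⟩ | hq
    · exact diag_surface hA.curve hT hq
    · rw [hq.dim_eq]
      have h1 : (⨆ w : ℕ, weightPart 𝒦 Q n T w) ≤ ⨆ w : ℤ, wt 𝒦 Q True n T w :=
        iSup_le fun w => weightPart_le.trans (le_iSup (fun w : ℤ => wt 𝒦 Q True (n : ℕ∞) T w) w)
      exact h1 hq.diagonal

lemma diag_prod (hA : IsAdmissible H 𝒦 Q)
    (h : IsProduct 𝒦 Q P) : dg C P ∈ ⨆ w, wt 𝒦 Q True P.dim P w := by
  induction h with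
  | factor T hT => exact diag_factor hA hT
  | prod P T hP hT ih =>
    have h1 := diag_factor hA hT
    rw [← tens_dg C, ← tensL_apply]
    refine bilin_iSup tensL ?_ ih h1
    intro w w' a ha b hb
    have h2 := wt_tens (fun n P p hP => hP.middle hA) ha hb
    have e : ((P.prod T).dim : ℕ∞) = P.dim + T.dim := by
      rw [dim_prod]
      push_cast
      rfl
    rw [e]
    exact wt_mem_iSup (H := H) h2

/-- The diagonal of a dominated variety is a sum of effective correspondences of the various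
weights. -/
lemma diag_dominated (hA : IsAdmissible H 𝒦 Q)
    (h : IsDominated 𝒦 Q d X) : dg C X ∈ ⨆ w, wt 𝒦 Q True d X w := by
  unfold IsDominated at h
  refine (Submodule.span_le.2 ?_) h
  rintro _ ⟨P, i, a, b, hP, hd, ha, hb, rfl⟩
  have h1 := diag_prod hA hP
  have h2 : (⨆ w, wt 𝒦 Q True P.dim P w) ≤ (⨆ w, wt 𝒦 Q True d X w).comap
      (compL C a ∘ₗ LinearMap.flip (compL C) b) :=
    iSup_le fun w x hx => Submodule.mem_iSup_of_mem (w + 2 * i)
      (wt_mono' hd (wt_conj' hx (fun _ => by omega) ha hb))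
  have h3 := h2 h1
  change C.comp a (C.comp (dg C P) b) ∈ ⨆ w, wt 𝒦 Q True d X w at h3
  rwa [dg_comp] at h3

/-- The triangular ideals in the ring of correspondences. -/
lemma triIdeals (hP : ∀ n P p, IsPart 𝒦 Q n P p → IsMiddle H n p) (hV : V1 𝒦 Q (d + d))
    (X : 𝒱.Obj) : TriIdeals (A := Cor C X) (cor0 C X).toSubring
      (fun w : ℤ => (wt 𝒦 Q False d X w).toAddSubgroup) where
  le _ _ hx := wt_mem hP hx
  left _ _ _ ha hx := wt_comp hx ha
  right _ _ _ ha hx := comp_wt hx ha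
  tri _ _ _ _ hlt hx hy := wt_tri hP hV hlt hx hy

/-- Idempotents of weight `w < 0` or `w > 2 dim X` vanish. -/
lemma wt_idem_zero (hP : ∀ n P p, IsPart 𝒦 Q n P p → IsMiddle H n p) (hV : V2 H 𝒦 Q (m + m))
    {w : ℤ} (hw : w < 0 ∨ 2 * X.dim < w) {x : C.A (X.prod X)} (hx : x ∈ wt 𝒦 Q E m X w)
    (hxx : C.comp x x = x) : x = 0 := by
  have hcl : H.cl x = 0 := by
    apply cl_zero_of
    intro j a ha
    by_cases hj : j = w
    · subst hj
      have ha0 : a = 0 := by
        rcases hw with h | h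
        · exact hgr_neg ha h
        · rw [gr_top H h] at ha
          exact (Submodule.mem_bot _).1 ha
      rw [ha0, TheoryData.act_map_zero]
    · exact wt_actH hP hx ha hj
  have h1 := wt_same hP hV (s := 0) (by rw [mul_zero, add_zero]) (by
    rw [add_zero]; exact wt_mem hP hx) hcl hx hx
  rwa [hxx, hxx] at h1

/-- A Chow-Kunneth decomposition into projectors of pure weights. -/
structure IsPure (H : WeilTheoryData.{u, v, w} C K) (𝒦 : 𝒱.Obj → Prop)
    (Q : ℕ → ∀ S : 𝒱.Obj, C.A (S.prod S) → Prop) (d : ℕ∞) {X : 𝒱.Obj} (π : ℕ → C.A (X.prod X)) :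
    Prop where
  ck : IsCK H X π
  wt : ∀ w : ℕ, π w ∈ wt 𝒦 Q False d X w
  eff : dg C X ∈ ⨆ w, BB.wt 𝒦 Q True d X w

theorem exists_pure (hP : ∀ n P p, IsPart 𝒦 Q n P p → IsMiddle H n p) (hV1 : V1 𝒦 Q (d + d))
    (hV2 : V2 H 𝒦 Q (d + d)) (hX : dg C X ∈ ⨆ w, wt 𝒦 Q True d X w) :
    ∃ π : ℕ → C.A (X.prod X), IsPure H 𝒦 Q d π := by
  have h1 : dg C X ∈ ⨆ w, wt 𝒦 Q False d X w :=
    (iSup_mono fun w => wt_mono le_rfl) hX
  obtain ⟨f, hf, hfs⟩ := (Submodule.mem_iSup_iff_exists_finsupp _ _).1 h1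
  obtain ⟨q, h2, h3, h4, h5, -⟩ := exists_orthogonal (triIdeals hP hV1 X) f.support
    (1 : Cor C X) (fun w => f w) (cor0 C X).one_mem (mul_one 1) (fun w _ => hf w) hfs
  have hout : ∀ w : ℤ, w < 0 ∨ 2 * X.dim < w → q w = 0 := by
    intro w hw
    have h6 := h4 w w
    rw [if_pos rfl] at h6
    exact wt_idem_zero hP hV2 hw (h2 w) h6
  let t : Finset ℤ := (Finset.range (2 * X.dim + 1)).image (fun i : ℕ => (i : ℤ))
  have ht : ∀ w, w ∉ t → q w = 0 := by
    intro w hw
    apply hout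
    by_contra hcon
    push Not at hcon
    apply hw
    obtain ⟨j, rfl⟩ := Int.eq_ofNat_of_zero_le hcon.1
    exact Finset.mem_image.2 ⟨j, Finset.mem_range.2 (by omega), rfl⟩
  have hsum : ∑ i ∈ Finset.range (2 * X.dim + 1), q (i : ℤ) = 1 := by
    have e1 : ∑ i ∈ Finset.range (2 * X.dim + 1), q (i : ℤ) = ∑ w ∈ t, q w := by
      rw [Finset.sum_image (fun x _ y _ hxy => by simpa using hxy)]
    rw [e1, ← h5, Finset.sum_subset (Finset.subset_union_left (s₁ := t) (s₂ := f.support))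
      (fun w _ hw => ht w hw), Finset.sum_subset
      (Finset.subset_union_right (s₁ := t) (s₂ := f.support)) (fun w _ hw => h3 w hw)]
  refine ⟨fun j => q (j : ℤ), isCK_of (fun i => wt_mem hP (h2 i))
    (fun i hi => hout i (Or.inr (by exact_mod_cast hi))) (fun i j => ?_) hsum
    (fun i j a ha => ?_), fun w => h2 w, hX⟩
  · rw [h4]
    simp only [Nat.cast_inj]
  · split_ifs with hm
    · have h7 : a = ∑ j ∈ Finset.range (2 * X.dim + 1), actH C X H (q (j : ℤ)) a := by
        rw [← LinearMap.sum_apply, ← map_sum, hsum, map_one]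
        rfl
      conv_rhs => rw [h7]
      symm
      apply Finset.sum_eq_single i
      · intro j _ hj
        exact wt_actH hP (h2 j) ha (by omega)
      · intro h8
        rw [Finset.mem_range] at h8
        rw [hout i (Or.inr (by omega)), map_zero, LinearMap.zero_apply]
    · exact wt_actH hP (h2 i) ha hm

end Pool.Agent.N164.BB
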