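import Pool.Agent.Y148.BB.Defs

/-!
# The primitive parts of products of curves, surfaces and complete intersections: definitions
-/

set_option autoImplicit false

open CategoryTheory AlgebraicGeometry

universe u v w

namespace Pool.Agent.N164.BB

open Pool.Agent.H914 Pool.Agent.H914.VarClass Pool.Agent.H914.VarClass.Obj Pool.Agent.W492.BB
  Pool.Agent.W550.Corr Pool.Agent.TH133
open Pool.Agent.Y148.BB (oddProj)

variable {k : Type u} [Field k] {𝒱 : VarClass k} {C : TheoryData.{u, v, 0} 𝒱 ℚ}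

/-! ### The parts -/

/-- `IsFactor 𝒦 Q n T r`: either `T` is a curve in the class `𝒦`, `n = 1` and `r` is the projector
`Δ - o × T - T × o` on the motive `h^1(T)`, with `o` a zero-cycle of degree one; or `Q n T r` holds
(`T` is a variety of dimension `n ≥ 2` and `r` is a projector on a part of weight `n` of its
motive). -/
inductive IsFactor (𝒦 : 𝒱.Obj → Prop) (Q : ℕ → ∀ S : 𝒱.Obj, C.A (S.prod S) → Prop) :
    ℕ → (T : 𝒱.Obj) → C.A (T.prod T) → Prop
  | curve (T : 𝒱.Obj) (o : C.A T) (hT : 𝒦 T) (ho : C.Deg 1 o) (hd : HasDegree C o 1) :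
      IsFactor 𝒦 Q 1 T (oddProj C o)
  | variety (n : ℕ) (S : 𝒱.Obj) (q : C.A (S.prod S)) (h : Q n S q) : IsFactor 𝒦 Q n S q

/-- `IsPart 𝒦 Q n P p`: the variety `P` is a product of varieties `T` and `p` is the external
product of projectors `r` with `IsFactor 𝒦 Q m T r`; the number `n`, the weight, is the sum of the
`m`. So `(P, p)` is a motive `h^1(T_1) ⊗ ⋯ ⊗ h^1(T_s) ⊗ (S_1, q_1) ⊗ ⋯ ⊗ (S_r, q_r)`, the factors in
any order, and its weight is the dimension of `P`. -/
inductive IsPart (𝒦 : 𝒱.Obj → Prop) (Q : ℕ → ∀ S : 𝒱.Obj, C.A (S.prod S) → Prop) :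
    ℕ → (P : 𝒱.Obj) → C.A (P.prod P) → Prop
  | factor (n : ℕ) (T : 𝒱.Obj) (r : C.A (T.prod T)) (hr : IsFactor 𝒦 Q n T r) : IsPart 𝒦 Q n T r
  | prod (n m : ℕ) (P T : 𝒱.Obj) (p : C.A (P.prod P)) (r : C.A (T.prod T))
      (hp : IsPart 𝒦 Q n P p) (hr : IsFactor 𝒦 Q m T r) : IsPart 𝒦 Q (n + m) (P.prod T) (tens C p r)

/-- The self-correspondences of degree zero of `X` of weight `w` which factor through the effective
twists of parts: the span of the compositions `b ∘ p ∘ a` with `(P, p)` a part of weight `n ≤ m`,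
`a ∈ CH^(dim X - i)(X × P)`, `b ∈ CH^(n + i)(P × X)`, `i ≥ 0`, `n + 2 i = w` (they factor through the
`i`-th twist of `(P, p)`), and of the products `a × b` with `a ∈ CH^(dim X - i)(X)`, `b ∈ CH^i(X)`,
`i ≥ 0`, `2 i = w` (they factor through the `i`-th power of the Lefschetz motive). -/
noncomputable def weightPart (𝒦 : 𝒱.Obj → Prop) (Q : ℕ → ∀ S : 𝒱.Obj, C.A (S.prod S) → Prop)
    (m : ℕ∞) (X : 𝒱.Obj) (w : ℕ) : Submodule ℚ (C.A (X.prod X)) :=
  Submodule.span ℚ ({c | ∃ (n i : ℕ) (P : 𝒱.Obj) (p : C.A (P.prod P)) (a : C.A (X.prod P))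
      (b : C.A (P.prod X)), IsPart 𝒦 Q n P p ∧ (n : ℕ∞) ≤ m ∧ n + 2 * i = w ∧
      C.Deg (X.dim - i) a ∧ C.Deg (n + i) b ∧ c = C.comp a (C.comp p b)} ∪
    {c | ∃ (i : ℕ) (a b : C.A X), 2 * i = w ∧ C.Deg (X.dim - i) a ∧ C.Deg i b ∧ c = C.ext a b})

section geometry

variable (C)

/-- The property of the Chow groups of varieties over an uncountable algebraically closed field that
a class on `X × T`, `T` a curve in the class `𝒦`, whose restrictions to all the fibres `X × t`
vanish, is a sum of classes `x × t` (Bloch and Srinivas). The restriction of `z` to the fibre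
`X × t` is the push-forward to `X` of the intersection of `z` with `X × t`. -/
def FibreProperty (𝒦 : 𝒱.Obj → Prop) : Prop :=
  ∀ (X T : 𝒱.Obj) (j : ℤ) (z : C.A (X.prod T)), 𝒦 T → C.Deg j z →
    (∀ t : C.A T, C.Deg 1 t → C.down (fst X T) (C.mul z (C.up (snd X T) t)) = 0) →
    z ∈ Submodule.span ℚ {c | ∃ (x : C.A X) (t : C.A T), C.Deg (j - 1) x ∧ C.Deg 1 t ∧
      c = C.ext x t}

/-- The analogous property for a pencil of curves of the class `𝒦` on the surface `S` through the
point `x`: a class on `P × S` whose restrictions to `P × T` vanish, for all the curves `T → S` which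
carry a zero-cycle `o` of degree one with image `x` (such as the smooth members of the pencil), is a
sum of push-forwards of classes on products `P × T` with curves `T → S` (the normalisations of
members of the pencil). -/
def CurvePencilProperty (𝒦 : 𝒱.Obj → Prop) {S : 𝒱.Obj} (x : C.A S) : Prop :=
  ∀ (P : 𝒱.Obj) (j : ℤ) (z : C.A (P.prod S)), C.Deg j z →
    (∀ (T : 𝒱.Obj) (i : T ⟶ S) (o : C.A T), 𝒦 T → C.Deg 1 o → HasDegree C o 1 →
      C.down i o = x → C.up (prodMap (𝟙 P) i) z = 0) →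
    z ∈ Submodule.span ℚ {c | ∃ (T : 𝒱.Obj) (i : T ⟶ S) (w : C.A (P.prod T)), 𝒦 T ∧
      C.Deg (j - 1) w ∧ c = C.down (prodMap (𝟙 P) i) w}

/-- The self-correspondences of the surface `S` which factor through the motives `h^1(T)` (twisted
`i` times) of curves `T` in the class `𝒦`: the span of the compositions `g ∘ (Δ - o × T - T × o) ∘ f`
with `f ∈ CH^(2-i)(S × T)` and `g ∈ CH^(1+i)(T × S)`. -/
noncomputable def throughOdd (𝒦 : 𝒱.Obj → Prop) (S : 𝒱.Obj) (i : ℤ) :
    Submodule ℚ (C.A (S.prod S)) :=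
  Submodule.span ℚ {c | ∃ (T : 𝒱.Obj) (o : C.A T) (f : C.A (S.prod T)) (g : C.A (T.prod S)), 𝒦 T ∧
    C.Deg 1 o ∧ HasDegree C o 1 ∧ C.Deg (2 - i) f ∧ C.Deg (1 + i) g ∧
    c = C.comp f (C.comp (oddProj C o) g)}

variable {C}

/-- The pencil property for the projector `q` on a part of weight `n = dim X` of the motive of `X`.
A class on `P × X` whose restrictions to `P × Y` vanish, for all `i : Y → X` with a factor `(Y, r)`
of weight `n - 1` through which the restriction `i^* ∘ q` factors (the smooth members `Y` of a pencil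
of divisors on `X`), is a sum of push-forwards of classes on products `P × Y` with `i : Y → X` such
that `q ∘ i_*` vanishes on the parts of weight less than `n - 1` of the motive of `Y`: the diagonal
of `Y` is the sum of a correspondence `e` with `q ∘ i_* ∘ e = 0` and of correspondences of weights
`≥ n - 1` (the resolutions `Y` of the components of the members of the pencil). -/
def HasPencil (𝒦 : 𝒱.Obj → Prop) (Q : ℕ → ∀ S : 𝒱.Obj, C.A (S.prod S) → Prop) (n : ℕ)
    {X : 𝒱.Obj} (q : C.A (X.prod X)) : Prop :=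
  ∀ (P : 𝒱.Obj) (j : ℤ) (z : C.A (P.prod X)), C.Deg j z →
    (∀ (Y : 𝒱.Obj) (i : Y ⟶ X) (r : C.A (Y.prod Y)), IsFactor 𝒦 Q (n - 1) Y r →
      C.comp (C.comp q (C.cograph i)) r = C.comp q (C.cograph i) →
      C.up (prodMap (𝟙 P) i) z = 0) →
    z ∈ Submodule.span ℚ {c | ∃ (Y : 𝒱.Obj) (i : Y ⟶ X) (w : C.A (P.prod Y))
      (e : C.A (Y.prod Y)), Y.dim + 1 = n ∧ C.Deg (j - 1) w ∧
      C.comp e (C.comp (C.graph i) q) = 0 ∧
      dg C Y - e ∈ ⨆ w : ℕ, weightPart 𝒦 Q ⊤ Y (n - 1 + w) ∧ c = C.down (prodMap (𝟙 P) i) w}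

variable {K : Type w} [Field K] (H : WeilTheoryData.{u, v, w} C K)

/-- The correspondence `q` is the projector on the transcendental part `t_2(S)` of the motive of
the surface `S` (Murre; Kahn, Murre, Pedrini): `q` is a self-dual idempotent which acts as zero on
divisors, and there are a zero-cycle `x` of degree one (a point), with a pencil of curves through
it, and a Chow-Kunneth decomposition `π` of `S` such that `π 0 = x × S`, `π 4 = S × x`, `π 1` and
`π 3` factor through the motives `h^1` of curves, `q` is a direct summand of `π 2`, and `π 2 - q`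
is a linear combination of products of divisors. The curves are taken in the class `𝒦`. -/
structure IsTranscendental (𝒦 : 𝒱.Obj → Prop) (S : 𝒱.Obj) (q : C.A (S.prod S)) : Prop where
  dim_eq : S.dim = 2
  deg : C.Deg 2 q
  idem : C.comp q q = q
  self_dual : tp C q = q
  divisor : ∀ D : C.A S, C.Deg 1 D → C.act q D = 0
  exists_ck : ∃ (x : C.A S) (π : ℕ → C.A (S.prod S)), C.Deg 2 x ∧ HasDegree C x 1 ∧
    CurvePencilProperty C 𝒦 x ∧ IsCK H S π ∧ π 0 = C.ext x 1 ∧ π 4 = C.ext 1 x ∧
    C.comp (π 2) q = q ∧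
    π 2 - q ∈ Submodule.span ℚ {c | ∃ D D' : C.A S, C.Deg 1 D ∧ C.Deg 1 D' ∧ c = C.ext D D'} ∧
    π 1 ∈ throughOdd C 𝒦 S 0 ∧ π 3 ∈ throughOdd C 𝒦 S 1

/-- The correspondence `q` is a projector on a primitive part of weight `n = dim X ≥ 2` of the
motive of `X`: it is a self-dual idempotent which acts as zero on `H^m(X)` for `m ≠ n` and has the
pencil property, and the motive of `X` is a sum of effective twists of direct summands of parts of
weight at most `n`.

For example, `X` is a smooth complete intersection of degree `d` in a projective space with the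
class `h` of a hyperplane section, and `q = Δ - ∑ (h^(n-i) × h^i) / d` is the projector on the
primitive part, or `X` is the blow-up of a complete intersection in its only singular point, an
ordinary double point, with exceptional divisor `E`, of self-intersection number `e = (E^n)`, and
`q = Δ - ∑ (h^(n-i) × h^i) / d - ∑ (E^(n-i) × E^i) / e`, the last sum over `0 < i < n` (if the
varieties are not cellular); the pencil is a general pencil of hyperplane sections. -/
structure IsPrimitivePart (𝒦 : 𝒱.Obj → Prop) (Q : ℕ → ∀ S : 𝒱.Obj, C.A (S.prod S) → Prop) (n : ℕ)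
    (X : 𝒱.Obj) (q : C.A (X.prod X)) : Prop where
  two_le : 2 ≤ n
  dim_eq : X.dim = n
  deg : C.Deg n q
  idem : C.comp q q = q
  self_dual : tp C q = q
  kills : ∀ m : ℤ, m ≠ n → Kills H q m
  pencil : HasPencil 𝒦 Q n q
  diagonal : dg C X ∈ ⨆ w : ℕ, weightPart 𝒦 Q n X w

/-- The curves in the class `𝒦` and the varieties `S` with projectors `q` such that `Q n S q` are
admissible: `Q n S q` implies that `S` is a surface, `n = 2` and `q` is the projector on its
transcendental part, or that `q` is the projector on a primitive part of weight `n = dim S`. -/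
structure IsAdmissible (𝒦 : 𝒱.Obj → Prop) (Q : ℕ → ∀ S : 𝒱.Obj, C.A (S.prod S) → Prop) :
    Prop where
  curve : ∀ T : 𝒱.Obj, 𝒦 T → T.dim = 1
  fibre : FibreProperty C 𝒦
  variety : ∀ (n : ℕ) (S : 𝒱.Obj) (q : C.A (S.prod S)), Q n S q →
    n = 2 ∧ IsTranscendental H 𝒦 S q ∨ IsPrimitivePart H 𝒦 Q n S q

/-- The variety `P` is a product of curves in the class `𝒦` and of varieties `S` such that `Q n S q`
for some `n` and `q`. -/
inductive IsProduct (𝒦 : 𝒱.Obj → Prop) (Q : ℕ → ∀ S : 𝒱.Obj, C.A (S.prod S) → Prop) :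
    𝒱.Obj → Prop
  | factor (T : 𝒱.Obj) (hT : 𝒦 T ∨ ∃ n q, Q n T q) : IsProduct 𝒦 Q T
  | prod (P T : 𝒱.Obj) (hP : IsProduct 𝒦 Q P) (hT : 𝒦 T ∨ ∃ n q, Q n T q) :
      IsProduct 𝒦 Q (P.prod T)

/-- The Chow motive of the variety `X` is a direct summand of a finite direct sum of twists
`h(P)(-i)`, `i ≥ 0`, of Chow motives of products `P`, of dimension at most `d`, of curves in the
class `𝒦` and of varieties `S` with `Q n S q` for some `n` and `q`: the diagonal of `X` is a linear
combination of compositions `b ∘ a` of correspondences `a` from `X` to `P` and `b` from `P` to `X` of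
degrees `-i` and `i`. -/
def IsDominated (𝒦 : 𝒱.Obj → Prop) (Q : ℕ → ∀ S : 𝒱.Obj, C.A (S.prod S) → Prop) (d : ℕ∞)
    (X : 𝒱.Obj) : Prop :=
  dg C X ∈ Submodule.span ℚ {c | ∃ (P : 𝒱.Obj) (i : ℕ) (a : C.A (X.prod P)) (b : C.A (P.prod X)),
    IsProduct 𝒦 Q P ∧ (P.dim : ℕ∞) ≤ d ∧ C.Deg (X.dim - i) a ∧ C.Deg (P.dim + i) b ∧
    c = C.comp a b}

/-- The injectivity of the Abel-Jacobi maps in codimension `j` on the parts `(P, p)` of weight
`2 j - 1 = dim P`, for all `j` with `2 ≤ j ≤ d`: a class `z ∈ CH^j(P)` in the kernel of the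
Abel-Jacobi map such that `p_* z = z` is zero. -/
def InjectiveUpTo (𝒦 : 𝒱.Obj → Prop) (Q : ℕ → ∀ S : 𝒱.Obj, C.A (S.prod S) → Prop)
    (N : ∀ X : 𝒱.Obj, ℕ → Submodule ℚ (C.A X)) (d : ℕ∞) : Prop :=
  ∀ j : ℕ, 2 ≤ j → (j : ℕ∞) ≤ d → ∀ (P : 𝒱.Obj) (p : C.A (P.prod P)),
    IsPart 𝒦 Q (2 * j - 1) P p → ∀ z ∈ N P j, C.act p z = z → z = 0

end geometry

end Pool.Agent.N164.BB
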