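import Pool.Agent.N164.BB.Single

/-!
# Bloch-Beilinson filtrations without the Abel-Jacobi condition
-/

set_option autoImplicit false

open CategoryTheory AlgebraicGeometry

universe u v w

namespace Pool.Agent.N164.BB

open Pool.Agent.H914 Pool.Agent.H914.VarClass Pool.Agent.H914.VarClass.Obj Pool.Agent.W492.BB
  Pool.Agent.W550.Corr Pool.Agent.TH133 Pool.Agent.Y148.BB Pool.Agent.X308.S

set_option linter.unusedSectionVars false
set_option linter.unusedVariables false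

variable {k : Type u} [Field k] {𝒱 : VarClass k}

variable {C : TheoryData.{u, v, 0} 𝒱 ℚ} {K : Type w} [Field K]
  {H : WeilTheoryData.{u, v, w} C K} {S S' T X Y Z W P : 𝒱.Obj}
  {𝒦 : 𝒱.Obj → Prop} {Q : ℕ → ∀ S : 𝒱.Obj, C.A (S.prod S) → Prop}

/-- The classical fact on divisors: self-correspondences of degree zero acting as zero on `H^1(X)`
act as zero on the homologically trivial divisors. -/
def PicardFaithful (H : WeilTheoryData.{u, v, w} C K) : Prop :=
  ∀ (X : 𝒱.Obj) (γ : C.A (X.prod X)), C.Deg X.dim γ → Kills H γ 1 →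
    ∀ z : C.A X, C.Deg 1 z → H.cl z = 0 → C.act γ z = 0

/-- The homologically trivial cycles of codimension `j` on the parts of weight `2 j` vanish,
`2 ≤ j ≤ d`. -/
def HomInjectiveUpTo (H : WeilTheoryData.{u, v, w} C K) (𝒦 : 𝒱.Obj → Prop)
    (Q : ℕ → ∀ S : 𝒱.Obj, C.A (S.prod S) → Prop) (d : ℕ∞) : Prop :=
  ∀ j : ℕ, 2 ≤ j → (j : ℕ∞) ≤ d → ∀ (P : 𝒱.Obj) (p : C.A (P.prod P)),
    IsPart 𝒦 Q (2 * j) P p → ∀ z : C.A P, C.Deg j z → H.cl z = 0 → C.act p z = z → z = 0

/-- The Kunneth conjecture for the varieties in the class `S`. -/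
def KunnethOn (H : WeilTheoryData.{u, v, w} C K) (S : 𝒱.Obj → Prop) : Prop :=
  ∀ X, S X → ∀ m : ℕ, ∃ π : C.A (X.prod X), C.Deg X.dim π ∧
    (∀ a : H.A X, H.Deg m a → H.act (H.cl π) a = a) ∧ ∀ l : ℤ, l ≠ m → Kills H π l

/-- Properties 1 - 5 of a Bloch-Beilinson filtration for the varieties in the class `S`. -/
structure IsBBFiltration (H : WeilTheoryData.{u, v, w} C K) (S : 𝒱.Obj → Prop)
    (F : ∀ X : 𝒱.Obj, ℕ → ℕ → Submodule ℚ (C.A X)) : Prop where
  anti : ∀ X, S X → ∀ (i n : ℕ) (z : C.A X), z ∈ F X i (n + 1) → z ∈ F X i n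
  zero : ∀ X, S X → ∀ (i : ℕ) (z : C.A X), z ∈ F X i 0 ↔ C.Deg i z
  one : ∀ X, S X → ∀ (i : ℕ) (z : C.A X), z ∈ F X i 1 ↔ C.Deg i z ∧ H.cl z = 0
  top : ∀ X, S X → ∀ (i : ℕ) (z : C.A X), z ∈ F X i (i + 1) → z = 0
  mul : ∀ X, S X → ∀ (i j m n : ℕ) (x y : C.A X), x ∈ F X i m → y ∈ F X j n →
    C.mul x y ∈ F X (i + j) (m + n)
  pull : ∀ X Y, S X → S Y → ∀ (f : X ⟶ Y) (i n : ℕ) (y : C.A Y), y ∈ F Y i n →
    C.up f y ∈ F X i n
  push : ∀ X Y, S X → S Y → ∀ (f : X ⟶ Y) (i j n : ℕ) (x : C.A X), i + Y.dim = j + X.dim →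
    x ∈ F X i n → C.down f x ∈ F Y j n
  motivic : KunnethOn H S → ∀ X, S X → ∀ (i n : ℕ) (Γ : C.A (X.prod X)), C.Deg X.dim Γ →
    Kills H Γ (2 * i - n) → ∀ z : C.A X, z ∈ F X i n → C.act Γ z ∈ F X i (n + 1)

variable [hC : IsChowProj C] [hH : IsWeilProj H] {d : ℕ∞}

include hC hH

/-- One curve suffices. -/
theorem homInjective_of_single (h𝒦 : ∀ T, 𝒦 T → T.dim = 1) (hD : IsDirected C 𝒦)
    (h : ∀ T, 𝒦 T → HomInjectiveUpTo H (fun S => S = T) Q d) : HomInjectiveUpTo H 𝒦 Q d := by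
  intro j hj hjd P p hP z hz hcl hpz
  obtain ⟨T₀, hT₀, h₀⟩ := exists_single H h𝒦 hD hP
  have hdom : Dominates C T₀ T₀ := ⟨𝟙 T₀, 1, one_ne_zero, by
    change C.push (𝟙 T₀) 1 = _
    rw [C.push_id, one_smul]⟩
  obtain ⟨P', p', hP', hcov⟩ := h₀ T₀ hT₀ hdom
  refine hcov.zero hpz fun f hf => ?_
  refine h T₀ hT₀ j hj hjd P' p' hP' _ (C.pull_mem f hz) ?_ hf
  rw [H.cl_pull, hcl, map_zero]

/-- The step from the homologically trivial cycles on the parts of weight `2 j` to the parts of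
larger weight. -/
theorem V1At_of_V2At (hA : IsAdmissible H 𝒦 Q) {j : ℕ} (hj0 : 0 < j)
    (hV1 : ∀ i : ℤ, i < j → V1At 𝒦 Q i) (hV2 : V2At H 𝒦 Q j) : V1At 𝒦 Q j := by
  intro n
  induction n using Nat.strong_induction_on with
  | _ n ihn =>
  intro P p hP hn z hz hpz
  have hmid := hP.middle hA
  have hcl := hmid.cl_zero (j := j) (by omega) hz hpz
  cases hP with
  | factor _ _ _ hr =>
    cases hr with
    | curve _ o hT ho hd => omega
    | variety _ _ _ h =>
      obtain ⟨hpen, hn2⟩ := pencil_of hA h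
      refine zero_of_pencil_alone hA hmid hpen hz hpz (by omega) (by omega) ?_ hV1
      intro Y i r hr y hy hry hyz
      by_cases hn' : ((n - 1 : ℕ) : ℤ) = 2 * j
      · refine hV2 (n - 1) Y r (.factor _ Y r hr) hn' y hy ?_ hry
        rw [hyz, H.cl_pull, hcl, map_zero]
      · exact ihn (n - 1) (by omega) Y r (.factor _ Y r hr) (by omega) y hy hry
  | prod n' m P' T p' r hp hr =>
    have hmid' := hp.middle hA
    have hpos := hp.pos hA
    cases hr with
    | curve _ o hT ho hd =>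
      have hT1 := hA.curve T hT
      refine zero_of_curve hA.fibre hmid' hT1 hT ho hd hz hpz ?_ ?_
      · intro t ht htc y hy hpy hyt
        by_cases hn' : (n' : ℤ) = 2 * j
        · refine hV2 n' P' p' hp hn' y hy ?_ hpy
          rw [hyt, cl_act H, cl_act H, htc, TheoryData.act_map_zero, TheoryData.act_map_zero]
        · exact ihn n' (by omega) P' p' hp (by omega) y hy hpy
      · intro x hx hpx
        exact hV1 _ (by omega) n' P' p' hp (by omega) x hx hpx
    | variety _ _ _ h =>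
      obtain ⟨hpen, hn2⟩ := pencil_of hA h
      refine zero_of_pencil hA hp ((IsFactor.variety _ _ _ h).middle hA) hpen hz hpz
        (by omega) (by omega) ?_ hV1
      intro Y i r hr y hy hpy hyz
      by_cases hn' : ((n' + (m - 1) : ℕ) : ℤ) = 2 * j
      · refine hV2 (n' + (m - 1)) _ _ (.prod n' (m - 1) P' Y p' r hp hr) hn' y hy ?_ hpy
        rw [hyz, H.cl_pull, hcl, map_zero]
      · exact ihn (n' + (m - 1)) (by omega) _ _ (.prod n' (m - 1) P' Y p' r hp hr)
          (by omega) y hy hpy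

/-- The vanishing theorem. -/
theorem vanish_hom (hA : IsAdmissible H 𝒦 Q) (hPic : PicardFaithful H)
    (hinj : HomInjectiveUpTo H 𝒦 Q d) :
    ∀ j : ℕ, (j : ℕ∞) ≤ d → V2At H 𝒦 Q j ∧ V1At 𝒦 Q j := by
  intro j
  induction j using Nat.strong_induction_on with
  | _ j ih =>
  intro hjd
  have hV1 : ∀ i : ℤ, i < j → V1At 𝒦 Q i := by
    intro i hi
    rcases lt_or_ge i 0 with h | h
    · exact V1At_neg h
    · obtain ⟨i, rfl⟩ := Int.eq_ofNat_of_zero_le h
      have hij : i < j := by exact_mod_cast hi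
      exact (ih i hij (le_trans (by exact_mod_cast hij.le) hjd)).2
  rcases Nat.eq_zero_or_pos j with hj0 | hj0
  · subst hj0
    refine ⟨fun n P p hP hn z hz hcl hpz => ?_, fun n P p hP hn z hz hpz => ?_⟩
    · have := hP.pos hA
      omega
    · have hcl := (hP.middle hA).cl_zero (j := (0 : ℕ)) (by omega) hz hpz
      exact gr_zero_eq (H := H) (by exact_mod_cast hz) hcl
  have hV2 : V2At H 𝒦 Q j := by
    intro n P p hP hn z hz hcl hpz
    have hmid := hP.middle hA
    obtain rfl : n = 2 * j := by omega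
    rcases Nat.lt_or_ge 1 j with h | h
    · exact hinj j h hjd P p hP z hz hcl hpz
    · obtain rfl : j = 1 := by omega
      rw [← hpz]
      refine hPic P p ?_ (hmid.kills 1 (by norm_num)) z (by exact_mod_cast hz) hcl
      have := hmid.deg
      rw [hmid.dim]
      exact this
  exact ⟨hV2, V1At_of_V2At hA hj0 hV1 hV2⟩

omit hC hH in
lemma le_of_bound {n j : ℕ} {e m : ℕ∞} (hm : m ≤ 2 * e + 1 + 1) (hn : (n : ℕ∞) ≤ m)
    (h : 2 * j < n) : (j : ℕ∞) ≤ e := by
  induction e using ENat.recTopCoe with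
  | top => exact le_top
  | coe e =>
    have h1 : (n : ℕ∞) ≤ ((2 * e + 1 + 1 : ℕ) : ℕ∞) := hn.trans (by exact_mod_cast hm)
    have h2 : n ≤ 2 * e + 1 + 1 := by exact_mod_cast h1
    have h3 : j ≤ e := by omega
    exact_mod_cast h3

theorem V1_of_hom (hA : IsAdmissible H 𝒦 Q) (hPic : PicardFaithful H) {e m : ℕ∞}
    (hinj : HomInjectiveUpTo H 𝒦 Q e) (hm : m ≤ 2 * e + 1 + 1) : V1 𝒦 Q m := by
  intro n P p hP hn j hj z hz hpz
  rcases lt_or_ge j 0 with h | h
  · exact zero_of_neg hz h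
  · obtain ⟨j, rfl⟩ := Int.eq_ofNat_of_zero_le h
    exact (vanish_hom hA hPic hinj j (le_of_bound hm hn (by omega))).2 n P p hP hj z hz hpz

theorem vanishing_hom (hA : IsAdmissible H 𝒦 Q) (hPic : PicardFaithful H)
    (hinj : HomInjectiveUpTo H 𝒦 Q d) : Vanishing H 𝒦 Q (fun _ _ => ⊥) d where
  middle n P p hP := hP.middle hA
  v1 := V1_of_hom hA hPic hinj (by
    rw [← two_mul]
    exact le_trans le_self_add le_self_add)
  v2 n P p hP hn j hj z hz hcl hpz := by
    rcases lt_or_ge j 0 with h | h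
    · exact zero_of_neg hz h
    · obtain ⟨j, rfl⟩ := Int.eq_ofNat_of_zero_le h
      exact (vanish_hom hA hPic hinj j (le_of_two_mul hn (by omega))).1 n P p hP hj z hz hcl hpz
  v3 n P p hP hn j hj z hz hpz := (Submodule.mem_bot _).1 hz

/-- **Multiplicativity.** -/
lemma IsPure.mul (hV : Vanishing H 𝒦 Q (fun _ _ => ⊥) d) (hV1 : V1 𝒦 Q (d + d + d))
    {π : ℕ → C.A (X.prod X)} (h : IsPure H 𝒦 Q d π) {i j m n : ℕ} {x y : C.A X}
    (hx : x ∈ ckFil C π i m) (hy : y ∈ ckFil C π j n) : x * y ∈ ckFil C π (i + j) (m + n) := by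
  rw [h.ck.mem_ckFil] at hx hy ⊢
  refine ⟨by have := C.mul_mem hx.1 hy.1; push_cast; exact this, fun v hv => ?_⟩
  conv_lhs => rw [sum_act h.ck x, sum_act h.ck y]
  rw [Finset.sum_mul_sum, act_map_sum]
  apply Finset.sum_eq_zero
  intro w _
  rw [act_map_sum]
  apply Finset.sum_eq_zero
  intro w' _
  by_cases hw : 2 * i + 1 - m ≤ w
  · rw [hx.2 w hw, zero_mul, TheoryData.act_map_zero]
  by_cases hw' : 2 * j + 1 - n ≤ w'
  · rw [hy.2 w' hw', mul_zero, TheoryData.act_map_zero]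
  have e1 : C.act (π w) x * C.act (π w') y =
      C.act (C.cograph (Obj.lift (𝟙 X) (𝟙 X))) (C.act (tens C (π w) (π w')) (C.ext x y)) := by
    rw [act_tens_ext C _ _ (fun f c => ch_comm C _ _) x y, C.act_cograph, TheoryData.ext, map_mul,
      ← C.pull_comp, ← C.pull_comp, lift_fst, lift_snd, C.pull_id, C.pull_id]
  rw [e1, ← C.act_comp, ← C.act_comp, ← comp_assoc]
  have h1 := wt_tens hV.middle (h.wt w) (h.wt w')
  have h2 : C.cograph (Obj.lift (𝟙 X) (𝟙 X)) ∈
      C.gr ((X.prod X).prod X) (((X.prod X).dim : ℤ) + 0) := by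
    rw [add_zero]
    exact cograph_mem _
  rw [wt_raise hV.middle hV1 (w' := (v : ℤ)) (by omega) h2 h1 (h.wt v), TheoryData.act_zero]

/-- **Existence of the filtration.** -/
theorem isBBFiltration_of_hom (hA : IsAdmissible H 𝒦 Q) (hPic : PicardFaithful H) {e : ℕ∞}
    (hinj : HomInjectiveUpTo H 𝒦 Q e) (hd : d ≤ e) (h3 : d + d + d ≤ 2 * e + 1 + 1) :
    IsBBFiltration H (IsDominated 𝒦 Q d) (pureFil H 𝒦 Q d) := by
  have hinj' : HomInjectiveUpTo H 𝒦 Q d := fun j h1 h2 => hinj j h1 (h2.trans hd)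
  have hV := vanishing_hom hA hPic hinj'
  have hV1 := V1_of_hom hA hPic hinj h3
  have key : ∀ X, IsDominated 𝒦 Q d X → ∃ π : ℕ → C.A (X.prod X), IsPure H 𝒦 Q d π ∧
      ∀ i n, pureFil H 𝒦 Q d X i n = ckFil C π i n := fun X hX =>
    pureFil_eq (exists_pure hV.middle hV.v1 hV.v2 (diag_dominated hA hX))
  refine ⟨?_, ?_, ?_, ?_, ?_, ?_, ?_, ?_⟩
  · intro X hX j ν x hx
    obtain ⟨π, h, e⟩ := key X hX
    rw [e] at hx ⊢
    exact h.anti (Nat.le_succ ν) hx
  · intro X hX j x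
    obtain ⟨π, h, e⟩ := key X hX
    rw [e]
    exact h.mem_zero hV j x
  · intro X hX j x
    obtain ⟨π, h, e⟩ := key X hX
    rw [e]
    exact h.mem_one hV j x
  · intro X hX j x hx
    obtain ⟨π, h, e⟩ := key X hX
    rw [e, h.top hV j] at hx
    exact (Submodule.mem_bot _).1 hx
  · intro X hX i j m n x y hx hy
    obtain ⟨π, h, e⟩ := key X hX
    rw [e] at hx hy ⊢
    exact h.mul hV hV1 hx hy
  · intro X Y hX hY f i n y hy
    obtain ⟨π, h, e⟩ := key X hX
    obtain ⟨ρ, h', e'⟩ := key Y hY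
    rw [e'] at hy
    rw [e]
    have h1 : C.cograph f ∈ C.gr (Y.prod X) ((Y.dim : ℤ) + i - i) := by
      rw [add_sub_cancel_right]
      exact cograph_mem f
    have h2 := h'.stable hV h h1 hy
    rwa [C.act_cograph] at h2
  · intro X Y hX hY f i j n x hij hx
    obtain ⟨π, h, e⟩ := key X hX
    obtain ⟨ρ, h', e'⟩ := key Y hY
    rw [e] at hx
    rw [e']
    have h1 : C.graph f ∈ C.gr (X.prod Y) ((X.dim : ℤ) + j - i) := by
      rw [show (X.dim : ℤ) + j - i = Y.dim by omega]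
      exact graph_mem f
    have h2 := h.stable hV h' h1 hx
    rwa [C.act_graph] at h2
  · intro _ X hX i n Γ hΓ hk x hx
    obtain ⟨π, h, e⟩ := key X hX
    rw [e] at hx ⊢
    refine h.shift hV h ?_ hk hx
    rwa [add_sub_cancel_right]

/-- The Kunneth conjecture holds for the dominated varieties. -/
theorem kunnethOn_dominated (hA : IsAdmissible H 𝒦 Q) :
    KunnethOn H (IsDominated 𝒦 Q d) := by
  intro X hX m
  obtain ⟨f, hf, hfs⟩ := (Submodule.mem_iSup_iff_exists_finsupp _ _).1 (diag_dominated hA hX)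
  have hmid : ∀ n P p, IsPart 𝒦 Q n P p → IsMiddle H n p := fun n P p hP => hP.middle hA
  refine ⟨f m, wt_mem hmid (hf m), fun a ha => ?_, fun l hl a ha => wt_actH hmid (hf m) ha hl⟩
  have h1 : a = H.act (H.cl (dg C X)) a := by
    rw [cl_dg, act_dg]
  have h2 : H.act (H.cl (f.sum fun _ b => b)) a = H.act (H.cl (f m)) a := by
    rw [Finsupp.sum, map_sum, act_sum]
    by_cases hm : (m : ℤ) ∈ f.support
    · rw [Finset.sum_eq_single_of_mem (m : ℤ) hm]
      intro l _ hl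
      exact wt_actH hmid (hf l) ha hl.symm
    · rw [Finset.sum_eq_zero]
      · rw [Finsupp.notMem_support_iff.1 hm, map_zero, TheoryData.act_zero]
      · intro l hl
        exact wt_actH hmid (hf l) ha (fun h => hm (h ▸ hl))
  rw [← h2, hfs, ← h1]

/-- **The vanishing is necessary.** -/
theorem homInjective_of_isBBFiltration (hA : IsAdmissible H 𝒦 Q) {e : ℕ∞} (he : 2 * d ≤ e)
    {F : ∀ X : 𝒱.Obj, ℕ → ℕ → Submodule ℚ (C.A X)}
    (hF : IsBBFiltration H (IsDominated 𝒦 Q e) F) : HomInjectiveUpTo H 𝒦 Q d := by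
  intro j hj hjd P p hP z hz hcl hpz
  have hm := hP.middle hA
  have hdim : (P.dim : ℕ∞) ≤ e := by
    rw [hm.dim]
    push_cast
    exact (mul_le_mul_right hjd 2).trans he
  have hX := isDominated_self hP.isProduct hdim
  have hpm : C.Deg P.dim p := by
    have := hm.deg
    rw [hm.dim]
    exact this
  have key : ∀ ν : ℕ, z ∈ F P j (ν + 1) := by
    intro ν
    induction ν with
    | zero => exact (hF.one P hX j z).2 ⟨hz, hcl⟩
    | succ ν ih =>
      have h1 := hF.motivic (kunnethOn_dominated hA) P hX j (ν + 1) p hpm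
        (hm.kills _ (by push_cast; omega)) z ih
      rwa [hpz] at h1
  exact hF.top P hX j z (key j)

end Pool.Agent.N164.BB
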