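import Pool.Agent.N164.BB.Vanish

/-!
# The correspondences of a given weight which factor through primitive parts
-/

set_option autoImplicit false

open CategoryTheory AlgebraicGeometry

universe u v w

namespace Pool.Agent.N164.BB

open Pool.Agent.H914 Pool.Agent.H914.VarClass Pool.Agent.H914.VarClass.Obj Pool.Agent.W492.BB
  Pool.Agent.W550.Corr Pool.Agent.TH133 Pool.Agent.Y148.BB Pool.Agent.X308.S

set_option linter.unusedSectionVars false
set_option linter.unusedVariables false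

variable {k : Type u} [Field k] {𝒱 : VarClass k}

/-- Bilinear maps and spans. -/
lemma bilin_span {R A B D : Type*} [Field R] [AddCommGroup A] [Module R A] [AddCommGroup B]
    [Module R B] [AddCommGroup D] [Module R D] (f : A →ₗ[R] B →ₗ[R] D) {s : Set A} {t : Set B}
    {S : Submodule R D} (h : ∀ a ∈ s, ∀ b ∈ t, f a b ∈ S) {x : A} {y : B}
    (hx : x ∈ Submodule.span R s) (hy : y ∈ Submodule.span R t) : f x y ∈ S := by
  have h1 : Submodule.map₂ f (Submodule.span R s) (Submodule.span R t) ≤ S := by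
    rw [Submodule.map₂_span_span, Submodule.span_le]
    rintro _ ⟨a, ha, b, hb, rfl⟩
    exact h a ha b hb
  exact h1 (Submodule.apply_mem_map₂ f hx hy)

variable {C : TheoryData.{u, v, 0} 𝒱 ℚ} {K : Type w} [Field K]
  {H : WeilTheoryData.{u, v, w} C K} {S S' T X Y Z W P : 𝒱.Obj}
  {𝒦 : 𝒱.Obj → Prop} {Q : ℕ → ∀ S : 𝒱.Obj, C.A (S.prod S) → Prop}
  {N : ∀ X : 𝒱.Obj, ℕ → Submodule ℚ (C.A X)}

/-- The self-correspondences `b ∘ p ∘ a` of `X` through the part `(P, p)` of weight `n`, twisted `i`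
times. If `E` holds, only effective twists are allowed. -/
def partGen (𝒦 : 𝒱.Obj → Prop) (Q : ℕ → ∀ S : 𝒱.Obj, C.A (S.prod S) → Prop) (E : Prop) (m : ℕ∞)
    (X : 𝒱.Obj) (w : ℤ) : Set (C.A (X.prod X)) :=
  {z | ∃ (n : ℕ) (P : 𝒱.Obj) (p : C.A (P.prod P)) (i : ℤ) (a : C.A (X.prod P))
    (b : C.A (P.prod X)), IsPart 𝒦 Q n P p ∧ (n : ℕ∞) ≤ m ∧ (E → 0 ≤ i) ∧ (n : ℤ) + 2 * i = w ∧
    a ∈ C.gr _ (X.dim - i) ∧ b ∈ C.gr _ (n + i) ∧ z = C.comp a (C.comp p b)}

/-- The self-correspondences `a × b` of `X` which factor through the `i`-th power of the Lefschetz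
motive. -/
def unitGen (C : TheoryData.{u, v, 0} 𝒱 ℚ) (E : Prop) (X : 𝒱.Obj) (w : ℤ) :
    Set (C.A (X.prod X)) :=
  {z | ∃ (i : ℤ) (a b : C.A X), (E → 0 ≤ i) ∧ 2 * i = w ∧ a ∈ C.gr _ (X.dim - i) ∧ b ∈ C.gr _ i ∧
    z = C.ext a b}

/-- The self-correspondences of weight `w`. -/
noncomputable def wt (𝒦 : 𝒱.Obj → Prop) (Q : ℕ → ∀ S : 𝒱.Obj, C.A (S.prod S) → Prop) (E : Prop)
    (m : ℕ∞) (X : 𝒱.Obj) (w : ℤ) : Submodule ℚ (C.A (X.prod X)) :=
  Submodule.span ℚ (partGen 𝒦 Q E m X w ∪ unitGen C E X w)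

/-- Vanishing of the cycles of codimension `j` on the parts of weight `n ≤ m`, `n > 2 j`. -/
def V1 (𝒦 : 𝒱.Obj → Prop) (Q : ℕ → ∀ S : 𝒱.Obj, C.A (S.prod S) → Prop) (m : ℕ∞) : Prop :=
  ∀ (n : ℕ) (P : 𝒱.Obj) (p : C.A (P.prod P)), IsPart 𝒦 Q n P p → (n : ℕ∞) ≤ m →
    ∀ j : ℤ, 2 * j < n → ∀ z ∈ C.gr P j, C.act p z = z → z = 0

/-- Vanishing of the homologically trivial cycles of codimension `j` on the parts of weight
`n ≤ m`, `n = 2 j`. -/
def V2 (H : WeilTheoryData.{u, v, w} C K) (𝒦 : 𝒱.Obj → Prop)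
    (Q : ℕ → ∀ S : 𝒱.Obj, C.A (S.prod S) → Prop) (m : ℕ∞) : Prop :=
  ∀ (n : ℕ) (P : 𝒱.Obj) (p : C.A (P.prod P)), IsPart 𝒦 Q n P p → (n : ℕ∞) ≤ m →
    ∀ j : ℤ, (n : ℤ) = 2 * j → ∀ z ∈ C.gr P j, H.cl z = 0 → C.act p z = z → z = 0

/-- Injectivity of the Abel-Jacobi map on the parts of odd weight `n = 2 j - 1 ≤ m`. -/
def V3 (𝒦 : 𝒱.Obj → Prop) (Q : ℕ → ∀ S : 𝒱.Obj, C.A (S.prod S) → Prop)
    (N : ∀ X : 𝒱.Obj, ℕ → Submodule ℚ (C.A X)) (m : ℕ∞) : Prop :=
  ∀ (n : ℕ) (P : 𝒱.Obj) (p : C.A (P.prod P)), IsPart 𝒦 Q n P p → (n : ℕ∞) ≤ m →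
    ∀ j : ℕ, (n : ℤ) = 2 * j - 1 → ∀ z ∈ N P j, C.act p z = z → z = 0

section order

variable {E : Prop} {m m' : ℕ∞} {w w' l s : ℤ}

lemma wt_mono (h : m ≤ m') : wt 𝒦 Q E m X w ≤ wt 𝒦 Q False m' X w := by
  apply Submodule.span_mono
  apply Set.union_subset_union
  · rintro _ ⟨n, P, p, i, a, b, hP, hn, hi, hw, ha, hb, rfl⟩
    exact ⟨n, P, p, i, a, b, hP, hn.trans h, fun h => h.elim, hw, ha, hb, rfl⟩
  · rintro _ ⟨i, a, b, hi, hw, ha, hb, rfl⟩
    exact ⟨i, a, b, fun h => h.elim, hw, ha, hb, rfl⟩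

lemma wt_mono' (h : m ≤ m') : wt 𝒦 Q E m X w ≤ wt 𝒦 Q E m' X w := by
  apply Submodule.span_mono
  apply Set.union_subset_union
  · rintro _ ⟨n, P, p, i, a, b, hP, hn, hi, hw, ha, hb, rfl⟩
    exact ⟨n, P, p, i, a, b, hP, hn.trans h, hi, hw, ha, hb, rfl⟩
  · exact le_rfl

end order

section chow

variable [hC : IsChowProj C] {E E' : Prop} {m m' : ℕ∞} {w w' l s : ℤ}

include hC

omit hC in
lemma wt_part {n : ℕ} {p : C.A (P.prod P)} {i : ℤ} {a : C.A (X.prod P)}
    {b : C.A (P.prod X)} (hP : IsPart 𝒦 Q n P p) (hn : (n : ℕ∞) ≤ m) (hi : E → 0 ≤ i)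
    (hw : (n : ℤ) + 2 * i = w) (ha : a ∈ C.gr (X.prod P) (X.dim - i))
    (hb : b ∈ C.gr (P.prod X) (n + i)) : C.comp a (C.comp p b) ∈ wt 𝒦 Q E m X w :=
  Submodule.subset_span (Or.inl ⟨n, P, p, i, a, b, hP, hn, hi, hw, ha, hb, rfl⟩)

omit hC in
lemma wt_unit {i : ℤ} {a b : C.A X} (hi : E → 0 ≤ i) (hw : 2 * i = w)
    (ha : a ∈ C.gr X (X.dim - i)) (hb : b ∈ C.gr X i) : C.ext a b ∈ wt 𝒦 Q E m X w :=
  Submodule.subset_span (Or.inr ⟨i, a, b, hi, hw, ha, hb, rfl⟩)

/-- Correspondences between varieties respect the weights. -/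
lemma wt_conj' {x : C.A (Y.prod Y)} (hx : x ∈ wt 𝒦 Q E m Y w) {l : ℤ} (hl : E → 0 ≤ l)
    {f : C.A (X.prod Y)} (hf : f ∈ C.gr (X.prod Y) (X.dim - l)) {g : C.A (Y.prod X)}
    (hg : g ∈ C.gr (Y.prod X) (Y.dim + l)) :
    C.comp f (C.comp x g) ∈ wt 𝒦 Q E m X (w + 2 * l) := by
  have h1 : wt 𝒦 Q E m Y w ≤ (wt 𝒦 Q E m X (w + 2 * l)).comap
      (compL C f ∘ₗ LinearMap.flip (compL C) g) := by
    conv_lhs => unfold wt
    rw [Submodule.span_le, Set.union_subset_iff]
    constructor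
    · rintro _ ⟨n, P, p, i, a, b, hP, hn, hi, hw, ha, hb, rfl⟩
      change C.comp f (C.comp (C.comp a (C.comp p b)) g) ∈ wt 𝒦 Q E m X (w + 2 * l)
      have e1 : C.comp f (C.comp (C.comp a (C.comp p b)) g) =
          C.comp (C.comp f a) (C.comp p (C.comp b g)) := by simp only [comp_assoc]
      rw [e1]
      exact wt_part (i := i + l) hP hn (fun h => add_nonneg (hi h) (hl h)) (by omega)
        (comp_deg hf ha (by ring)) (comp_deg hb hg (by ring))
    · rintro _ ⟨i, a, b, hi, hw, ha, hb, rfl⟩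
      change C.comp f (C.comp (C.ext a b) g) ∈ wt 𝒦 Q E m X (w + 2 * l)
      rw [ext_comp, comp_ext]
      exact wt_unit (i := i + l) (fun h => add_nonneg (hi h) (hl h)) (by omega)
        (act_deg (tp_mem C hf) ha (by ring)) (act_deg hg hb (by ring))
  exact h1 hx

/-- Correspondences of degree zero between varieties respect the weights. -/
lemma wt_conj {x : C.A (Y.prod Y)} (hx : x ∈ wt 𝒦 Q E m Y w) {f : C.A (X.prod Y)}
    (hf : f ∈ C.gr (X.prod Y) X.dim) {g : C.A (Y.prod X)} (hg : g ∈ C.gr (Y.prod X) Y.dim) :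
    C.comp f (C.comp x g) ∈ wt 𝒦 Q E m X w := by
  have h1 := wt_conj' hx (l := 0) (fun _ => le_rfl) (by rwa [sub_zero]) (by rwa [add_zero])
    (f := f) (g := g)
  rwa [mul_zero, add_zero] at h1

lemma wt_comp {x : C.A (X.prod X)} (hx : x ∈ wt 𝒦 Q E m X w) {c : C.A (X.prod X)}
    (hc : c ∈ C.gr (X.prod X) X.dim) : C.comp x c ∈ wt 𝒦 Q E m X w := by
  have h1 := wt_conj hx (dg_mem C X) hc
  rwa [dg_comp] at h1

lemma comp_wt {x : C.A (X.prod X)} (hx : x ∈ wt 𝒦 Q E m X w) {c : C.A (X.prod X)}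
    (hc : c ∈ C.gr (X.prod X) X.dim) : C.comp c x ∈ wt 𝒦 Q E m X w := by
  have h1 := wt_conj hx hc (dg_mem C X)
  rwa [comp_dg] at h1

/-- The criterion for an element of weight `w` to act as zero on a cycle class. -/
lemma wt_act {x : C.A (X.prod X)} (hx : x ∈ wt 𝒦 Q E m X w) {z : C.A X}
    (h1 : ∀ (n : ℕ) (P : 𝒱.Obj) (p : C.A (P.prod P)) (i : ℤ) (a : C.A (X.prod P)),
      IsPart 𝒦 Q n P p → (n : ℕ∞) ≤ m → (E → 0 ≤ i) → (n : ℤ) + 2 * i = w →
      a ∈ C.gr (X.prod P) (X.dim - i) → C.act p (C.act a z) = 0)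
    (h2 : ∀ (i : ℤ) (a b : C.A X), (E → 0 ≤ i) → 2 * i = w → a ∈ C.gr X (X.dim - i) →
      C.act (C.ext a b) z = 0) : C.act x z = 0 := by
  have h3 : wt 𝒦 Q E m X w ≤ LinearMap.ker (LinearMap.flip (actB C) z) := by
    unfold wt
    rw [Submodule.span_le, Set.union_subset_iff]
    constructor
    · rintro _ ⟨n, P, p, i, a, b, hP, hn, hi, hw, ha, hb, rfl⟩
      rw [SetLike.mem_coe, LinearMap.mem_ker, LinearMap.flip_apply, actB_apply, C.act_comp,
        C.act_comp, h1 n P p i a hP hn hi hw ha, TheoryData.act_map_zero]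
    · rintro _ ⟨i, a, b, hi, hw, ha, hb, rfl⟩
      rw [SetLike.mem_coe, LinearMap.mem_ker, LinearMap.flip_apply, actB_apply]
      exact h2 i a b hi hw ha
  have h4 := h3 hx
  rw [LinearMap.mem_ker, LinearMap.flip_apply, actB_apply] at h4
  exact h4

end chow

section weil

variable [hC : IsChowProj C] [hH : IsWeilProj H] {E E' : Prop} {m m' : ℕ∞} {w w' l s : ℤ}

include hC hH

lemma wt_mem (hP : ∀ n P p, IsPart 𝒦 Q n P p → IsMiddle H n p) {x : C.A (X.prod X)}
    (hx : x ∈ wt 𝒦 Q E m X w) : x ∈ C.gr (X.prod X) X.dim := by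
  have h1 : wt 𝒦 Q E m X w ≤ C.gr (X.prod X) X.dim := by
    unfold wt
    rw [Submodule.span_le, Set.union_subset_iff]
    constructor
    · rintro _ ⟨n, P, p, i, a, b, hp, hn, hi, hw, ha, hb, rfl⟩
      have hm := hP n P p hp
      exact comp_deg ha (comp_deg hm.deg hb rfl) (by rw [hm.dim]; ring)
    · rintro _ ⟨i, a, b, hi, hw, ha, hb, rfl⟩
      have h2 := ext_mem' (C := C) ha hb
      rwa [sub_add_cancel] at h2
  exact h1 hx

lemma wt_tp (hP : ∀ n P p, IsPart 𝒦 Q n P p → IsMiddle H n p) {x : C.A (X.prod X)}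
    (hx : x ∈ wt 𝒦 Q E m X w) : tp C x ∈ wt 𝒦 Q False m X (2 * X.dim - w) := by
  have h1 : wt 𝒦 Q E m X w ≤ (wt 𝒦 Q False m X (2 * X.dim - w)).comap
      (C.pull (sw X X)).toLinearMap := by
    conv_lhs => unfold wt
    rw [Submodule.span_le, Set.union_subset_iff]
    constructor
    · rintro _ ⟨n, P, p, i, a, b, hp, hn, hi, hw, ha, hb, rfl⟩
      have hm := hP n P p hp
      change tp C (C.comp a (C.comp p b)) ∈ wt 𝒦 Q False m X (2 * X.dim - w)
      rw [tp_comp', tp_comp', hm.tp, comp_assoc]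
      refine wt_part (i := X.dim - n - i) hp hn (fun h => h.elim) (by omega) ?_ ?_
      · have := tp_mem C hb
        rwa [show (n : ℤ) + i = X.dim - (X.dim - n - i) by ring] at this
      · have := tp_mem C ha
        rwa [show (X.dim : ℤ) - i = n + (X.dim - n - i) by ring] at this
    · rintro _ ⟨i, a, b, hi, hw, ha, hb, rfl⟩
      change tp C (C.ext a b) ∈ wt 𝒦 Q False m X (2 * X.dim - w)
      rw [tp_ext]
      refine wt_unit (i := X.dim - i) (fun h => h.elim) (by omega) ?_ ha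
      rwa [sub_sub_cancel]
  exact h1 hx

lemma wt_tens (hP : ∀ n P p, IsPart 𝒦 Q n P p → IsMiddle H n p) {x : C.A (X.prod X)}
    {y : C.A (Y.prod Y)} (hx : x ∈ wt 𝒦 Q E m X w) (hy : y ∈ wt 𝒦 Q E m' Y w') :
    tens C x y ∈ wt 𝒦 Q E (m + m') (X.prod Y) (w + w') := by
  rw [← tensL_apply]
  refine bilin_span tensL (s := partGen 𝒦 Q E m X w ∪ unitGen C E X w)
    (t := partGen 𝒦 Q E m' Y w' ∪ unitGen C E Y w') ?_ hx hy
  rintro x (⟨n, P, p, i, a, b, hp, hn, hi, hw, ha, hb, rfl⟩ | ⟨i, a, b, hi, hw, ha, hb, rfl⟩) y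
    (⟨n', P', p', i', a', b', hp', hn', hi', hw', ha', hb', rfl⟩ |
      ⟨i', a', b', hi', hw', ha', hb', rfl⟩)
  · obtain ⟨P'', p'', u, v, hp'', hiso⟩ := exists_part_prod hp hp'
    have hm := hP n P p hp
    have hm' := hP n' P' p' hp'
    have hm'' := hP _ P'' p'' hp''
    have e1 : tens C p p' = C.comp (C.comp u p'') v := by
      rw [← hiso.comm, comp_assoc, hiso.uv, comp_dg]
    have e2 : tens C (C.comp a (C.comp p b)) (C.comp a' (C.comp p' b')) =
        C.comp (C.comp (tens C a a') u) (C.comp p'' (C.comp v (tens C b b'))) := by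
      rw [← tens_comp'', ← tens_comp'', e1]
      simp only [comp_assoc]
    rw [tensL_apply, e2]
    refine wt_part hp'' ?_ (fun h => add_nonneg (hi h) (hi' h)) ?_ ?_ ?_
    · push_cast
      exact add_le_add hn hn'
    · push_cast
      omega
    · refine comp_deg (tens_mem C ha ha') hiso.u_mem ?_
      rw [dim_prod, dim_prod]
      push_cast
      ring
    · refine comp_deg hiso.v_mem (tens_mem C hb hb') ?_
      rw [dim_prod, hm''.dim, hm.dim, hm'.dim]
      push_cast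
      ring
  · have hm := hP n P p hp
    have e2 : tens C (C.comp a (C.comp p b)) (C.ext a' b') =
        C.comp (C.comp (wg C (fst X Y) (C.pull (snd X Y) a')) a) (C.comp p
          (C.comp b (tp C (wg C (fst X Y) (C.pull (snd X Y) b'))))) := by
      rw [tens_ext_right]
      simp only [comp_assoc]
    rw [tensL_apply, e2]
    refine wt_part (i := i + i') hp (hn.trans le_self_add) (fun h => add_nonneg (hi h) (hi' h))
      (by omega) ?_ ?_
    · refine comp_deg (wg_mem (fst X Y) (C.pull_mem (snd X Y) ha')) ha ?_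
      rw [dim_prod]
      push_cast
      ring
    · refine comp_deg hb (tp_mem C (wg_mem (fst X Y) (C.pull_mem (snd X Y) hb'))) ?_
      ring
  · have hm := hP n' P' p' hp'
    have e2 : tens C (C.ext a b) (C.comp a' (C.comp p' b')) =
        C.comp (C.comp (wg C (snd X Y) (C.pull (fst X Y) a)) a') (C.comp p'
          (C.comp b' (tp C (wg C (snd X Y) (C.pull (fst X Y) b))))) := by
      rw [tens_ext_left]
      simp only [comp_assoc]
    rw [tensL_apply, e2]
    refine wt_part (i := i + i') hp' (hn'.trans le_add_self) (fun h => add_nonneg (hi h) (hi' h))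
      (by omega) ?_ ?_
    · refine comp_deg (wg_mem (snd X Y) (C.pull_mem (fst X Y) ha)) ha' ?_
      rw [dim_prod]
      push_cast
      ring
    · refine comp_deg hb' (tp_mem C (wg_mem (snd X Y) (C.pull_mem (fst X Y) hb))) ?_
      ring
  · rw [tensL_apply, tens_ext_ext]
    refine wt_unit (i := i + i') (fun h => add_nonneg (hi h) (hi' h)) (by omega) ?_
      (ext_mem' hb hb')
    have h1 := ext_mem' (C := C) ha ha'
    rw [dim_prod]
    push_cast
    rwa [show (X.dim : ℤ) - i + (Y.dim - i') = X.dim + Y.dim - (i + i') by ring] at h1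

/-- Correspondences of weight `w` act as zero on `H^j(X)` for `j ≠ w`. -/
lemma wt_actH (hP : ∀ n P p, IsPart 𝒦 Q n P p → IsMiddle H n p) {x : C.A (X.prod X)}
    (hx : x ∈ wt 𝒦 Q E m X w) {j : ℤ} {a : H.A X} (ha : a ∈ H.gr X j) (hj : j ≠ w) :
    H.act (H.cl x) a = 0 := by
  unfold wt at hx
  induction hx using Submodule.span_induction with
  | mem x hx =>
    rcases hx with ⟨n, P, p, i, a', b, hp, hn, hi, hw, ha', hb, rfl⟩ |
      ⟨i, a', b, hi, hw, ha', hb, rfl⟩
    · have hm := hP n P p hp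
      have h2 := actH_deg (H := H) ha' ha rfl
      rw [actH_comp, actH_comp, hm.kills _ (by omega) _ h2, TheoryData.act_map_zero]
    · rcases lt_or_ge i 0 with h | h
      · rw [zero_of_neg hb h, TheoryData.ext_zero_right, map_zero, TheoryData.act_zero]
      · obtain ⟨r, rfl⟩ := Int.eq_ofNat_of_zero_le h
        exact act_ext_ne (H := H) hb ha' (by omega) ha
  | zero => rw [map_zero, TheoryData.act_zero]
  | add x y _ _ hx hy => rw [map_add, TheoryData.act_add, hx, hy, add_zero]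
  | smul q x _ hx =>
    have h3 : H.cl (q • x) = H.cl (q • (1 : C.A (X.prod X))) * H.cl x := by
      rw [← map_mul, smul_mul_assoc, one_mul]
    obtain ⟨c, hc⟩ : ∃ c : K, H.cl (q • (1 : C.A (X.prod X))) = c • 1 := by
      apply hH.gr_zero
      have := H.cl_mem (Submodule.smul_mem _ q (C.one_mem (X.prod X)))
      simpa using this
    rw [h3, hc, smul_mul_assoc, one_mul, TheoryData.act_apply, smul_mul_assoc, map_smul,
      ← TheoryData.act_apply, hx, smul_zero]

/-- Correspondences of weight `w > 2 l` act as zero on cycles of codimension `l`. -/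
lemma wt_B0 (hP : ∀ n P p, IsPart 𝒦 Q n P p → IsMiddle H n p) (hV : V1 𝒦 Q m) (hwl : 2 * l < w)
    {x : C.A (X.prod X)} (hx : x ∈ wt 𝒦 Q E m X w) {z : C.A X} (hz : z ∈ C.gr X l) :
    C.act x z = 0 := by
  apply wt_act hx
  · intro n P p i a hp hn hi hw ha
    have hm := hP n P p hp
    apply hV n P p hp hn (l - i) (by omega)
    · exact act_deg hm.deg (act_deg (j := l - i) ha hz (by ring)) (by rw [hm.dim]; ring)
    · rw [← C.act_comp, hm.idem]
  · intro i a b hi hw ha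
    exact act_ext_zero_of_lt (i := (X.dim : ℤ) - i + l) (C.mul_mem ha hz) (by omega)

/-- Correspondences of weight `w = 2 l` act as zero on homologically trivial cycles of codimension
`l`. -/
lemma wt_D (hP : ∀ n P p, IsPart 𝒦 Q n P p → IsMiddle H n p) (hV : V2 H 𝒦 Q m) (hwl : w = 2 * l)
    {x : C.A (X.prod X)} (hx : x ∈ wt 𝒦 Q E m X w) {z : C.A X} (hz : z ∈ C.gr X l)
    (hcl : H.cl z = 0) : C.act x z = 0 := by
  apply wt_act hx
  · intro n P p i a hp hn hi hw ha
    have hm := hP n P p hp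
    apply hV n P p hp hn (l - i) (by omega)
    · exact act_deg hm.deg (act_deg (j := l - i) ha hz (by ring)) (by rw [hm.dim]; ring)
    · rw [cl_act H, cl_act H, hcl, TheoryData.act_map_zero, TheoryData.act_map_zero]
    · rw [← C.act_comp, hm.idem]
  · intro i a b hi hw ha
    have h1 : a * z ∈ C.gr X X.dim := by
      have := C.mul_mem ha hz
      rwa [show (X.dim : ℤ) - i + l = X.dim by omega] at this
    rw [act_ext' (hasDegree_zero_of_cl (H := H) h1 (by rw [map_mul, hcl, mul_zero])), zero_smul]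

/-- Correspondences of weight `w = 2 l - 1` act as zero on the cycles of codimension `l` in the
kernel of the Abel-Jacobi map. -/
lemma wt_AJ (hP : ∀ n P p, IsPart 𝒦 Q n P p → IsMiddle H n p) (hN : IsAbelJacobiKernel H N)
    (hV : V3 𝒦 Q N m) {l : ℕ} (hwl : w = 2 * l - 1)
    {x : C.A (X.prod X)} (hx : x ∈ wt 𝒦 Q E m X w) {z : C.A X} (hz : z ∈ N X l) :
    C.act x z = 0 := by
  apply wt_act hx
  · intro n P p i a hp hn hi hw ha
    have hm := hP n P p hp
    obtain ⟨l', hl'⟩ := Int.eq_ofNat_of_zero_le (a := (l : ℤ) - i) (by omega)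
    have h1 : C.act a z ∈ N P l' := by
      refine hN.stable X P l l' a ?_ z hz
      rwa [show (X.dim : ℤ) + l' - l = X.dim - i by omega]
    apply hV n P p hp hn l' (by omega)
    · refine hN.stable P P l' l' p ?_ _ h1
      rw [hm.dim, add_sub_cancel_right]
      exact hm.deg
    · rw [← C.act_comp, hm.idem]
  · intro i a b hi hw ha
    omega

/-- Effective correspondences of weight `w < l` act as zero on the cycles of codimension `l`. -/
lemma wt_B1 (hP : ∀ n P p, IsPart 𝒦 Q n P p → IsMiddle H n p) (hwl : w < l)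
    {x : C.A (X.prod X)} (hx : x ∈ wt 𝒦 Q True m X w) {z : C.A X} (hz : z ∈ C.gr X l) :
    C.act x z = 0 := by
  apply wt_act hx
  · intro n P p i a hp hn hi hw ha
    have hm := hP n P p hp
    have hi' := hi trivial
    have h1 : C.act a z ∈ C.gr P (l - i) := act_deg ha hz (by ring)
    rw [zero_of_top h1 (by rw [hm.dim]; omega), TheoryData.act_map_zero]
  · intro i a b hi hw ha
    have hi' := hi trivial
    exact act_ext_zero_of_lt (i := (X.dim : ℤ) - i + l) (C.mul_mem ha hz) (by omega)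

/-- Correspondences between varieties do not raise the weights. -/
lemma wt_raise (hP : ∀ n P p, IsPart 𝒦 Q n P p → IsMiddle H n p) (hV : V1 𝒦 Q (m + m'))
    (hw : w + 2 * s < w') {D : C.A (X.prod Y)} (hD : D ∈ C.gr (X.prod Y) (X.dim + s))
    {x : C.A (X.prod X)} (hx : x ∈ wt 𝒦 Q E m X w) {y : C.A (Y.prod Y)}
    (hy : y ∈ wt 𝒦 Q E' m' Y w') : C.comp (C.comp x D) y = 0 := by
  have h1 := wt_tens hP (wt_tp hP hx) (wt_mono (le_refl m') hy)
  have h2 := wt_B0 hP hV (by omega) h1 hD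
  rwa [act_tens C (ch_comm C), tp_tp] at h2

/-- Homologically trivial correspondences between parts of the same weight vanish. -/
lemma wt_same (hP : ∀ n P p, IsPart 𝒦 Q n P p → IsMiddle H n p) (hV : V2 H 𝒦 Q (m + m'))
    (hw : w + 2 * s = w') {D : C.A (X.prod Y)} (hD : D ∈ C.gr (X.prod Y) (X.dim + s))
    (hcl : H.cl D = 0) {x : C.A (X.prod X)} (hx : x ∈ wt 𝒦 Q E m X w) {y : C.A (Y.prod Y)}
    (hy : y ∈ wt 𝒦 Q E' m' Y w') : C.comp (C.comp x D) y = 0 := by
  have h1 := wt_tens hP (wt_tp hP hx) (wt_mono (le_refl m') hy)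
  have h2 := wt_D hP hV (by omega) h1 hD hcl
  rwa [act_tens C (ch_comm C), tp_tp] at h2

/-- Products of correspondences of different weights vanish. -/
lemma wt_tri (hP : ∀ n P p, IsPart 𝒦 Q n P p → IsMiddle H n p) (hV : V1 𝒦 Q (m + m'))
    (hw : w < w') {x y : C.A (X.prod X)} (hx : x ∈ wt 𝒦 Q E m X w)
    (hy : y ∈ wt 𝒦 Q E' m' X w') : C.comp x y = 0 := by
  have h1 := wt_raise hP hV (s := 0) (by omega) (by rw [add_zero]; exact dg_mem C X) hx hy
  rwa [comp_dg] at h1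

end weil

end Pool.Agent.N164.BB
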