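import Pool.Agent.N164.BB.CK

/-!
# The Bloch-Beilinson filtration on the varieties dominated by products of curves and surfaces
-/

set_option autoImplicit false

open CategoryTheory AlgebraicGeometry

universe u v w

namespace Pool.Agent.N164.BB

open Pool.Agent.H914 Pool.Agent.H914.VarClass Pool.Agent.H914.VarClass.Obj Pool.Agent.W492.BB
  Pool.Agent.W550.Corr Pool.Agent.TH133 Pool.Agent.Y148.BB Pool.Agent.X308.S

set_option linter.unusedSectionVars false
set_option linter.unusedVariables false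

variable {k : Type u} [Field k] {𝒱 : VarClass k}

variable {C : TheoryData.{u, v, 0} 𝒱 ℚ} {K : Type w} [Field K]
  {H : WeilTheoryData.{u, v, w} C K} {S S' T X Y Z W P : 𝒱.Obj}
  {𝒦 : 𝒱.Obj → Prop} {Q : ℕ → ∀ S : 𝒱.Obj, C.A (S.prod S) → Prop}
  {N : ∀ X : 𝒱.Obj, ℕ → Submodule ℚ (C.A X)}

/-- The vanishing statements for the parts. -/
structure Vanishing (H : WeilTheoryData.{u, v, w} C K) (𝒦 : 𝒱.Obj → Prop)
    (Q : ℕ → ∀ S : 𝒱.Obj, C.A (S.prod S) → Prop) (N : ∀ X : 𝒱.Obj, ℕ → Submodule ℚ (C.A X)) (d : ℕ∞) :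
    Prop where
  middle : ∀ n P p, IsPart 𝒦 Q n P p → IsMiddle H n p
  v1 : V1 𝒦 Q (d + d)
  v2 : V2 H 𝒦 Q (d + d)
  v3 : V3 𝒦 Q N d

variable [hC : IsChowProj C] [hH : IsWeilProj H] {d : ℕ∞}

include hC hH

omit hC hH in
lemma le_of_two_mul {n j : ℕ} (hn : (n : ℕ∞) ≤ d + d) (h : 2 * j ≤ n) : (j : ℕ∞) ≤ d := by
  induction d using ENat.recTopCoe with
  | top => exact le_top
  | coe d =>
    have h1 : n ≤ d + d := by exact_mod_cast hn
    have h2 : j ≤ d := by omega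
    exact_mod_cast h2

omit hC hH in
lemma le_of_odd {n j : ℕ} (hn : (n : ℕ∞) ≤ d) (h : j ≤ n) : (j : ℕ∞) ≤ d :=
  le_trans (by exact_mod_cast h) hn

theorem vanishing (hA : IsAdmissible H 𝒦 Q) (hN : IsAbelJacobiKernel H N)
    (hinj : InjectiveUpTo 𝒦 Q N d) : Vanishing H 𝒦 Q N d where
  middle n P p hP := hP.middle hA
  v1 n P p hP hn j hj z hz hpz := by
    rcases lt_or_ge j 0 with h | h
    · exact zero_of_neg hz h
    · obtain ⟨j, rfl⟩ := Int.eq_ofNat_of_zero_le h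
      exact (vanish hA hN hinj j (le_of_two_mul hn (by omega))).2 n P p hP hj z hz hpz
  v2 n P p hP hn j hj z hz hcl hpz := by
    rcases lt_or_ge j 0 with h | h
    · exact zero_of_neg hz h
    · obtain ⟨j, rfl⟩ := Int.eq_ofNat_of_zero_le h
      exact (vanish hA hN hinj j (le_of_two_mul hn (by omega))).1 n P p hP hj z hz hcl hpz
  v3 n P p hP hn j hj z hz hpz := by
    have hpos := hP.pos hA
    exact injective_of hN hinj (j := j) (by omega) (le_of_odd hn (by omega)) hP (by omega) hz hpz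

lemma sum_act {π : ℕ → C.A (X.prod X)} (h : IsCK H X π) (x : C.A X) :
    x = ∑ w ∈ Finset.range (2 * X.dim + 1), C.act (π w) x := by
  rw [← act_sum, h.sum, act_dg]

/-- The cycle class of a class in `F^1` vanishes. -/
lemma cl_of_mem_F1 {π : ℕ → C.A (X.prod X)} (hπ : IsCK H X π) {i : ℕ} {x : C.A X}
    (hx : x ∈ ckFil C π i 1) : H.cl x = 0 := by
  rw [hπ.mem_ckFil] at hx
  have h1 : H.act (H.cl (π (2 * i))) (H.cl x) = H.cl x :=
    hπ.act_self (2 * i) _ (by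
      have := H.cl_mem hx.1
      exact_mod_cast this)
  rw [← h1, ← cl_act H, hx.2 (2 * i) (by omega), map_zero]

section pure

variable {π : ℕ → C.A (X.prod X)} {ρ : ℕ → C.A (Y.prod Y)}

lemma IsPure.anti (h : IsPure H 𝒦 Q d π) {i m n : ℕ} (hmn : m ≤ n) {x : C.A X}
    (hx : x ∈ ckFil C π i n) : x ∈ ckFil C π i m := by
  rw [h.ck.mem_ckFil] at hx ⊢
  exact ⟨hx.1, fun j hj => hx.2 j (by omega)⟩

lemma IsPure.B0 (hV : Vanishing H 𝒦 Q N d) (h : IsPure H 𝒦 Q d π) {i w : ℕ} (hw : 2 * i < w)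
    {x : C.A X} (hx : x ∈ C.gr X i) : C.act (π w) x = 0 := by
  refine wt_B0 hV.middle (m := d) (fun n P p hP hn => hV.v1 n P p hP (hn.trans le_self_add))
    (w := w) (l := i) (by omega) (h.wt w) hx

lemma IsPure.D (hV : Vanishing H 𝒦 Q N d) (h : IsPure H 𝒦 Q d π) {i w : ℕ} (hw : w = 2 * i)
    {x : C.A X} (hx : x ∈ C.gr X i) (hcl : H.cl x = 0) : C.act (π w) x = 0 := by
  refine wt_D hV.middle (m := d) (fun n P p hP hn => hV.v2 n P p hP (hn.trans le_self_add))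
    (w := w) (l := i) (by exact_mod_cast hw) (h.wt w) hx hcl

lemma IsPure.AJ (hV : Vanishing H 𝒦 Q N d) (hN : IsAbelJacobiKernel H N)
    (h : IsPure H 𝒦 Q d π) {i w : ℕ} (hw : w + 1 = 2 * i) {x : C.A X} (hx : x ∈ N X i) :
    C.act (π w) x = 0 :=
  wt_AJ hV.middle hN hV.v3 (w := w) (l := i) (by omega) (h.wt w) hx

/-- Projectors of weight `w < i` act as zero on the cycles of codimension `i`. -/
lemma IsPure.B1 (hV : Vanishing H 𝒦 Q N d) (h : IsPure H 𝒦 Q d π) {i w : ℕ} (hw : w < i)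
    {x : C.A X} (hx : x ∈ C.gr X i) : C.act (π w) x = 0 := by
  set y := C.act (π w) x with hy
  have hym : y ∈ C.gr X i := act_mem0 C (h.ck.deg w) hx
  obtain ⟨f, hf, hfs⟩ := (Submodule.mem_iSup_iff_exists_finsupp _ _).1 h.eff
  have h1 : y = C.act (f.sum fun _ a => a) y := by
    have h2 : (f.sum fun _ a => a) = dg C X := hfs
    rw [h2, act_dg]
  rw [h1, Finsupp.sum, act_sum]
  apply Finset.sum_eq_zero
  intro w' _
  rcases lt_or_ge w' (i : ℤ) with h3 | h3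
  · exact wt_B1 hV.middle h3 (hf w') hym
  · rw [hy, ← C.act_comp, wt_tri hV.middle hV.v1 (w := w) (w' := w') (by omega) (h.wt w) (hf w'),
      TheoryData.act_zero]

lemma IsPure.mem_zero (hV : Vanishing H 𝒦 Q N d) (h : IsPure H 𝒦 Q d π) (i : ℕ) (x : C.A X) :
    x ∈ ckFil C π i 0 ↔ C.Deg i x := by
  rw [h.ck.mem_ckFil]
  exact ⟨fun hx => hx.1, fun hx => ⟨hx, fun j hj => h.B0 hV (by omega) hx⟩⟩

lemma IsPure.mem_one (hV : Vanishing H 𝒦 Q N d) (h : IsPure H 𝒦 Q d π) (i : ℕ) (x : C.A X) :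
    x ∈ ckFil C π i 1 ↔ C.Deg i x ∧ H.cl x = 0 := by
  constructor
  · intro hx
    refine ⟨?_, cl_of_mem_F1 h.ck hx⟩
    rw [h.ck.mem_ckFil] at hx
    exact hx.1
  · rintro ⟨hx, hcl⟩
    rw [h.ck.mem_ckFil]
    refine ⟨hx, fun j hj => ?_⟩
    by_cases hj2 : j = 2 * i
    · exact h.D hV hj2 hx hcl
    · exact h.B0 hV (by omega) hx

/-- **The second step is the kernel of the Abel-Jacobi map.** -/
lemma IsPure.two (hV : Vanishing H 𝒦 Q N d) (hN : IsAbelJacobiKernel H N)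
    (h : IsPure H 𝒦 Q d π) (i : ℕ) : ckFil C π i 2 = N X i := by
  ext x
  constructor
  · intro hx
    have hx1 := (h.mem_one hV i x).1 (h.anti (by norm_num) hx)
    rw [h.ck.mem_ckFil] at hx
    rw [sum_act h.ck x]
    refine Submodule.sum_mem _ fun w _ => ?_
    by_cases hw : 2 * i + 1 - 2 ≤ w
    · rw [hx.2 w hw]
      exact Submodule.zero_mem _
    · refine hN.kills X X i i (π w) ?_ ?_ x hx1.1 hx1.2
      · have := h.ck.deg w
        rwa [show (X.dim : ℤ) + i - i = X.dim by ring]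
      · intro a ha
        exact h.ck.act_ne w (2 * i - 1) a (by omega) ha
  · intro hx
    obtain ⟨hx1, hx2⟩ := hN.deg X i x hx
    rw [h.ck.mem_ckFil]
    refine ⟨hx1, fun w hw => ?_⟩
    rcases lt_trichotomy w (2 * i) with h1 | h1 | h1
    · exact h.AJ hV hN (by omega) hx
    · exact h.D hV h1 hx1 hx2
    · exact h.B0 hV h1 hx1

lemma IsPure.top (hV : Vanishing H 𝒦 Q N d) (h : IsPure H 𝒦 Q d π) (i : ℕ) :
    ckFil C π i (i + 1) = ⊥ := by
  rw [eq_bot_iff]
  intro x hx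
  rw [h.ck.mem_ckFil] at hx
  rw [Submodule.mem_bot, sum_act h.ck x]
  apply Finset.sum_eq_zero
  intro w _
  by_cases hw : i ≤ w
  · exact hx.2 w (by omega)
  · exact h.B1 hV (by omega) hx.1

lemma IsPure.stable (hV : Vanishing H 𝒦 Q N d) (h : IsPure H 𝒦 Q d π)
    (h' : IsPure H 𝒦 Q d ρ) {i j n : ℕ} {Γ : C.A (X.prod Y)}
    (hΓ : Γ ∈ C.gr (X.prod Y) ((X.dim : ℤ) + j - i)) {x : C.A X}
    (hx : x ∈ ckFil C π i n) : C.act Γ x ∈ ckFil C ρ j n := by
  rw [h.ck.mem_ckFil] at hx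
  rw [h'.ck.mem_ckFil]
  refine ⟨act_deg hΓ hx.1 (by ring), fun m hm => ?_⟩
  conv_lhs => rw [sum_act h.ck x]
  rw [act_map_sum, act_map_sum]
  apply Finset.sum_eq_zero
  intro w _
  by_cases hw : 2 * i + 1 - n ≤ w
  · rw [hx.2 w hw, TheoryData.act_map_zero, TheoryData.act_map_zero]
  · rw [← C.act_comp, ← C.act_comp, ← comp_assoc]
    have h1 : Γ ∈ C.gr (X.prod Y) ((X.dim : ℤ) + (j - i)) := by
      rwa [show (X.dim : ℤ) + (j - i) = X.dim + j - i by ring]
    rw [wt_raise hV.middle hV.v1 (w := w) (w' := m) (by omega) h1 (h.wt w) (h'.wt m),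
      TheoryData.act_zero]

lemma IsPure.shift (hV : Vanishing H 𝒦 Q N d) (h : IsPure H 𝒦 Q d π)
    (h' : IsPure H 𝒦 Q d ρ) {i j n : ℕ} {Γ : C.A (X.prod Y)}
    (hΓ : Γ ∈ C.gr (X.prod Y) ((X.dim : ℤ) + j - i)) (hk : Kills H Γ (2 * i - n)) {x : C.A X}
    (hx : x ∈ ckFil C π i n) : C.act Γ x ∈ ckFil C ρ j (n + 1) := by
  have hst := h.stable hV h' hΓ hx
  rw [h.ck.mem_ckFil] at hx
  rw [h'.ck.mem_ckFil] at hst ⊢
  refine ⟨hst.1, fun m hm => ?_⟩
  by_cases hm' : 2 * j + 1 - n ≤ m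
  · exact hst.2 m hm'
  have hmn : m + n = 2 * j := by omega
  conv_lhs => rw [sum_act h.ck x]
  rw [act_map_sum, act_map_sum]
  apply Finset.sum_eq_zero
  intro w _
  by_cases hw : 2 * i + 1 - n ≤ w
  · rw [hx.2 w hw, TheoryData.act_map_zero, TheoryData.act_map_zero]
  have h1 : Γ ∈ C.gr (X.prod Y) ((X.dim : ℤ) + (j - i)) := by
    rwa [show (X.dim : ℤ) + (j - i) = X.dim + j - i by ring]
  rw [← C.act_comp, ← C.act_comp, ← comp_assoc]
  by_cases hw' : (w : ℤ) = 2 * i - n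
  · -- the same weights: the entry is homologically trivial
    have hD : H.cl (C.comp (C.comp (π w) Γ) (ρ m)) = 0 := by
      apply cl_zero_of
      intro l a ha
      rw [actH_comp, actH_comp, h.ck.actH_eq w l ha]
      split_ifs with hl
      · rw [hk a (by rw [← hw', ← hl]; exact ha), TheoryData.act_map_zero]
      · rw [TheoryData.act_map_zero, TheoryData.act_map_zero]
    have hDm : C.comp (C.comp (π w) Γ) (ρ m) ∈ C.gr (X.prod Y) ((X.dim : ℤ) + (j - i)) := by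
      refine comp_deg (comp_deg (j := (X.dim : ℤ) + (j - i)) (h.ck.deg w) h1 (by ring))
        (h'.ck.deg m) (by ring)
    have hDD : C.comp (C.comp (π w) (C.comp (C.comp (π w) Γ) (ρ m))) (ρ m) =
        C.comp (C.comp (π w) Γ) (ρ m) := by
      rw [comp_assoc C (π w) (C.comp (C.comp (π w) Γ) (ρ m)), comp_assoc C (C.comp (π w) Γ) (ρ m),
        h'.ck.idem, ← comp_assoc C (π w) (C.comp (π w) Γ) (ρ m), ← comp_assoc C (π w) (π w) Γ,
        h.ck.idem]
    rw [← hDD, wt_same hV.middle hV.v2 (w := w) (w' := m) (by omega) hDm hD (h.wt w) (h'.wt m),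
      TheoryData.act_zero]
  · rw [wt_raise hV.middle hV.v1 (w := w) (w' := m) (by omega) h1 (h.wt w) (h'.wt m),
      TheoryData.act_zero]

end pure

omit hC hH in
open Classical in
/-- The filtration defined by decompositions into pieces of pure weights. -/
noncomputable def pureFil (H : WeilTheoryData.{u, v, w} C K) (𝒦 : 𝒱.Obj → Prop)
    (Q : ℕ → ∀ S : 𝒱.Obj, C.A (S.prod S) → Prop) (d : ℕ∞) (X : 𝒱.Obj) (j ν : ℕ) :
    Submodule ℚ (C.A X) :=
  if h : ∃ π : ℕ → C.A (X.prod X), IsPure H 𝒦 Q d π then ckFil C h.choose j ν else ⊥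

lemma pureFil_eq (h : ∃ π : ℕ → C.A (X.prod X), IsPure H 𝒦 Q d π) :
    ∃ π : ℕ → C.A (X.prod X), IsPure H 𝒦 Q d π ∧
      ∀ i n, pureFil H 𝒦 Q d X i n = ckFil C π i n := by
  refine ⟨h.choose, h.choose_spec, fun i n => ?_⟩
  simp only [pureFil]
  rw [dif_pos h]

/-- **Existence of the Bloch-Beilinson filtration.** -/
theorem isBlochBeilinsonOn_of_injective (hA : IsAdmissible H 𝒦 Q) (hN : IsAbelJacobiKernel H N)
    (hinj : InjectiveUpTo 𝒦 Q N d) :
    IsBlochBeilinsonOn H N (IsDominated 𝒦 Q d) (pureFil H 𝒦 Q d) ∧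
      ∀ X, IsDominated 𝒦 Q d X → ∃ π : ℕ → C.A (X.prod X), IsCK H X π := by
  have hV := vanishing hA hN hinj
  have key : ∀ X, IsDominated 𝒦 Q d X → ∃ π : ℕ → C.A (X.prod X), IsPure H 𝒦 Q d π ∧
      ∀ i n, pureFil H 𝒦 Q d X i n = ckFil C π i n := fun X hX =>
    pureFil_eq (exists_pure hV.middle hV.v1 hV.v2 (diag_dominated hA hX))
  refine ⟨⟨?_, ?_, ?_, ?_, ?_, ?_, ?_⟩, fun X hX => ?_⟩
  · intro X hX j ν x hx
    obtain ⟨π, h, e⟩ := key X hX
    rw [e] at hx ⊢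
    exact h.anti (Nat.le_succ ν) hx
  · intro X hX j x
    obtain ⟨π, h, e⟩ := key X hX
    rw [e]
    exact h.mem_zero hV j x
  · intro X hX j x
    obtain ⟨π, h, e⟩ := key X hX
    rw [e]
    exact h.mem_one hV j x
  · intro X hX j
    obtain ⟨π, h, e⟩ := key X hX
    rw [e]
    exact h.two hV hN j
  · intro X hX j
    obtain ⟨π, h, e⟩ := key X hX
    rw [e]
    exact h.top hV j
  · intro X Y hX hY j i ν Γ hΓ x hx
    obtain ⟨π, h, e⟩ := key X hX
    obtain ⟨ρ, h', e'⟩ := key Y hY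
    rw [e] at hx
    rw [e']
    exact h.stable hV h' hΓ hx
  · intro X Y hX hY j i ν Γ hΓ hk x hx
    obtain ⟨π, h, e⟩ := key X hX
    obtain ⟨ρ, h', e'⟩ := key Y hY
    rw [e] at hx
    rw [e']
    exact h.shift hV h' hΓ hk hx
  · obtain ⟨π, h, e⟩ := key X hX
    exact ⟨π, h.ck⟩

/-! ### Consequences of the existence of the filtration -/

section converse

variable {𝒮 : 𝒱.Obj → Prop} {F : ∀ X : 𝒱.Obj, ℕ → ℕ → Submodule ℚ (C.A X)}
  {π : ℕ → C.A (X.prod X)}

lemma BB_anti (hF : IsBlochBeilinsonOn H N 𝒮 F) (hX : 𝒮 X) (i : ℕ) {m n : ℕ} (h : m ≤ n) :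
    F X i n ≤ F X i m := by
  induction n, h using Nat.le_induction with
  | base => exact le_refl _
  | succ n _ ih => exact (hF.anti X hX i n).trans ih

lemma BB_stable (hF : IsBlochBeilinsonOn H N 𝒮 F) (hX : 𝒮 X) {i n : ℕ} {Γ : C.A (X.prod X)}
    (hΓ : C.Deg X.dim Γ) {x : C.A X} (hx : x ∈ F X i n) : C.act Γ x ∈ F X i n := by
  refine hF.stable X X hX hX i i n Γ ?_ x hx
  rwa [show (X.dim : ℤ) + i - i = X.dim by ring]

lemma BB_shift (hF : IsBlochBeilinsonOn H N 𝒮 F) (hX : 𝒮 X) {i n : ℕ} {Γ : C.A (X.prod X)}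
    (hΓ : C.Deg X.dim Γ) (hk : Kills H Γ (2 * i - n)) {x : C.A X} (hx : x ∈ F X i n) :
    C.act Γ x ∈ F X i (n + 1) := by
  refine hF.shift X X hX hX i i n Γ ?_ hk x hx
  rwa [show (X.dim : ℤ) + i - i = X.dim by ring]

/-- Components of too large weight of a class in `F^n` are zero. -/
lemma BB_proj_zero (hF : IsBlochBeilinsonOn H N 𝒮 F) (hX : 𝒮 X) (hπ : IsCK H X π) {i w : ℕ}
    {x : C.A X} : ∀ n, 2 * i < w + n → x ∈ F X i n → C.act (π w) x = 0 := by
  have key : ∀ m n : ℕ, 2 * i < w + n → x ∈ F X i n → C.act (π w) x ∈ F X i (n + m) := by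
    intro m
    induction m with
    | zero => intro n _ hx; exact BB_stable hF hX (hπ.deg w) hx
    | succ m ih =>
      intro n hn hx
      have h1 := BB_shift hF hX (hπ.deg w) (fun a ha => hπ.act_ne w _ a (by push_cast; omega) ha)
        (ih n hn hx)
      rw [← C.act_comp, hπ.idem] at h1
      exact h1
  intro n hn hx
  have h1 := BB_anti hF hX i (show i + 1 ≤ n + (i + 1) by omega) (key (i + 1) n hn hx)
  rw [hF.top X hX i] at h1
  exact (Submodule.mem_bot _).1 h1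

/-- Components of small weight lie in `F^n`. -/
lemma BB_proj_mem (hF : IsBlochBeilinsonOn H N 𝒮 F) (hX : 𝒮 X) (hπ : IsCK H X π) {i w : ℕ}
    {x : C.A X} (hx : C.Deg i x) : ∀ n, w + n ≤ 2 * i → C.act (π w) x ∈ F X i n := by
  intro n
  induction n with
  | zero =>
    intro _
    exact BB_stable hF hX (hπ.deg w) ((hF.zero X hX i x).2 hx)
  | succ n ih =>
    intro hn
    have h1 := BB_shift hF hX (hπ.deg w) (fun a ha => hπ.act_ne w _ a (by omega) ha)
      (ih (by omega))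
    rw [← C.act_comp, hπ.idem] at h1
    exact h1

/-- A Bloch-Beilinson filtration is the filtration attached to any Chow-Kunneth decomposition. -/
theorem BB_eq_ckFil (hF : IsBlochBeilinsonOn H N 𝒮 F) (hX : 𝒮 X) (hπ : IsCK H X π) (i n : ℕ) :
    F X i n = ckFil C π i n := by
  ext x
  rw [hπ.mem_ckFil]
  constructor
  · intro hx
    refine ⟨(hF.zero X hX i x).1 (BB_anti hF hX i (Nat.zero_le n) hx), fun j hj => ?_⟩
    exact BB_proj_zero hF hX hπ n (by omega) hx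
  · rintro ⟨hx, h⟩
    rw [sum_act hπ x]
    refine Submodule.sum_mem _ fun w _ => ?_
    by_cases hw : 2 * i + 1 - n ≤ w
    · rw [h w hw]
      exact Submodule.zero_mem _
    · exact BB_proj_mem hF hX hπ hx n (by omega)

/-- A Bloch-Beilinson filtration forces the injectivity of the Abel-Jacobi map on the parts of odd
weight `2 j - 1`. -/
lemma BB_injective (hF : IsBlochBeilinsonOn H N 𝒮 F) (hX : 𝒮 P) {p : C.A (P.prod P)} {j : ℕ}
    (hp : IsMiddle H (2 * j - 1) p) (hj : 1 ≤ j) {z : C.A P} (hz : z ∈ N P j)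
    (hpz : C.act p z = z) : z = 0 := by
  have hpm : C.Deg P.dim p := by
    have := hp.deg
    rw [hp.dim]
    exact this
  have key : ∀ ν : ℕ, z ∈ F P j (ν + 2) := by
    intro ν
    induction ν with
    | zero =>
      rw [hF.two P hX j]
      exact hz
    | succ ν ih =>
      have h1 := BB_shift hF hX hpm (hp.kills _ (by push_cast; omega)) ih
      rw [hpz] at h1
      exact h1
  have h1 := BB_anti hF hX j (show j + 1 ≤ j + 2 by omega) (key j)
  rw [hF.top P hX j] at h1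
  exact (Submodule.mem_bot _).1 h1

end converse

omit hC hH in
lemma IsPart.isProduct {n : ℕ} {p : C.A (P.prod P)} (h : IsPart 𝒦 Q n P p) :
    IsProduct 𝒦 Q P := by
  have key : ∀ {m : ℕ} {T : 𝒱.Obj} {r : C.A (T.prod T)}, IsFactor 𝒦 Q m T r →
      𝒦 T ∨ ∃ n q, Q n T q := by
    intro m T r hr
    cases hr with
    | curve _ o hT ho hd => exact Or.inl hT
    | variety _ _ _ h => exact Or.inr ⟨_, _, h⟩
  induction h with
  | factor n T r hr => exact .factor T (key hr)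
  | prod n m P T p r hp hr ih => exact .prod P T ih (key hr)

omit hH in
lemma isDominated_self (h : IsProduct 𝒦 Q P) (hd : (P.dim : ℕ∞) ≤ d) :
    IsDominated 𝒦 Q d P := by
  apply Submodule.subset_span
  refine ⟨P, 0, dg C P, dg C P, h, hd, ?_, ?_, (comp_dg C _).symm⟩
  · simpa using dg_mem C P
  · simpa using dg_mem C P

/-- **The injectivity of the Abel-Jacobi maps is necessary.** -/
theorem injective_of_isBlochBeilinsonOn (hA : IsAdmissible H 𝒦 Q) {e : ℕ∞} (he : 2 * d ≤ e + 1)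
    {F : ∀ X : 𝒱.Obj, ℕ → ℕ → Submodule ℚ (C.A X)}
    (hF : IsBlochBeilinsonOn H N (IsDominated 𝒦 Q e) F) : InjectiveUpTo 𝒦 Q N d := by
  intro j hj hjd P p hP z hz hpz
  have hm := hP.middle hA
  have hdim : (P.dim : ℕ∞) ≤ e := by
    rw [hm.dim]
    have h1 : ((2 * j : ℕ) : ℕ∞) ≤ e + 1 := by
      push_cast
      exact (mul_le_mul_right hjd 2).trans he
    have h2 : ((2 * j : ℕ) : ℕ∞) = ((2 * j - 1 : ℕ) : ℕ∞) + 1 := by
      have : 2 * j = (2 * j - 1) + 1 := by omega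
      conv_lhs => rw [this]
      push_cast
      rfl
    rw [h2] at h1
    exact (ENat.add_le_add_iff_right ENat.one_ne_top).1 h1
  exact BB_injective hF (isDominated_self hP.isProduct hdim) hm (by omega) hz hpz

/-- **Main theorem.** -/
theorem main (hA : IsAdmissible H 𝒦 Q) (hN : IsAbelJacobiKernel H N) :
    ((∃ F, IsBlochBeilinsonOn H N (IsDominated 𝒦 Q ⊤) F) ↔ InjectiveUpTo 𝒦 Q N ⊤) ∧
    (∀ d : ℕ∞, InjectiveUpTo 𝒦 Q N d →
      (∃ F, IsBlochBeilinsonOn H N (IsDominated 𝒦 Q d) F) ∧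
        ∀ X, IsDominated 𝒦 Q d X → ∃ π, IsCK H X π) ∧
    (∀ d : ℕ, (∃ F, IsBlochBeilinsonOn H N (IsDominated 𝒦 Q (2 * d - 1 : ℕ)) F) →
      InjectiveUpTo 𝒦 Q N d) ∧
    (∀ (d : ℕ∞) (F : ∀ X : 𝒱.Obj, ℕ → ℕ → Submodule ℚ (C.A X)),
      IsBlochBeilinsonOn H N (IsDominated 𝒦 Q d) F → ∀ X, IsDominated 𝒦 Q d X →
        ∀ π, IsCK H X π → ∀ j ν : ℕ, F X j ν = ckFil C π j ν) := by
  refine ⟨⟨?_, ?_⟩, ?_, ?_, ?_⟩
  · rintro ⟨F, h⟩
    exact injective_of_isBlochBeilinsonOn hA (e := ⊤) (by simp) h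
  · intro h
    exact ⟨_, (isBlochBeilinsonOn_of_injective hA hN h).1⟩
  · intro d h
    exact ⟨⟨_, (isBlochBeilinsonOn_of_injective hA hN h).1⟩,
      (isBlochBeilinsonOn_of_injective hA hN h).2⟩
  · rintro d ⟨F, h⟩
    refine injective_of_isBlochBeilinsonOn hA ?_ h
    have : 2 * d ≤ (2 * d - 1) + 1 := by omega
    exact_mod_cast this
  · intro d F h X hX π hπ j ν
    exact BB_eq_ckFil h hX hπ j ν

end Pool.Agent.N164.BB
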