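import Pool.Agent.N164.BB.Defs
import Pool.Agent.Y148.BB.Corr
import Pool.Agent.X308.S.Key

/-!
# The primitive parts of products of curves and surfaces
-/

set_option autoImplicit false

open CategoryTheory AlgebraicGeometry

universe u v w

namespace Pool.Agent.N164.BB

open Pool.Agent.H914 Pool.Agent.H914.VarClass Pool.Agent.H914.VarClass.Obj Pool.Agent.W492.BB
  Pool.Agent.W550.Corr Pool.Agent.TH133 Pool.Agent.Y148.BB Pool.Agent.X308.S

set_option linter.unusedSectionVars false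
set_option linter.unusedVariables false

variable {k : Type u} [Field k] {𝒱 : VarClass k}

section chow

variable {C : TheoryData.{u, v, 0} 𝒱 ℚ} [hC : IsChowProj C] {X Y Z W P P' P₁ T : 𝒱.Obj}

include hC

lemma graph_mem (f : X ⟶ Y) : C.graph f ∈ C.gr (X.prod Y) Y.dim := by
  have h := C.push_mem (Obj.lift (𝟙 X) f) (C.one_mem X)
  have e1 : (0 : ℤ) + 1 * (((X.prod Y).dim : ℤ) - (X.dim : ℤ)) = Y.dim := by
    rw [dim_prod]; push_cast; ring
  rwa [e1] at h

lemma graph_comp (f : X ⟶ Y) (Γ : C.A (Y.prod Z)) :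
    C.comp (C.graph f) Γ = C.pull (prodMap f (𝟙 Z)) Γ := by
  have h1 := wg_comp f 1 Γ
  rw [map_one, mul_one] at h1
  exact h1

lemma graph_comp_graph (f : X ⟶ Y) (g : Y ⟶ X) (h : f ≫ g = 𝟙 X) :
    C.comp (C.graph f) (C.graph g) = dg C X := by
  have e1 : Obj.lift (𝟙 X) f ≫ prodMap (𝟙 X) g = Obj.lift (𝟙 X) (𝟙 X) := by
    apply prod_ext <;> simp [h]
  rw [comp_graph, TheoryData.graph, ← C.push_comp, e1]
  rfl

/-- External products of correspondences are associative. -/
lemma tens_assoc (p : C.A (P.prod P)) (p₁ : C.A (P₁.prod P₁)) (r : C.A (T.prod T)) :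
    C.comp (tens C p (tens C p₁ r)) (C.graph (aJ P P₁ T)) =
      C.comp (C.graph (aJ P P₁ T)) (tens C (tens C p p₁) r) := by
  have k1 : prodMap (𝟙 (P.prod (P₁.prod T))) (aI P P₁ T) ≫
      prodMap (𝟙 (P.prod (P₁.prod T))) (aJ P P₁ T) = 𝟙 _ := by
    rw [prodMap_comp, aI_aJ, Category.comp_id]
    apply prod_ext <;> simp
  have k2 : prodMap (𝟙 (P.prod (P₁.prod T))) (aJ P P₁ T) ≫
      prodMap (𝟙 (P.prod (P₁.prod T))) (aI P P₁ T) = 𝟙 _ := by
    rw [prodMap_comp, aJ_aI, Category.comp_id]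
    apply prod_ext <;> simp
  rw [comp_graph, graph_comp, ← pull_iso C _ _ k1 k2]
  simp only [tens, map_mul, ← C.pull_comp]
  have e1 : prodMap (𝟙 (P.prod (P₁.prod T))) (aI P P₁ T) ≫
      prodMap (fst P (P₁.prod T)) (fst P (P₁.prod T)) =
      prodMap (aJ P P₁ T) (𝟙 ((P.prod P₁).prod T)) ≫ prodMap (fst (P.prod P₁) T)
        (fst (P.prod P₁) T) ≫ prodMap (fst P P₁) (fst P P₁) := by
    apply prod_ext <;> simp [aI, aJ, prodMap, comp_lift]
  have e2 : prodMap (𝟙 (P.prod (P₁.prod T))) (aI P P₁ T) ≫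
      prodMap (snd P (P₁.prod T)) (snd P (P₁.prod T)) ≫ prodMap (fst P₁ T) (fst P₁ T) =
      prodMap (aJ P P₁ T) (𝟙 ((P.prod P₁).prod T)) ≫ prodMap (fst (P.prod P₁) T)
        (fst (P.prod P₁) T) ≫ prodMap (snd P P₁) (snd P P₁) := by
    apply prod_ext <;> simp [aI, aJ, prodMap, comp_lift]
  have e3 : prodMap (𝟙 (P.prod (P₁.prod T))) (aI P P₁ T) ≫
      prodMap (snd P (P₁.prod T)) (snd P (P₁.prod T)) ≫ prodMap (snd P₁ T) (snd P₁ T) =
      prodMap (aJ P P₁ T) (𝟙 ((P.prod P₁).prod T)) ≫ prodMap (snd (P.prod P₁) T)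
        (snd (P.prod P₁) T) := by
    apply prod_ext <;> simp [aI, aJ, prodMap, comp_lift]
  rw [e1, e2, e3, mul_assoc]

/-- The morphism from `(P, p)` to `(P', p')` given by the correspondence `u` of degree zero has the
left inverse `v`. -/
structure IsoPart (p : C.A (P.prod P)) (p' : C.A (P'.prod P')) (u : C.A (P.prod P'))
    (v : C.A (P'.prod P)) : Prop where
  u_mem : u ∈ C.gr (P.prod P') P.dim
  v_mem : v ∈ C.gr (P'.prod P) P'.dim
  uv : C.comp u v = dg C P
  comm : C.comp p u = C.comp u p'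

variable {𝒦 : 𝒱.Obj → Prop} {Q : ℕ → ∀ S : 𝒱.Obj, C.A (S.prod S) → Prop}

/-- Products of parts are isomorphic to parts. -/
theorem exists_part_prod {n m : ℕ} {p : C.A (P.prod P)} {p' : C.A (P'.prod P')}
    (h : IsPart 𝒦 Q n P p) (h' : IsPart 𝒦 Q m P' p') :
    ∃ (P'' : 𝒱.Obj) (p'' : C.A (P''.prod P'')) (u : C.A ((P.prod P').prod P''))
      (v : C.A (P''.prod (P.prod P'))), IsPart 𝒦 Q (n + m) P'' p'' ∧
      IsoPart (tens C p p') p'' u v := by
  induction h' with
  | factor m T r hr =>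
    exact ⟨P.prod T, tens C p r, dg C _, dg C _, .prod n m P T p r h hr, dg_mem C _, dg_mem C _,
      comp_dg C _, by rw [comp_dg, dg_comp]⟩
  | prod m₁ m₂ P₁ T p₁ r h₁ hr ih =>
    obtain ⟨P'', p'', u, v, h2, h3⟩ := ih
    refine ⟨P''.prod T, tens C p'' r, C.comp (C.graph (aJ P P₁ T)) (tens C u (dg C T)),
      C.comp (tens C v (dg C T)) (C.graph (aI P P₁ T)), ?_, ?_, ?_, ?_, ?_⟩
    · rw [← add_assoc]
      exact .prod _ _ _ _ _ _ h2 hr
    · refine comp_deg (graph_mem _) (tens_mem C h3.u_mem (dg_mem C T)) ?_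
      simp only [dim_prod]
      push_cast
      ring
    · refine comp_deg (tens_mem C h3.v_mem (dg_mem C T)) (graph_mem _) ?_
      simp only [dim_prod]
      push_cast
      ring
    · rw [comp_assoc, ← comp_assoc C (tens C u (dg C T)), tens_comp'', h3.uv, comp_dg, tens_dg C,
        dg_comp, graph_comp_graph _ _ aJ_aI]
    · rw [← comp_assoc, tens_assoc, comp_assoc, tens_comp'', h3.comm, comp_assoc C (C.graph _),
        tens_comp'', comp_dg, dg_comp]

end chow

section weil

variable {C : TheoryData.{u, v, 0} 𝒱 ℚ} [hC : IsChowProj C] {K : Type w} [Field K]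
  {H : WeilTheoryData.{u, v, w} C K} [hH : IsWeilProj H] {S S' T X Y Z W P : 𝒱.Obj}

/-- The projector `p` cuts out a self-dual direct summand of the cohomology of `P` in the middle
degree `n = dim P`. -/
structure IsMiddle (H : WeilTheoryData.{u, v, w} C K) (n : ℕ) {P : 𝒱.Obj} (p : C.A (P.prod P)) :
    Prop where
  dim : P.dim = n
  deg : p ∈ C.gr (P.prod P) n
  idem : C.comp p p = p
  tp : tp C p = p
  kills : ∀ m : ℤ, m ≠ n → Kills H p m

include hC hH

lemma IsMiddle.tens {n m : ℕ} {p : C.A (P.prod P)} {r : C.A (T.prod T)} (h : IsMiddle H n p)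
    (h' : IsMiddle H m r) : IsMiddle H (n + m) (tens C p r) where
  dim := by rw [dim_prod, h.dim, h'.dim]
  deg := by
    have := tens_mem C h.deg h'.deg
    push_cast
    exact this
  idem := by rw [tens_comp'', h.idem, h'.idem]
  tp := by rw [tp_tens, h.tp, h'.tp]
  kills l hl := by
    intro a ha
    have h1 := H.kunneth P T l ha
    clear ha
    induction h1 using Submodule.span_induction with
    | mem x hx =>
      obtain ⟨i, a, b, hi, hj, rfl⟩ := hx
      have e0 : H.pull (fst P T) a * H.pull (snd P T) b = H.ext a b := rfl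
      rw [e0, actH_tens_ext]
      by_cases hin : i = n
      · rw [h'.kills (l - i) (by rw [hin]; push_cast at hl; omega) b hj,
          TheoryData.ext_zero_right]
      · rw [h.kills i hin a hi, TheoryData.ext_zero_left]
    | zero => exact TheoryData.act_map_zero _ _
    | add x y _ _ hx hy => rw [act_map_add, hx, hy, add_zero]
    | smul r x _ hx => rw [act_map_smul, hx, smul_zero]

variable {𝒦 : 𝒱.Obj → Prop} {Q : ℕ → ∀ S : 𝒱.Obj, C.A (S.prod S) → Prop}

lemma IsTranscendental.middle {q : C.A (S.prod S)} (hq : IsTranscendental H 𝒦 S q) :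
    IsMiddle H 2 q := by
  obtain ⟨x, π, hx, hx1, hpen, hck, h0, h4, hπq, -⟩ := hq.exists_ck
  refine ⟨hq.dim_eq, by exact_mod_cast hq.deg, hq.idem, hq.self_dual, fun m hm a ha => ?_⟩
  rw [← hπq, actH_comp, hck.act_ne 2 m a (by exact_mod_cast hm) ha, TheoryData.act_map_zero]

lemma IsPrimitivePart.middle {n : ℕ} {q : C.A (S.prod S)} (hq : IsPrimitivePart H 𝒦 Q n S q) :
    IsMiddle H n q := ⟨hq.dim_eq, hq.deg, hq.idem, hq.self_dual, hq.kills⟩

lemma IsFactor.middle (hA : IsAdmissible H 𝒦 Q)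
    {n : ℕ} {r : C.A (T.prod T)} (h : IsFactor 𝒦 Q n T r) : IsMiddle H n r := by
  cases h with
  | curve T o hT ho hd =>
    have hT' := hA.curve T hT
    have hck := curveCK_isCK H hT' ho hd
    refine ⟨hT', ?_, odd_odd hT' ho hd, tp_odd o, fun m hm a ha => ?_⟩
    · have := odd_mem (C := C) hT' ho
      rw [hT'] at this
      exact this
    · exact hck.act_ne 1 m a (by exact_mod_cast hm) ha
  | variety n S q h =>
    rcases hA.variety n T r h with ⟨rfl, hq⟩ | hq
    · exact hq.middle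
    · exact hq.middle

lemma IsPart.middle (hA : IsAdmissible H 𝒦 Q)
    {n : ℕ} {p : C.A (P.prod P)} (h : IsPart 𝒦 Q n P p) : IsMiddle H n p := by
  induction h with
  | factor n T r hr => exact hr.middle hA
  | prod n m P T p r hp hr ih => exact ih.tens (hr.middle hA)

lemma IsFactor.pos (hA : IsAdmissible H 𝒦 Q) {n : ℕ} {r : C.A (T.prod T)}
    (h : IsFactor 𝒦 Q n T r) : 0 < n := by
  cases h with
  | curve T o hT ho hd => norm_num
  | variety n S q h =>
    rcases hA.variety n T r h with ⟨rfl, hq⟩ | hq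
    · norm_num
    · have := hq.two_le
      omega

lemma IsPart.pos (hA : IsAdmissible H 𝒦 Q) {n : ℕ} {p : C.A (P.prod P)}
    (h : IsPart 𝒦 Q n P p) : 0 < n := by
  induction h with
  | factor n T r hr => exact hr.pos hA
  | prod n m P T p r hp hr ih => omega

end weil

end Pool.Agent.N164.BB
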