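import Pool.Agent.N164.BB.Main

/-!
# Reduction to parts whose curve factors are equal
-/

set_option autoImplicit false

open CategoryTheory AlgebraicGeometry

universe u v w

namespace Pool.Agent.N164.BB

open Pool.Agent.H914 Pool.Agent.H914.VarClass Pool.Agent.H914.VarClass.Obj Pool.Agent.W492.BB
  Pool.Agent.W550.Corr Pool.Agent.TH133 Pool.Agent.Y148.BB Pool.Agent.X308.S

set_option linter.unusedSectionVars false
set_option linter.unusedVariables false

variable {k : Type u} [Field k] {𝒱 : VarClass k}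

variable {C : TheoryData.{u, v, 0} 𝒱 ℚ} {K : Type w} [Field K]
  {H : WeilTheoryData.{u, v, w} C K} {S S' T X Y Z W P : 𝒱.Obj}
  {𝒦 : 𝒱.Obj → Prop} {Q : ℕ → ∀ S : 𝒱.Obj, C.A (S.prod S) → Prop}

/-- There is a morphism `T' → T` of nonzero degree. -/
def Dominates (C : TheoryData.{u, v, 0} 𝒱 ℚ) (T' T : 𝒱.Obj) : Prop :=
  ∃ (f : T' ⟶ T) (c : ℚ), c ≠ 0 ∧ C.down f 1 = c • (1 : C.A T)

/-- The class `𝒦` is not empty and any two members of `𝒦` are dominated by a third one. -/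
def IsDirected (C : TheoryData.{u, v, 0} 𝒱 ℚ) (𝒦 : 𝒱.Obj → Prop) : Prop :=
  (∃ T, 𝒦 T) ∧ ∀ T T', 𝒦 T → 𝒦 T' → ∃ T'', 𝒦 T'' ∧ Dominates C T'' T ∧ Dominates C T'' T'

/-- The motive `(P', p')` dominates `(P, p)` through a morphism `P' → P` of nonzero degree. -/
def Covers {P P' : 𝒱.Obj} (p : C.A (P.prod P)) (p' : C.A (P'.prod P')) : Prop :=
  ∃ (f : P' ⟶ P) (c : ℚ), c ≠ 0 ∧ C.push f 1 = c • (1 : C.A P) ∧
    C.comp p (C.cograph f) = C.comp (C.cograph f) p'

variable [hC : IsChowProj C]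

include hC

lemma Dominates.trans {T T' T'' : 𝒱.Obj} (h : Dominates C T'' T') (h' : Dominates C T' T) :
    Dominates C T'' T := by
  obtain ⟨f, c, hc, hf⟩ := h
  obtain ⟨g, c', hc', hg⟩ := h'
  refine ⟨f ≫ g, c * c', mul_ne_zero hc hc', ?_⟩
  change C.push (f ≫ g) 1 = _
  have hf' : C.push f 1 = c • (1 : C.A T') := hf
  have hg' : C.push g 1 = c' • (1 : C.A T) := hg
  rw [C.push_comp, hf', map_smul, hg', smul_smul]

lemma push_pull_deg {f : X ⟶ Y} {c : ℚ} (h : C.push f 1 = c • (1 : C.A Y)) (y : C.A Y) :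
    C.push f (C.pull f y) = c • y := by
  have h1 := C.proj_right f 1 y
  rw [one_mul] at h1
  rw [h1, h, smul_mul_assoc, one_mul]

lemma cograph_prodMap (f : X ⟶ Y) (g : Z ⟶ W) :
    C.cograph (prodMap f g) = tens C (C.cograph f) (C.cograph g) := by
  have k1 : mid Y W X Z ≫ mid Y X W Z = 𝟙 _ := mid_mid Y W X Z
  have k2 : mid Y X W Z ≫ mid Y W X Z = 𝟙 _ := mid_mid Y X W Z
  have e1 : prodMap (Obj.lift f (𝟙 X)) (Obj.lift g (𝟙 Z)) ≫ mid Y X W Z =
      Obj.lift (prodMap f g) (𝟙 (X.prod Z)) := by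
    apply prod_ext <;> apply prod_ext <;> simp [mid, prodMap, comp_lift]
  have e2 : (1 : C.A (X.prod Z)) = C.ext (1 : C.A X) (1 : C.A Z) := by
    rw [TheoryData.ext, map_one, map_one, one_mul]
  rw [tens_eq, pull_iso C _ _ k1 k2, TheoryData.cograph, TheoryData.cograph, TheoryData.cograph,
    ← push_ext, ← e2, ← C.push_comp, e1]

lemma HasDegree.push {f : X ⟶ Y} {x : C.A X} {q : ℚ} (h : HasDegree C x q) :
    HasDegree C (C.push f x) q := by
  intro Z
  constructor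
  · rw [C.base_fst, ← C.push_comp, prodMap_snd, Category.comp_id]
    exact (h Z).1
  · rw [C.base_snd, ← C.push_comp, prodMap_fst, Category.comp_id]
    exact (h Z).2

lemma HasDegree.smul {x : C.A X} {q : ℚ} (h : HasDegree C x q) (c : ℚ) :
    HasDegree C (c • x) (c * q) := by
  intro Z
  rw [map_smul, map_smul, map_smul, map_smul, (h Z).1, (h Z).2, smul_smul]
  exact ⟨rfl, rfl⟩

lemma Covers.refl (p : C.A (P.prod P)) : Covers p p := by
  have e1 : C.cograph (𝟙 P) = dg C P := rfl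
  refine ⟨𝟙 P, 1, one_ne_zero, by rw [C.push_id, one_smul], ?_⟩
  rw [e1, comp_dg, dg_comp]

lemma Covers.tens {P P' T T' : 𝒱.Obj} {p : C.A (P.prod P)} {p' : C.A (P'.prod P')}
    {r : C.A (T.prod T)} {r' : C.A (T'.prod T')} (h : Covers p p') (h' : Covers r r') :
    Covers (tens C p r) (tens C p' r') := by
  obtain ⟨f, c, hc, hf, hfp⟩ := h
  obtain ⟨g, c', hc', hg, hgr⟩ := h'
  refine ⟨prodMap f g, c * c', mul_ne_zero hc hc', ?_, ?_⟩
  · have e2 : ∀ X Z : 𝒱.Obj, (1 : C.A (X.prod Z)) = C.ext (1 : C.A X) (1 : C.A Z) := by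
      intro X Z
      rw [TheoryData.ext, map_one, map_one, one_mul]
    rw [e2, push_ext, hf, hg, ext_smul_right, e2 P T]
    have e3 : C.ext (c • (1 : C.A P)) (1 : C.A T) = c • C.ext (1 : C.A P) (1 : C.A T) := by
      rw [TheoryData.ext, TheoryData.ext, map_smul, smul_mul_assoc]
    rw [e3, smul_smul, mul_comm]
  · rw [cograph_prodMap, tens_comp'', tens_comp'', hfp, hgr]

/-- A class on `(P, p)` is determined by its pull-back to `(P', p')`. -/
lemma Covers.zero {P P' : 𝒱.Obj} {p : C.A (P.prod P)} {p' : C.A (P'.prod P')} (h : Covers p p')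
    {z : C.A P} (hpz : C.act p z = z)
    (h1 : ∀ f : P' ⟶ P, C.act p' (C.pull f z) = C.pull f z → C.pull f z = 0) : z = 0 := by
  obtain ⟨f, c, hc, hf, hfp⟩ := h
  have h2 : C.pull f z = 0 := by
    apply h1 f
    conv_lhs => rw [← C.act_cograph f z, ← C.act_comp, ← hfp, C.act_comp, hpz]
    rw [C.act_cograph]
  have h3 := push_pull_deg hf z
  rw [h2, map_zero] at h3
  rcases smul_eq_zero.1 h3.symm with h | h
  · exact (hc h).elim
  · exact h

/-- The motives `h^1` of curves. -/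
lemma covers_odd (H : WeilTheoryData.{u, v, w} C K) [hH : IsWeilProj H] {T T' : 𝒱.Obj} (hT : T.dim = 1) (hT' : T'.dim = 1) (h : Dominates C T' T)
    {o : C.A T} (ho : C.Deg 1 o) (hd : HasDegree C o 1) :
    ∃ o' : C.A T', C.Deg 1 o' ∧ HasDegree C o' 1 ∧ Covers (oddProj C o) (oddProj C o') := by
  obtain ⟨f, c, hc, hf⟩ := h
  have hf' : C.push f 1 = c • (1 : C.A T) := hf
  have h1 : C.pull f o ∈ C.gr T' 1 := C.pull_mem f ho
  have hp : C.push f (C.pull f o) = c • o := push_pull_deg hf' o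
  obtain ⟨q, hq⟩ := exists_hasDegree (C := C) (X := T') (x := C.pull f o)
    (by rw [hT']; exact_mod_cast h1)
  have hqc : q = c := by
    have h2 := HasDegree.push (f := f) hq
    rw [hp] at h2
    have h3 := HasDegree.smul hd c
    rw [mul_one] at h3
    exact hasDegree_unique (H := H) h2 h3
  refine ⟨c⁻¹ • C.pull f o, Submodule.smul_mem _ _ h1, ?_, f, c, hc, hf', ?_⟩
  · have h2 := HasDegree.smul hq c⁻¹
    rwa [hqc, inv_mul_cancel₀ hc] at h2
  · have e1 : C.act (C.cograph f) (1 : C.A T) = 1 := by rw [C.act_cograph, map_one]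
    have e2 : C.act (tp C (C.cograph f)) (c⁻¹ • C.pull f o) = o := by
      rw [← tp_graph, tp_tp, C.act_graph, map_smul, hp, smul_smul, inv_mul_cancel₀ hc, one_smul]
    have e3 : C.act (tp C (C.cograph f)) (1 : C.A T') = c • (1 : C.A T) := by
      rw [← tp_graph, tp_tp, C.act_graph, hf']
    have e4 : C.ext (c • (1 : C.A T)) (c⁻¹ • C.pull f o) = C.ext (1 : C.A T) (C.pull f o) := by
      rw [ext_smul_right, TheoryData.ext, TheoryData.ext, map_smul, smul_mul_assoc, smul_smul,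
        inv_mul_cancel₀ hc, one_smul]
    rw [oddProj, oddProj, sub_comp, sub_comp, comp_sub, comp_sub, dg_comp, comp_dg, ext_comp,
      ext_comp, comp_ext, comp_ext, e1, e2, e3, e4, C.act_cograph]

lemma exists_single_factor (H : WeilTheoryData.{u, v, w} C K) [hH : IsWeilProj H] (h𝒦 : ∀ T, 𝒦 T → T.dim = 1) (hD : IsDirected C 𝒦) {n : ℕ}
    {r : C.A (T.prod T)} (h : IsFactor 𝒦 Q n T r) :
    ∃ T₀, 𝒦 T₀ ∧ ∀ T', 𝒦 T' → Dominates C T' T₀ → ∃ (R : 𝒱.Obj) (r' : C.A (R.prod R)),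
      IsFactor (fun S => S = T') Q n R r' ∧ Covers r r' := by
  cases h with
  | curve _ o hT ho hd =>
    refine ⟨T, hT, fun T' hT' hdom => ?_⟩
    obtain ⟨o', ho', hd', hcov⟩ := covers_odd H (h𝒦 T hT) (h𝒦 T' hT') hdom ho hd
    exact ⟨T', oddProj C o', .curve T' o' rfl ho' hd', hcov⟩
  | variety _ _ _ h =>
    obtain ⟨T₀, hT₀⟩ := hD.1
    exact ⟨T₀, hT₀, fun T' _ _ => ⟨T, r, .variety n T r h, Covers.refl r⟩⟩

/-- Every part is covered by a part whose curve factors are equal. -/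
theorem exists_single (H : WeilTheoryData.{u, v, w} C K) [hH : IsWeilProj H] (h𝒦 : ∀ T, 𝒦 T → T.dim = 1) (hD : IsDirected C 𝒦) {n : ℕ}
    {p : C.A (P.prod P)} (h : IsPart 𝒦 Q n P p) :
    ∃ T₀, 𝒦 T₀ ∧ ∀ T', 𝒦 T' → Dominates C T' T₀ → ∃ (P' : 𝒱.Obj) (p' : C.A (P'.prod P')),
      IsPart (fun S => S = T') Q n P' p' ∧ Covers p p' := by
  induction h with
  | factor n T r hr =>
    obtain ⟨T₀, hT₀, h⟩ := exists_single_factor H h𝒦 hD hr
    refine ⟨T₀, hT₀, fun T' hT' hdom => ?_⟩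
    obtain ⟨R, r', hr', hcov⟩ := h T' hT' hdom
    exact ⟨R, r', .factor n R r' hr', hcov⟩
  | prod n m P T p r hp hr ih =>
    obtain ⟨T₁, hT₁, h₁⟩ := ih
    obtain ⟨T₂, hT₂, h₂⟩ := exists_single_factor H h𝒦 hD hr
    obtain ⟨T₃, hT₃, hd₁, hd₂⟩ := hD.2 T₁ T₂ hT₁ hT₂
    refine ⟨T₃, hT₃, fun T' hT' hdom => ?_⟩
    obtain ⟨P', p', hp', hcov⟩ := h₁ T' hT' (hdom.trans hd₁)
    obtain ⟨R, r', hr', hcov'⟩ := h₂ T' hT' (hdom.trans hd₂)
    exact ⟨P'.prod R, tens C p' r', .prod n m P' R p' r' hp' hr', hcov.tens hcov'⟩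

end Pool.Agent.N164.BB
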