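import Pool.Agent.W492.BB.Defs

/-!
# Bloch-Beilinson filtrations and the Abel-Jacobi maps of primitive parts: the definitions

These are the definitions used by the statement which are not in `Pool.Agent.W492.BB.Defs`.
-/

set_option autoImplicit false

open CategoryTheory AlgebraicGeometry

universe u v w

namespace Pool.Agent.N164.Prim

open Pool.Agent.H914 Pool.Agent.H914.VarClass Pool.Agent.H914.VarClass.Obj Pool.Agent.W492.BB

variable {k : Type u} [Field k] {𝒱 : VarClass k}

section theory

variable {F : Type w} [Field F] (T : TheoryData.{u, v, w} 𝒱 F) {X : 𝒱.Obj}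

/-- The class zero. -/
abbrev zero (X : 𝒱.Obj) : T.A X := 0

/-- The fundamental class of `X`. -/
abbrev one (X : 𝒱.Obj) : T.A X := 1

/-- The difference of two classes. -/
abbrev sub (a b : T.A X) : T.A X := a - b

/-- The multiple `c a` of the class `a`. -/
abbrev smul (c : F) (a : T.A X) : T.A X := c • a

/-- The class `z` is a linear combination of classes with the property `s`. -/
def IsComb (s : T.A X → Prop) (z : T.A X) : Prop := z ∈ Submodule.span F {c | s c}

end theory

/-! ### Correspondences -/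

section correspondences

variable (C : TheoryData.{u, v, 0} 𝒱 ℚ) {X Y Z W : 𝒱.Obj}

/-- The correspondences from `X` to `Y`: the classes on `X × Y`. -/
abbrev Cor (X Y : 𝒱.Obj) : Type v := C.A (X.prod Y)

/-- The composition of the correspondence `Γ` from `X` to `Y` with the correspondence `Δ` from `Y`
to `Z`, which is a correspondence from `X` to `Z`. -/
noncomputable def comp (Γ : Cor C X Y) (Δ : Cor C Y Z) : Cor C X Z :=
  C.down (prodMap (fst X Y) (𝟙 Z))
    (C.mul (C.up (prodMap (snd X Y) (𝟙 Z)) Δ) (C.up (fst (X.prod Y) Z) Γ))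

/-- The external product `a × b` of classes. -/
noncomputable def ext (a : C.A X) (b : C.A Y) : Cor C X Y :=
  C.mul (C.up (fst X Y) a) (C.up (snd X Y) b)

/-- The external product of the correspondences `Γ` from `X` to `Y` and `Δ` from `Z` to `W`. -/
noncomputable def tens (Γ : Cor C X Y) (Δ : Cor C Z W) : Cor C (X.prod Z) (Y.prod W) :=
  C.mul (C.up (prodMap (fst X Z) (fst Y W)) Γ) (C.up (prodMap (snd X Z) (snd Y W)) Δ)

/-- The transpose of a correspondence. -/
noncomputable def transpose (Γ : Cor C X Y) : Cor C Y X := C.up (Obj.lift (snd Y X) (fst Y X)) Γ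

/-- The graph of the morphism `f`. -/
noncomputable def graph (f : X ⟶ Y) : Cor C X Y := C.down (Obj.lift (𝟙 X) f) (one C X)

/-- The transpose of the graph of the morphism `f`. -/
noncomputable def cograph (f : X ⟶ Y) : Cor C Y X := C.down (Obj.lift f (𝟙 X)) (one C X)

/-- The class of the diagonal of `X`. -/
noncomputable def diag (X : 𝒱.Obj) : Cor C X X := graph C (𝟙 X)

/-- The zero-cycle `x` on `X` has degree `q`: for all `Y` the push-forward of `x × Y` to `Y` is `q`
times the fundamental class of `Y`. -/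
def HasDegree (x : C.A X) (q : ℚ) : Prop :=
  ∀ Y : 𝒱.Obj, C.down (snd X Y) (C.up (fst X Y) x) = smul C q (one C Y) ∧
    C.down (fst Y X) (C.up (snd Y X) x) = smul C q (one C Y)

/-- The correspondence `Δ_T - o × T - T × o` of the curve `T` with the zero-cycle `o`. -/
noncomputable def oddProj {T : 𝒱.Obj} (o : C.A T) : Cor C T T :=
  sub C (sub C (diag C T) (ext C o (one C T))) (ext C (one C T) o)

/-- There is a morphism `T' → T` of nonzero degree: the push-forward of the fundamental class of `T'`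
is a nonzero multiple of that of `T`. -/
def Dominates (T' T : 𝒱.Obj) : Prop :=
  ∃ (f : T' ⟶ T) (c : ℚ), c ≠ 0 ∧ C.down f (one C T') = smul C c (one C T)

/-- The self-intersection number of the diagonal of the curve `T` is not `2`; since it is `2 - 2 g`,
the curve has positive genus. -/
def HasGenus (T : 𝒱.Obj) : Prop :=
  ∃ q : ℚ, q ≠ 2 ∧ HasDegree C (C.mul (diag C T) (diag C T)) q

/-- The correspondence `Γ` from `X` to `Y` maps `CH^j(X)` to `CH^i(Y)`. -/
def Maps (Γ : Cor C X Y) (j i : ℕ) : Prop := C.Deg (X.dim + i - j) Γ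

/-- The sum `π 0 + ⋯ + π (m - 1)`. -/
noncomputable def psum (π : ℕ → C.A X) (m : ℕ) : C.A X := ∑ i ∈ Finset.range m, π i

end correspondences

/-! ### Chow groups and Weil cohomology -/

/-- The formal properties of the Chow groups with rational coefficients of the smooth projective
varieties in the class `𝒱`: those of a theory with push-forwards of degree one, with commutative
products; push-forwards along isomorphisms preserve fundamental classes; `CH^0(X)` is generated by
the fundamental class, and `CH^i(X) = 0` for `i > dim X`; every zero-cycle has a degree, and there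
are zero-cycles of degree one (with rational coefficients); some divisor class `h` on `X` (a
hyperplane section) has `deg h^(dim X) ≠ 0`. -/
class IsChowTheory (C : TheoryData.{u, v, 0} 𝒱 ℚ) : Prop where
  isTheory : IsTheory C 1
  mul_comm : ∀ {X : 𝒱.Obj} (a b : C.A X), C.mul a b = C.mul b a
  push_one : ∀ {X Y : 𝒱.Obj} (f : X ⟶ Y) (g : Y ⟶ X), f ≫ g = 𝟙 X → g ≫ f = 𝟙 Y →
    C.down f (one C X) = one C Y
  codim_zero : ∀ (X : 𝒱.Obj) (x : C.A X), C.Deg 0 x → ∃ q : ℚ, x = smul C q (one C X)
  codim_top : ∀ (X : 𝒱.Obj) (i : ℤ) (x : C.A X), C.Deg i x → (X.dim : ℤ) < i → x = zero C X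
  degree : ∀ (X : 𝒱.Obj) (x : C.A X), C.Deg X.dim x → ∃ q : ℚ, HasDegree C x q
  degree_one : ∀ X : 𝒱.Obj, ∃ x : C.A X, C.Deg X.dim x ∧ HasDegree C x 1
  polarized : ∀ X : 𝒱.Obj, ∃ h : C.A X, C.Deg 1 h ∧ ∃ q : ℚ, q ≠ 0 ∧ HasDegree C (h ^ X.dim) q

section weil

variable {C : TheoryData.{u, v, 0} 𝒱 ℚ} {K : Type w} [Field K] (H : WeilTheoryData.{u, v, w} C K)
  {X Y : 𝒱.Obj}

/-- The cycle class of `z`. -/
abbrev cyc (z : C.A X) : H.A X := H.cl z

/-- The value of the orientation (the degree map) of `H` at the class `a`. -/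
abbrev deg (a : H.A X) : K := H.tr X a

/-- `H` is a Weil cohomology theory with coefficients in the field `K`, with cycle class maps on the
Chow groups `C` (Tate twists are suppressed): a theory with push-forwards of degree two; the
orientations are compatible with push-forwards, satisfy Poincare duality and vanish outside the top
degree; the Kunneth formula; the cycle class maps (ring homomorphisms) double the degrees, are
compatible with pull-backs and push-forwards and have central values; and `H^0(X)` is spanned by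
`1 ≠ 0`. -/
class IsWeilTheory : Prop where
  isTheory : IsTheory H.toTheoryData 2
  deg_push : ∀ {X Y : 𝒱.Obj} (f : X ⟶ Y) (a : H.A X), deg H (H.down f a) = deg H a
  nondeg : ∀ {X : 𝒱.Obj} (a : H.A X), (∀ b : H.A X, deg H (H.mul a b) = 0) →
    a = zero H.toTheoryData X
  deg_eq_zero : ∀ (X : 𝒱.Obj) (i : ℤ) (a : H.A X), H.Deg i a → i ≠ 2 * X.dim → deg H a = 0
  kunneth : ∀ (X Y : 𝒱.Obj) (m : ℤ) (c : H.A (X.prod Y)), H.Deg m c →
    IsComb H.toTheoryData (fun c => ∃ (l : ℤ) (a : H.A X) (b : H.A Y), H.Deg l a ∧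
      H.Deg (m - l) b ∧ c = H.mul (H.up (fst X Y) a) (H.up (snd X Y) b)) c
  cyc_mem : ∀ {X : 𝒱.Obj} {i : ℤ} {z : C.A X}, C.Deg i z → H.Deg (2 * i) (cyc H z)
  cyc_pull : ∀ {X Y : 𝒱.Obj} (f : X ⟶ Y) (z : C.A Y), cyc H (C.up f z) = H.up f (cyc H z)
  cyc_push : ∀ {X Y : 𝒱.Obj} (f : X ⟶ Y) (z : C.A X), cyc H (C.down f z) = H.down f (cyc H z)
  cyc_central : ∀ {X : 𝒱.Obj} (z : C.A X) (a : H.A X), H.mul (cyc H z) a = H.mul a (cyc H z)
  codim_zero : ∀ (X : 𝒱.Obj) (a : H.A X), H.Deg 0 a →
    ∃ c : K, a = smul H.toTheoryData c (one H.toTheoryData X)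
  one_ne_zero : ∀ X : 𝒱.Obj, one H.toTheoryData X ≠ zero H.toTheoryData X

/-- The correspondence `Γ` acts as zero on `H^m(X)`. -/
def Kills (Γ : Cor C X Y) (m : ℤ) : Prop :=
  ∀ a : H.A X, H.Deg m a → H.act (cyc H Γ) a = zero H.toTheoryData Y

/-- The class `z ∈ CH^j(X)` is homologically trivial. -/
def HomTriv (j : ℕ) (z : C.A X) : Prop := C.Deg j z ∧ cyc H z = zero H.toTheoryData X

/-- A Chow-Kunneth decomposition of `X`: self-correspondences `π 0, …, π (2 dim X)` of degree zero
(`π i = 0` for `i > 2 dim X`) which are mutually orthogonal idempotents with sum the diagonal, and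
such that `π i` acts as the identity on `H^i(X)` and as zero on `H^m(X)` for `m ≠ i`. -/
structure IsCK (X : 𝒱.Obj) (π : ℕ → Cor C X X) : Prop where
  deg : ∀ i, C.Deg X.dim (π i)
  out : ∀ i, 2 * X.dim < i → π i = zero C (X.prod X)
  idem : ∀ i, comp C (π i) (π i) = π i
  orth : ∀ i j, i ≠ j → comp C (π i) (π j) = zero C (X.prod X)
  sum : psum C π (2 * X.dim + 1) = diag C X
  act_self : ∀ (i : ℕ) (a : H.A X), H.Deg i a → H.act (cyc H (π i)) a = a
  act_ne : ∀ (i : ℕ) (m : ℤ), m ≠ i → Kills H (π i) m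

end weil

/-! ### Subspaces -/

section subspaces

/-- The subspaces of `CH(X)`. -/
abbrev Sub (C : TheoryData.{u, v, 0} 𝒱 ℚ) (X : 𝒱.Obj) : Type v := Submodule ℚ (C.A X)

variable {C : TheoryData.{u, v, 0} 𝒱 ℚ}

/-- The class `z` lies in the subspace `s`. -/
abbrev Mem {X : 𝒱.Obj} (s : Sub C X) (z : C.A X) : Prop := z ∈ s

end subspaces

/-! ### The parts -/

section parts

variable {C : TheoryData.{u, v, 0} 𝒱 ℚ}

/-- `IsFactor 𝒦 Q n T r`: either `T` is a curve in the class `𝒦`, `n = 1` and `r` is the projector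
`Δ - o × T - T × o` on the motive `h^1(T)`, with `o` a zero-cycle of degree one; or `Q n T r` holds
(`T` is a variety of dimension `n ≥ 2` and `r` is a projector on a part of weight `n` of its
motive). -/
inductive IsFactor (𝒦 : 𝒱.Obj → Prop) (Q : ℕ → ∀ S : 𝒱.Obj, Cor C S S → Prop) :
    ℕ → (T : 𝒱.Obj) → Cor C T T → Prop
  | curve (T : 𝒱.Obj) (o : C.A T) (hT : 𝒦 T) (ho : C.Deg 1 o) (hd : HasDegree C o 1) :
      IsFactor 𝒦 Q 1 T (oddProj C o)
  | variety (n : ℕ) (S : 𝒱.Obj) (q : Cor C S S) (h : Q n S q) : IsFactor 𝒦 Q n S q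

/-- `IsPart 𝒦 Q n P p`: the variety `P` is a product of varieties `T` and `p` is the external
product of projectors `r` with `IsFactor 𝒦 Q m T r`; the number `n`, the weight, is the sum of the
`m`. So `(P, p)` is a motive `h^1(T_1) ⊗ ⋯ ⊗ h^1(T_s) ⊗ (S_1, q_1) ⊗ ⋯ ⊗ (S_r, q_r)`, the factors in
any order, and its weight is the dimension of `P`. -/
inductive IsPart (𝒦 : 𝒱.Obj → Prop) (Q : ℕ → ∀ S : 𝒱.Obj, Cor C S S → Prop) :
    ℕ → (P : 𝒱.Obj) → Cor C P P → Prop
  | factor (n : ℕ) (T : 𝒱.Obj) (r : Cor C T T) (hr : IsFactor 𝒦 Q n T r) : IsPart 𝒦 Q n T r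
  | prod (n m : ℕ) (P T : 𝒱.Obj) (p : Cor C P P) (r : Cor C T T)
      (hp : IsPart 𝒦 Q n P p) (hr : IsFactor 𝒦 Q m T r) : IsPart 𝒦 Q (n + m) (P.prod T) (tens C p r)

/-- `Factors 𝒦 Q m X w c`: the self-correspondence `c` of degree zero of `X` factors through the
`i`-th twist, `i ≥ 0`, of a part `(P, p)` of weight `n ≤ m`, and `w = n + 2 i`; or it factors
through the `i`-th power of the Lefschetz motive, and `w = 2 i`. -/
inductive Factors (𝒦 : 𝒱.Obj → Prop) (Q : ℕ → ∀ S : 𝒱.Obj, Cor C S S → Prop) (m : ℕ∞)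
    (X : 𝒱.Obj) : ℕ → Cor C X X → Prop
  | part (n i : ℕ) (P : 𝒱.Obj) (p : Cor C P P) (a : Cor C X P) (b : Cor C P X)
      (hp : IsPart 𝒦 Q n P p) (hn : (n : ℕ∞) ≤ m) (ha : C.Deg (X.dim - i) a) (hb : C.Deg (n + i) b) :
      Factors 𝒦 Q m X (n + 2 * i) (comp C a (comp C p b))
  | lefschetz (i : ℕ) (a b : C.A X) (ha : C.Deg (X.dim - i) a) (hb : C.Deg i b) :
      Factors 𝒦 Q m X (2 * i) (ext C a b)

variable (C)

/-- The property of the Chow groups of varieties over an uncountable algebraically closed field that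
a class on `X × T`, `T` a curve in the class `𝒦`, whose restrictions to all the fibres `X × t`
vanish, is a sum of classes `x × t` (Bloch and Srinivas). The restriction of `z` to the fibre
`X × t` is the push-forward to `X` of the intersection of `z` with `X × t`. -/
def FibreProperty (𝒦 : 𝒱.Obj → Prop) : Prop :=
  ∀ (X T : 𝒱.Obj) (j : ℤ) (z : Cor C X T), 𝒦 T → C.Deg j z →
    (∀ t : C.A T, C.Deg 1 t → C.down (fst X T) (C.mul z (C.up (snd X T) t)) = zero C X) →
    IsComb C (fun c => ∃ (x : C.A X) (t : C.A T), C.Deg (j - 1) x ∧ C.Deg 1 t ∧ c = ext C x t) z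

/-- The analogous property for a pencil of curves of the class `𝒦` on the surface `S` through the
point `x`: a class on `P × S` whose restrictions to `P × T` vanish, for all the curves `T → S` which
carry a zero-cycle `o` of degree one with image `x` (such as the smooth members of the pencil), is a
sum of push-forwards of classes on products `P × T` with curves `T → S` (the normalisations of
members of the pencil). -/
def CurvePencilProperty (𝒦 : 𝒱.Obj → Prop) {S : 𝒱.Obj} (x : C.A S) : Prop :=
  ∀ (P : 𝒱.Obj) (j : ℤ) (z : Cor C P S), C.Deg j z →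
    (∀ (T : 𝒱.Obj) (i : T ⟶ S) (o : C.A T), 𝒦 T → C.Deg 1 o → HasDegree C o 1 →
      C.down i o = x → C.up (prodMap (𝟙 P) i) z = zero C (P.prod T)) →
    IsComb C (fun c => ∃ (T : 𝒱.Obj) (i : T ⟶ S) (w : Cor C P T), 𝒦 T ∧
      C.Deg (j - 1) w ∧ c = C.down (prodMap (𝟙 P) i) w) z

/-- The self-correspondence `z` of the surface `S` factors through the motives `h^1(T)` (twisted
`i` times) of curves `T` in the class `𝒦`: it is a sum of compositions
`g ∘ (Δ - o × T - T × o) ∘ f` with `f ∈ CH^(2-i)(S × T)` and `g ∈ CH^(1+i)(T × S)`. -/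
def ThroughOdd (𝒦 : 𝒱.Obj → Prop) (S : 𝒱.Obj) (i : ℤ) (z : Cor C S S) : Prop :=
  IsComb C (fun c => ∃ (T : 𝒱.Obj) (o : C.A T) (f : Cor C S T) (g : Cor C T S), 𝒦 T ∧
    C.Deg 1 o ∧ HasDegree C o 1 ∧ C.Deg (2 - i) f ∧ C.Deg (1 + i) g ∧
    c = comp C f (comp C (oddProj C o) g)) z

variable {C}

/-- The class `c` on `P × X` is the push-forward of a class of codimension `j - 1` on `P × Y`, where
`i : Y → X` is a morphism, `dim Y = n - 1`, such that `q ∘ i_*` vanishes on the parts of weight less
than `n - 1` of the motive of `Y`: the diagonal of `Y` is the sum of a correspondence `e` with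
`q ∘ i_* ∘ e = 0` and of correspondences which factor through effective twists of parts and through
powers of the Lefschetz motive, of weights `≥ n - 1`. -/
def ComesFromDivisor (𝒦 : 𝒱.Obj → Prop) (Q : ℕ → ∀ S : 𝒱.Obj, Cor C S S → Prop) (n : ℕ)
    {X : 𝒱.Obj} (q : Cor C X X) (P : 𝒱.Obj) (j : ℤ) (c : Cor C P X) : Prop :=
  ∃ (Y : 𝒱.Obj) (i : Y ⟶ X) (w : Cor C P Y) (e : Cor C Y Y), Y.dim + 1 = n ∧ C.Deg (j - 1) w ∧
    comp C e (comp C (graph C i) q) = zero C (Y.prod X) ∧
    IsComb C (fun c => ∃ w : ℕ, n - 1 ≤ w ∧ Factors 𝒦 Q ⊤ Y w c) (sub C (diag C Y) e) ∧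
    c = C.down (prodMap (𝟙 P) i) w

/-- The pencil property for the projector `q` on a part of weight `n = dim X` of the motive of `X`.
A class on `P × X` whose restrictions to `P × Y` vanish, for all `i : Y → X` with a factor `(Y, r)`
of weight `n - 1` through which the restriction `i^* ∘ q` factors (the smooth members `Y` of a pencil
of divisors on `X`), is a sum of push-forwards of classes on products `P × Y` with `i : Y → X` as in
`ComesFromDivisor` (the resolutions `Y` of the components of the members of the pencil). -/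
def HasPencil (𝒦 : 𝒱.Obj → Prop) (Q : ℕ → ∀ S : 𝒱.Obj, Cor C S S → Prop) (n : ℕ)
    {X : 𝒱.Obj} (q : Cor C X X) : Prop :=
  ∀ (P : 𝒱.Obj) (j : ℤ) (z : Cor C P X), C.Deg j z →
    (∀ (Y : 𝒱.Obj) (i : Y ⟶ X) (r : Cor C Y Y), IsFactor 𝒦 Q (n - 1) Y r →
      comp C (comp C q (cograph C i)) r = comp C q (cograph C i) →
      C.up (prodMap (𝟙 P) i) z = zero C (P.prod Y)) →
    IsComb C (ComesFromDivisor 𝒦 Q n q P j) z

variable {K : Type w} [Field K] (H : WeilTheoryData.{u, v, w} C K)

/-- The correspondence `q` is the projector on the transcendental part `t_2(S)` of the motive of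
the surface `S` (Murre; Kahn, Murre, Pedrini): `q` is a self-dual idempotent which acts as zero on
divisors, and there are a zero-cycle `x` of degree one (a point), with a pencil of curves through
it, and a Chow-Kunneth decomposition `π` of `S` such that `π 0 = x × S`, `π 4 = S × x`, `π 1` and
`π 3` factor through the motives `h^1` of curves, `q` is a direct summand of `π 2`, and `π 2 - q`
is a linear combination of products of divisors. The curves are taken in the class `𝒦`. -/
structure IsTranscendental (𝒦 : 𝒱.Obj → Prop) (S : 𝒱.Obj) (q : Cor C S S) : Prop where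
  dim_eq : S.dim = 2
  deg : C.Deg 2 q
  idem : comp C q q = q
  self_dual : transpose C q = q
  divisor : ∀ D : C.A S, C.Deg 1 D → C.act q D = zero C S
  exists_ck : ∃ (x : C.A S) (π : ℕ → Cor C S S), C.Deg 2 x ∧ HasDegree C x 1 ∧
    CurvePencilProperty C 𝒦 x ∧ IsCK H S π ∧ π 0 = ext C x (one C S) ∧ π 4 = ext C (one C S) x ∧
    comp C (π 2) q = q ∧
    IsComb C (fun c => ∃ D D' : C.A S, C.Deg 1 D ∧ C.Deg 1 D' ∧ c = ext C D D')
      (sub C (π 2) q) ∧ ThroughOdd C 𝒦 S 0 (π 1) ∧ ThroughOdd C 𝒦 S 1 (π 3)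

/-- The correspondence `q` is a projector on a primitive part of weight `n = dim X ≥ 2` of the
motive of `X`: it is a self-dual idempotent which acts as zero on `H^m(X)` for `m ≠ n` and has the
pencil property, and the motive of `X` is a sum of effective twists of direct summands of parts of
weight at most `n` and of powers of the Lefschetz motive.

For example, `X` is a smooth complete intersection of degree `d` in a projective space with the
class `h` of a hyperplane section, and `q = Δ - ∑ (h^(n-i) × h^i) / d` is the projector on the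
primitive part, or `X` is the blow-up of a complete intersection in its only singular point, an
ordinary double point, with exceptional divisor `E`, of self-intersection number `e = (E^n)`, and
`q = Δ - ∑ (h^(n-i) × h^i) / d - ∑ (E^(n-i) × E^i) / e`, the last sum over `0 < i < n` (if the
varieties are not cellular); the pencil is a general pencil of hyperplane sections. -/
structure IsPrimitivePart (𝒦 : 𝒱.Obj → Prop) (Q : ℕ → ∀ S : 𝒱.Obj, Cor C S S → Prop) (n : ℕ)
    (X : 𝒱.Obj) (q : Cor C X X) : Prop where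
  two_le : 2 ≤ n
  dim_eq : X.dim = n
  deg : C.Deg n q
  idem : comp C q q = q
  self_dual : transpose C q = q
  kills : ∀ m : ℤ, m ≠ n → Kills H q m
  pencil : HasPencil 𝒦 Q n q
  diagonal : IsComb C (fun c => ∃ w : ℕ, Factors 𝒦 Q n X w c) (diag C X)

/-- The curves in the class `𝒦` and the varieties `S` with projectors `q` such that `Q n S q` are
admissible: the members of `𝒦` are curves, any two of them are dominated by a third one, some of
them has positive genus, and they have the property of Bloch and Srinivas; and `Q n S q` implies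
that `S` is a surface, `n = 2` and `q` is the projector on its transcendental part, or that `q` is
the projector on a primitive part of weight `n = dim S`. -/
structure IsAdmissible (𝒦 : 𝒱.Obj → Prop) (Q : ℕ → ∀ S : 𝒱.Obj, Cor C S S → Prop) : Prop where
  curve : ∀ T : 𝒱.Obj, 𝒦 T → T.dim = 1
  directed : ∀ T T' : 𝒱.Obj, 𝒦 T → 𝒦 T' → ∃ T'', 𝒦 T'' ∧ Dominates C T'' T ∧ Dominates C T'' T'
  genus : ∃ T : 𝒱.Obj, 𝒦 T ∧ HasGenus C T
  fibre : FibreProperty C 𝒦
  variety : ∀ (n : ℕ) (S : 𝒱.Obj) (q : Cor C S S), Q n S q →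
    n = 2 ∧ IsTranscendental H 𝒦 S q ∨ IsPrimitivePart H 𝒦 Q n S q

/-- The variety `P` is a product of curves in the class `𝒦` and of varieties `S` such that `Q n S q`
for some `n` and `q`. -/
inductive IsProduct (𝒦 : 𝒱.Obj → Prop) (Q : ℕ → ∀ S : 𝒱.Obj, Cor C S S → Prop) :
    𝒱.Obj → Prop
  | factor (T : 𝒱.Obj) (hT : 𝒦 T ∨ ∃ n q, Q n T q) : IsProduct 𝒦 Q T
  | prod (P T : 𝒱.Obj) (hP : IsProduct 𝒦 Q P) (hT : 𝒦 T ∨ ∃ n q, Q n T q) :
      IsProduct 𝒦 Q (P.prod T)

/-- The Chow motive of the variety `X` is a direct summand of a finite direct sum of twists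
`h(P)(-i)`, `i ≥ 0`, of Chow motives of products `P`, of dimension at most `d`, of curves in the
class `𝒦` and of varieties `S` with `Q n S q` for some `n` and `q`: the diagonal of `X` is a linear
combination of compositions `b ∘ a` of correspondences `a` from `X` to `P` and `b` from `P` to `X` of
degrees `-i` and `i`. -/
def IsDominated (𝒦 : 𝒱.Obj → Prop) (Q : ℕ → ∀ S : 𝒱.Obj, Cor C S S → Prop) (d : ℕ∞)
    (X : 𝒱.Obj) : Prop :=
  IsComb C (fun c => ∃ (P : 𝒱.Obj) (i : ℕ) (a : Cor C X P) (b : Cor C P X), IsProduct 𝒦 Q P ∧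
    (P.dim : ℕ∞) ≤ d ∧ C.Deg (X.dim - i) a ∧ C.Deg (P.dim + i) b ∧ c = comp C a b) (diag C X)

end parts

end Pool.Agent.N164.Prim
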