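import Pool.Agent.N164.BB.Parts

/-!
# The vanishing theorem for the parts
-/

set_option autoImplicit false

open CategoryTheory AlgebraicGeometry

universe u v w

namespace Pool.Agent.N164.BB

open Pool.Agent.H914 Pool.Agent.H914.VarClass Pool.Agent.H914.VarClass.Obj Pool.Agent.W492.BB
  Pool.Agent.W550.Corr Pool.Agent.TH133 Pool.Agent.Y148.BB Pool.Agent.X308.S

set_option linter.unusedSectionVars false
set_option linter.unusedVariables false

variable {k : Type u} [Field k] {𝒱 : VarClass k}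

section chow

variable {C : TheoryData.{u, v, 0} 𝒱 ℚ} [hC : IsChowProj C] {S S' T X Y Z W P : 𝒱.Obj}
  {𝒦 : 𝒱.Obj → Prop} {Q : ℕ → ∀ S : 𝒱.Obj, C.A (S.prod S) → Prop}

/-- There are no cycles of codimension `j` on the parts of weight `n > 2 j`. -/
def V1At (𝒦 : 𝒱.Obj → Prop) (Q : ℕ → ∀ S : 𝒱.Obj, C.A (S.prod S) → Prop) (j : ℤ) : Prop :=
  ∀ (n : ℕ) (P : 𝒱.Obj) (p : C.A (P.prod P)), IsPart 𝒦 Q n P p → 2 * j < n →
    ∀ z ∈ C.gr P j, C.act p z = z → z = 0

include hC

/-- The action of `p ⊗ r` for self-dual `p`. -/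
lemma act_tens_mid {p : C.A (P.prod P)} {r : C.A (T.prod T)} (hp : tp C p = p)
    (z : C.A (P.prod T)) : C.act (tens C p r) z = C.comp (C.comp p z) r := by
  rw [act_tens C (ch_comm C), hp]

lemma act_tens_ext_mid {p : C.A (P.prod P)} {r : C.A (T.prod T)} (x : C.A P) (t : C.A T) :
    C.act (tens C p r) (C.ext x t) = C.ext (C.act p x) (C.act r t) :=
  act_tens_ext C p r (fun f c => ch_comm C _ _) x t

/-- A zero-cycle of degree one. -/
lemma exists_zeroCycle (X : 𝒱.Obj) : ∃ o : C.A X, C.Deg X.dim o ∧ HasDegree C o 1 := by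
  obtain ⟨o, ho, ho1, ho2⟩ := hC.exists_deg_one X
  exact ⟨o, ho, fun Y => by rw [one_smul]; exact ⟨ho2 Y, ho1 Y⟩⟩

/-- A zero-cycle of degree one on a curve. -/
lemma exists_point (hT : T.dim = 1) : ∃ o : C.A T, C.Deg 1 o ∧ HasDegree C o 1 := by
  obtain ⟨o, ho, hd⟩ := exists_zeroCycle (C := C) T
  refine ⟨o, ?_, hd⟩
  rw [hT] at ho
  exact_mod_cast ho

lemma dg_eq_odd (o : C.A T) : dg C T = oddProj C o + C.ext o 1 + C.ext 1 o := by
  rw [oddProj]
  abel

lemma tp_graph (f : X ⟶ Y) : tp C (C.graph f) = C.cograph f := by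
  have e1 : Obj.lift (𝟙 X) f ≫ sw X Y = Obj.lift f (𝟙 X) := by
    apply prod_ext <;> simp [sw, comp_lift]
  rw [tp_eq_push, TheoryData.graph, ← C.push_comp, e1]
  rfl

lemma push_mem_one {Y X : 𝒱.Obj} (i : Y ⟶ X) (h : Y.dim + 1 = X.dim) : C.Deg 1 (C.push i 1) := by
  have h1 := C.push_mem i (C.one_mem Y)
  have e1 : (0 : ℤ) + 1 * ((X.dim : ℤ) - (Y.dim : ℤ)) = 1 := by omega
  rwa [e1] at h1

/-- Vanishing on products of two parts. -/
lemma V1At.prod {l : ℤ} (hV : V1At 𝒦 Q l) {P P' : 𝒱.Obj} {n n' : ℕ} {p : C.A (P.prod P)}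
    {p' : C.A (P'.prod P')} (h : IsPart 𝒦 Q n P p) (h' : IsPart 𝒦 Q n' P' p')
    (hdim : ∀ {n : ℕ} {P : 𝒱.Obj} {p : C.A (P.prod P)}, IsPart 𝒦 Q n P p → P.dim = n)
    (hl : 2 * l < ((n + n' : ℕ) : ℤ)) {z : C.A (P.prod P')} (hz : z ∈ C.gr (P.prod P') l)
    (hpz : C.act (tens C p p') z = z) : z = 0 := by
  obtain ⟨P'', p'', u, v, hp'', hiso⟩ := exists_part_prod h h'
  have h1 : C.act u z = 0 := by
    apply hV (n + n') P'' p'' hp'' hl
    · exact act_deg hiso.u_mem hz (by ring)
    · rw [← C.act_comp, ← hiso.comm, C.act_comp, hpz]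
  have h2 : C.act v (C.act u z) = z := by
    rw [← C.act_comp, hiso.uv, act_dg]
  rw [← h2, h1, TheoryData.act_map_zero]

/-- Correspondences of weights `≥ c` act as zero on cycles of codimension `l`, `2 l < c`. -/
lemma high_act_zero {l : ℤ} {c : ℕ} (hV : ∀ i : ℕ, V1At 𝒦 Q (l - i))
    (hidem : ∀ {n : ℕ} {P : 𝒱.Obj} {p : C.A (P.prod P)}, IsPart 𝒦 Q n P p →
      P.dim = n ∧ p ∈ C.gr (P.prod P) n ∧ C.comp p p = p)
    (hl : 2 * l < c) {e : C.A (Y.prod Y)} (he : e ∈ ⨆ w : ℕ, weightPart 𝒦 Q ⊤ Y (c + w))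
    {y : C.A Y} (hy : y ∈ C.gr Y l) : C.act e y = 0 := by
  have h1 : (⨆ w : ℕ, weightPart 𝒦 Q ⊤ Y (c + w)) ≤ LinearMap.ker (LinearMap.flip (actB C) y) := by
    refine iSup_le fun w => ?_
    unfold weightPart
    rw [Submodule.span_le, Set.union_subset_iff]
    constructor
    · rintro _ ⟨n, i, P, p, a, b, hP, -, hw, ha, hb, rfl⟩
      obtain ⟨h1, h2, h3⟩ := hidem hP
      rw [SetLike.mem_coe, LinearMap.mem_ker, LinearMap.flip_apply, actB_apply, C.act_comp,
        C.act_comp]
      have h4 : C.act p (C.act a y) = 0 := by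
        apply hV i n P p hP (by omega)
        · exact act_deg h2 (act_deg (j := l - i) ha hy (by ring)) (by rw [h1]; ring)
        · rw [← C.act_comp, h3]
      rw [h4, TheoryData.act_map_zero]
    · rintro _ ⟨i, a, b, hw, ha, hb, rfl⟩
      rw [SetLike.mem_coe, LinearMap.mem_ker, LinearMap.flip_apply, actB_apply]
      exact act_ext_zero_of_lt (i := (Y.dim : ℤ) - i + l) (C.mul_mem ha hy) (by omega)
  have h2 := h1 he
  rw [LinearMap.mem_ker, LinearMap.flip_apply, actB_apply] at h2
  exact h2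

end chow

variable {C : TheoryData.{u, v, 0} 𝒱 ℚ} [hC : IsChowProj C] {K : Type w} [Field K]
  {H : WeilTheoryData.{u, v, w} C K} [hH : IsWeilProj H] {S S' T X Y Z W P : 𝒱.Obj}
  {𝒦 : 𝒱.Obj → Prop} {Q : ℕ → ∀ S : 𝒱.Obj, C.A (S.prod S) → Prop}
  {N : ∀ X : 𝒱.Obj, ℕ → Submodule ℚ (C.A X)}

/-- There are no homologically trivial cycles of codimension `j` on the parts of weight `2 j`. -/
def V2At (H : WeilTheoryData.{u, v, w} C K) (𝒦 : 𝒱.Obj → Prop)
    (Q : ℕ → ∀ S : 𝒱.Obj, C.A (S.prod S) → Prop) (j : ℤ) : Prop :=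
  ∀ (n : ℕ) (P : 𝒱.Obj) (p : C.A (P.prod P)), IsPart 𝒦 Q n P p → (n : ℤ) = 2 * j →
    ∀ z ∈ C.gr P j, H.cl z = 0 → C.act p z = z → z = 0

include hC hH

lemma kills_of_cl {Γ : C.A (X.prod Y)} (h : H.cl Γ = 0) (m : ℤ) : Kills H Γ m := by
  intro a _
  rw [h, TheoryData.act_zero]

/-- The projector on `h^1(T)` kills cycle classes. -/
lemma cl_act_odd (hT : T.dim = 1) {o : C.A T} (ho : C.Deg 1 o) (hd : HasDegree C o 1) {t : C.A T}
    {i : ℤ} (ht : t ∈ C.gr T i) : H.cl (C.act (oddProj C o) t) = 0 := by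
  rw [cl_act H]
  exact (curveCK_isCK H hT ho hd).act_ne 1 (2 * i) _ (by omega) (H.cl_mem ht)

/-- The reduction for a last factor which is a curve. -/
lemma zero_of_curve (hF : FibreProperty C 𝒦) {n : ℕ} {p : C.A (P.prod P)}
    (hp : IsMiddle H n p) (hT : T.dim = 1) (h𝒦 : 𝒦 T) {o : C.A T} (ho : C.Deg 1 o)
    (hd : HasDegree C o 1) {j : ℤ} {z : C.A (P.prod T)} (hz : z ∈ C.gr (P.prod T) j)
    (hpz : C.act (tens C p (oddProj C o)) z = z)
    (h1 : ∀ t ∈ C.gr T 1, H.cl t = 0 → ∀ y ∈ C.gr P j, C.act p y = y →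
      y = C.act p (C.act (tp C z) t) → y = 0)
    (h2 : ∀ x ∈ C.gr P (j - 1), C.act p x = x → x = 0) : z = 0 := by
  have hzz : z = C.comp (C.comp p z) (oddProj C o) := by
    rw [← act_tens_mid hp.tp, hpz]
  have htz : tp C z = C.comp (oddProj C o) (C.comp (tp C z) p) := by
    conv_lhs => rw [hzz]
    rw [tp_comp', tp_comp', hp.tp, tp_odd]
  have hfib : ∀ t : C.A T, C.Deg 1 t → C.down (fst P T) (C.mul z (C.up (snd P T) t)) = 0 := by
    intro t ht
    have e1 : C.down (fst P T) (C.mul z (C.up (snd P T) t)) = C.act (tp C z) t :=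
      (act_tp C z t).symm
    have e2 : C.act (tp C z) t = C.act p (C.act (tp C z) (C.act (oddProj C o) t)) := by
      conv_lhs => rw [htz]
      rw [C.act_comp, C.act_comp]
    rw [e1]
    have hodd : C.act (oddProj C o) t ∈ C.gr T 1 := by
      have := odd_mem (C := C) hT ho
      exact act_deg this ht (by ring)
    apply h1 _ hodd (cl_act_odd hT ho hd ht) _ _ _ e2
    · exact act_deg (tp_mem C hz) ht (by rw [hT]; push_cast; ring)
    · rw [e2, ← C.act_comp p p, hp.idem]
  have h3 := hF P T j z h𝒦 hz hfib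
  have h4 : Submodule.span ℚ {c | ∃ (x : C.A P) (t : C.A T), C.Deg (j - 1) x ∧ C.Deg 1 t ∧
      c = C.ext x t} ≤ LinearMap.ker (C.actL (tens C p (oddProj C o))) := by
    rw [Submodule.span_le]
    rintro _ ⟨x, t, hx, ht, rfl⟩
    rw [SetLike.mem_coe, LinearMap.mem_ker, C.actL_apply, act_tens_ext_mid]
    have h5 : C.act p x = 0 := by
      apply h2 _ (act_deg hp.deg hx (by rw [hp.dim]; ring))
      rw [← C.act_comp, hp.idem]
    rw [h5, TheoryData.ext_zero_left]
  have h5 := h4 h3
  rw [LinearMap.mem_ker, C.actL_apply, hpz] at h5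
  exact h5

/-- The projector on the transcendental part of a surface has the pencil property. -/
lemma IsTranscendental.hasPencil (h𝒦 : ∀ T, 𝒦 T → T.dim = 1) {q : C.A (S.prod S)}
    (hq : IsTranscendental H 𝒦 S q) : HasPencil 𝒦 Q 2 q := by
  obtain ⟨x, π, hx, hx1, hpen, hck, hπ0, hπ4, hπq, -⟩ := hq.exists_ck
  -- `q` kills the point and the divisors
  have hqx : C.act q x = 0 := by
    have e1 : C.act (π 4) x = x := by
      rw [hπ4, act_ext' (q := 1) (by rwa [one_mul]), one_smul]
    rw [← hπq, C.act_comp, ← e1, ← C.act_comp (π 4) (π 2), hck.orth 4 2 (by norm_num),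
      TheoryData.act_zero, TheoryData.act_map_zero]
  have hpush : ∀ {T : 𝒱.Obj} (hT : T.dim = 1) (i : T ⟶ S), C.Deg 1 (C.push i 1) :=
    fun hT i => push_mem_one i (by rw [hT, hq.dim_eq])
  intro P j z hz h1
  have h2 := hpen P j z hz ?_
  · refine Submodule.span_mono ?_ h2
    rintro _ ⟨T, i, w, hT, hw, rfl⟩
    have hT1 := h𝒦 T hT
    obtain ⟨o, ho, hd⟩ := exists_point (C := C) hT1
    refine ⟨T, i, w, C.ext o 1, by rw [hT1], hw, ?_, ?_, rfl⟩
    · rw [ext_comp, C.act_comp, C.act_graph, hq.divisor _ (hpush hT1 i),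
        TheoryData.ext_zero_right]
    · have e1 : dg C T - C.ext o 1 = oddProj C o + C.ext 1 o := by
        rw [dg_eq_odd o]
        abel
      have hdg := dg_mem C T
      rw [hT1] at hdg
      have hone := C.one_mem T
      rw [e1]
      refine Submodule.add_mem _ (Submodule.mem_iSup_of_mem 0 ?_) (Submodule.mem_iSup_of_mem 1 ?_)
      · apply Submodule.subset_span
        refine Or.inl ⟨1, 0, T, oddProj C o, dg C T, dg C T, .factor 1 T _ (.curve T o hT ho hd),
          le_top, by norm_num, ?_, ?_, ?_⟩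
        · rw [hT1]
          simpa using hdg
        · simpa using hdg
        · rw [comp_dg, dg_comp]
      · apply Submodule.subset_span
        refine Or.inr ⟨1, 1, o, by norm_num, ?_, ?_, rfl⟩
        · rw [hT1]
          simpa using hone
        · exact_mod_cast ho
  · intro T i o hT ho hd hox
    have hT1 := h𝒦 T hT
    refine h1 T i (oddProj C o) (.curve T o hT ho hd) ?_
    have e0 : C.comp (C.comp q (C.cograph i)) (C.ext o (1 : C.A T)) = 0 := by
      rw [comp_ext, ← tp_graph, tp_comp', tp_tp, hq.self_dual, C.act_comp, C.act_graph]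
      change C.ext (C.act q (C.down i o)) (1 : C.A T) = 0
      rw [hox, hqx, TheoryData.ext_zero_left]
    have e2 : C.comp (C.comp q (C.cograph i)) (C.ext (1 : C.A T) o) = 0 := by
      rw [comp_ext, ← tp_graph, tp_comp', tp_tp, hq.self_dual, C.act_comp, C.act_graph,
        hq.divisor _ (hpush hT1 i), TheoryData.ext_zero_left]
    rw [oddProj, comp_sub, comp_sub, comp_dg, e0, e2, sub_zero, sub_zero]

/-- The reduction for a last factor with a pencil. -/
lemma zero_of_pencil (hA : IsAdmissible H 𝒦 Q) {n n' : ℕ} {p : C.A (P.prod P)}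
    (hP : IsPart 𝒦 Q n' P p) {q : C.A (X.prod X)} (hq : IsMiddle H n q)
    (hpen : HasPencil 𝒦 Q n q) {j : ℤ} {z : C.A (P.prod X)} (hz : z ∈ C.gr (P.prod X) j)
    (hpz : C.act (tens C p q) z = z) (hn : 2 * j ≤ n' + n) (hn0 : 0 < n)
    (h1 : ∀ (Y : 𝒱.Obj) (i : Y ⟶ X) (r : C.A (Y.prod Y)), IsFactor 𝒦 Q (n - 1) Y r →
      ∀ y ∈ C.gr (P.prod Y) j, C.act (tens C p r) y = y →
      y = C.pull (prodMap (𝟙 P) i) z → y = 0)
    (hV : ∀ l : ℤ, l < j → V1At 𝒦 Q l) : z = 0 := by
  have hp := hP.middle hA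
  have hzz : z = C.comp (C.comp p z) q := by
    rw [← act_tens_mid hp.tp, hpz]
  have hpz' : C.comp p z = z := by
    conv_lhs => rw [hzz]
    rw [← comp_assoc, ← comp_assoc, hp.idem]
    exact hzz.symm
  have hzq : C.comp z q = z := by
    conv_lhs => rw [hzz]
    rw [comp_assoc, hq.idem]
    exact hzz.symm
  have h4 := hpen P j z hz ?_
  · have h5 : Submodule.span ℚ {c | ∃ (Y : 𝒱.Obj) (i : Y ⟶ X) (w : C.A (P.prod Y))
        (e : C.A (Y.prod Y)), Y.dim + 1 = n ∧ C.Deg (j - 1) w ∧
        C.comp e (C.comp (C.graph i) q) = 0 ∧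
        dg C Y - e ∈ ⨆ w : ℕ, weightPart 𝒦 Q ⊤ Y (n - 1 + w) ∧
        c = C.down (prodMap (𝟙 P) i) w} ≤ LinearMap.ker (C.actL (tens C p q)) := by
      rw [Submodule.span_le]
      rintro _ ⟨Y, i, w, e, hY, hw, he, hde, rfl⟩
      rw [SetLike.mem_coe, LinearMap.mem_ker, C.actL_apply, act_tens_mid hp.tp]
      change C.comp (C.comp p (C.push (prodMap (𝟙 P) i) w)) q = 0
      rw [← comp_graph, ← comp_assoc]
      have hw' : C.comp p w ∈ C.gr (P.prod Y) (j - 1) :=
        comp_deg hp.deg hw (by rw [hp.dim]; ring)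
      set w' := C.comp p w with hw'd
      have hpw : C.comp p w' = w' := by rw [hw'd, ← comp_assoc, hp.idem]
      have e1 : C.comp (C.graph i) q = C.comp (dg C Y - e) (C.comp (C.graph i) q) := by
        rw [sub_comp, dg_comp, he, sub_zero]
      have e2 : C.comp w' (dg C Y - e) = 0 := by
        have h6 : (⨆ w : ℕ, weightPart 𝒦 Q ⊤ Y (n - 1 + w)) ≤ LinearMap.ker (compL C w') := by
          refine iSup_le fun m => ?_
          unfold weightPart
          rw [Submodule.span_le, Set.union_subset_iff]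
          constructor
          · rintro _ ⟨n'', l, P'', p'', a, b, hP'', -, hm, ha, hb, rfl⟩
            have hp'' := hP''.middle hA
            rw [SetLike.mem_coe, LinearMap.mem_ker, compL_apply, ← comp_assoc, ← comp_assoc]
            have h7 : C.comp (C.comp w' a) p'' = 0 := by
              refine V1At.prod (hV (j - 1 - l) (by omega)) hP hP''
                (fun h => (h.middle hA).dim) (by push_cast; omega) ?_ ?_
              · exact comp_deg (comp_deg (j := j - 1 - l) hw' ha (by ring)) hp''.deg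
                  (by rw [hp''.dim]; ring)
              · rw [act_tens_mid hp.tp, ← comp_assoc, ← comp_assoc, hpw, comp_assoc, hp''.idem]
            rw [h7, zero_comp]
          · rintro _ ⟨l, a, b, hm, ha, hb, rfl⟩
            rw [SetLike.mem_coe, LinearMap.mem_ker, compL_apply, comp_ext]
            have h7 : C.act (tp C w') a = 0 := by
              apply hV (j - 1 - l) (by omega) n' P p hP (by omega)
              · exact act_deg (tp_mem C hw') ha (by ring)
              · conv_lhs => rw [← hp.tp]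
                rw [← C.act_comp, ← tp_comp', hpw]
            rw [h7, TheoryData.ext_zero_left]
        have h8 := h6 hde
        rwa [LinearMap.mem_ker, compL_apply] at h8
      rw [comp_assoc C w', e1, ← comp_assoc C w', e2, zero_comp]
    have h6 := h5 h4
    rw [LinearMap.mem_ker, C.actL_apply, hpz] at h6
    exact h6
  · intro Y i r hr hir
    change C.pull (prodMap (𝟙 P) i) z = 0
    refine h1 Y i r hr _ (C.pull_mem _ hz) ?_ rfl
    have hy : C.pull (prodMap (𝟙 P) i) z = C.comp z (C.cograph i) := by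
      rw [pull_eq_comp, tp_graph]
    rw [act_tens_mid hp.tp, hy, ← comp_assoc, hpz']
    conv_lhs => rw [← hzq]
    rw [comp_assoc C z q, comp_assoc C z, hir, ← comp_assoc, hzq]

/-- The reduction for a single factor with a pencil. -/
lemma zero_of_pencil_alone (hA : IsAdmissible H 𝒦 Q) {n : ℕ} {q : C.A (X.prod X)}
    (hq : IsMiddle H n q) (hpen : HasPencil 𝒦 Q n q) {j : ℤ} {z : C.A X} (hz : z ∈ C.gr X j)
    (hqz : C.act q z = z) (hn : 2 * j ≤ n) (hn0 : 0 < n)
    (h1 : ∀ (Y : 𝒱.Obj) (i : Y ⟶ X) (r : C.A (Y.prod Y)), IsFactor 𝒦 Q (n - 1) Y r →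
      ∀ y ∈ C.gr Y j, C.act r y = y → y = C.pull i z → y = 0)
    (hV : ∀ l : ℤ, l < j → V1At 𝒦 Q l) : z = 0 := by
  obtain ⟨a, ha, had⟩ := exists_zeroCycle (C := C) X
  have hz0 : C.ext (1 : C.A X) z ∈ C.gr (X.prod X) j := by
    have := ext_mem' (C := C) (C.one_mem X) hz
    rwa [zero_add] at this
  have hza : C.act (C.ext (1 : C.A X) z) a = z := by
    rw [act_ext' (q := 1) (by rwa [one_mul]), one_smul]
  have h4 := hpen X j (C.ext 1 z) hz0 ?_
  · have h5 : Submodule.span ℚ {c | ∃ (Y : 𝒱.Obj) (i : Y ⟶ X) (w : C.A (X.prod Y))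
        (e : C.A (Y.prod Y)), Y.dim + 1 = n ∧ C.Deg (j - 1) w ∧
        C.comp e (C.comp (C.graph i) q) = 0 ∧
        dg C Y - e ∈ ⨆ w : ℕ, weightPart 𝒦 Q ⊤ Y (n - 1 + w) ∧
        c = C.down (prodMap (𝟙 X) i) w} ≤
        LinearMap.ker (C.actL q ∘ₗ LinearMap.flip (actB C) a) := by
      rw [Submodule.span_le]
      rintro _ ⟨Y, i, w, e, hY, hw, he, hde, rfl⟩
      rw [SetLike.mem_coe, LinearMap.mem_ker, LinearMap.comp_apply, LinearMap.flip_apply,
        actB_apply, C.actL_apply]
      change C.act q (C.act (C.push (prodMap (𝟙 X) i) w) a) = 0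
      have hya : C.act w a ∈ C.gr Y (j - 1) := act_deg hw ha (by ring)
      have e1 : C.comp (C.graph i) q = C.comp (dg C Y - e) (C.comp (C.graph i) q) := by
        rw [sub_comp, dg_comp, he, sub_zero]
      rw [← comp_graph, C.act_comp, ← C.act_comp (C.graph i) q, e1, C.act_comp (dg C Y - e),
        high_act_zero (l := j - 1) (c := n - 1) (fun l => hV _ (by omega))
        (fun h => ⟨(h.middle hA).dim, (h.middle hA).deg, (h.middle hA).idem⟩) (by omega) hde hya,
        TheoryData.act_map_zero]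
    have h6 := h5 h4
    rw [LinearMap.mem_ker, LinearMap.comp_apply, LinearMap.flip_apply, actB_apply,
      C.actL_apply, hza, hqz] at h6
    exact h6
  · intro Y i r hr hir
    have e1 : C.pull (prodMap (𝟙 X) i) (C.ext (1 : C.A X) z) = C.ext 1 (C.pull i z) := by
      rw [pull_ext C, map_one]
    change C.pull (prodMap (𝟙 X) i) (C.ext (1 : C.A X) z) = 0
    rw [e1]
    have e2 : C.pull i z = 0 := by
      refine h1 Y i r hr _ (C.pull_mem _ hz) ?_ rfl
      have e3 : C.pull i z = C.act (C.comp q (C.cograph i)) z := by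
        rw [C.act_comp, hqz, C.act_cograph]
      conv_lhs => rw [e3, ← C.act_comp, hir]
      exact e3.symm
    rw [e2, TheoryData.ext_zero_right]

/-- A class on a part of weight `n ≠ 2 j` is homologically trivial. -/
lemma IsMiddle.cl_zero {n : ℕ} {p : C.A (P.prod P)} (hp : IsMiddle H n p) {j : ℤ}
    (hj : 2 * j ≠ n) {z : C.A P} (hz : z ∈ C.gr P j) (hpz : C.act p z = z) : H.cl z = 0 := by
  rw [← hpz, cl_act H]
  exact hp.kills (2 * j) hj _ (H.cl_mem hz)

omit hH in
lemma V1At_neg {j : ℤ} (hj : j < 0) : V1At 𝒦 Q j :=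
  fun n P p hP hn z hz hpz => zero_of_neg hz hj

/-- Injectivity in codimension `j ≥ 1`. -/
lemma injective_of {d : ℕ∞} (hN : IsAbelJacobiKernel H N) (hinj : InjectiveUpTo 𝒦 Q N d) {j : ℕ}
    (hj : 1 ≤ j) (hjd : (j : ℕ∞) ≤ d) {n : ℕ} {p : C.A (P.prod P)} (hP : IsPart 𝒦 Q n P p)
    (hn : n = 2 * j - 1) {z : C.A P} (hz : z ∈ N P j) (hpz : C.act p z = z) : z = 0 := by
  subst hn
  rcases Nat.lt_or_ge 1 j with h | h
  · exact hinj j h hjd P p hP z hz hpz
  · obtain rfl : j = 1 := by omega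
    exact hN.abel P z hz

/-- Homologically trivial classes on a part of weight `2 j` lie in the kernel of the Abel-Jacobi
map. -/
lemma IsMiddle.mem_N (hN : IsAbelJacobiKernel H N) {n : ℕ} {p : C.A (P.prod P)}
    (hp : IsMiddle H n p) {j : ℕ} (hj : n ≠ 2 * j - 1 ∨ j = 0) {z : C.A P} (hz : z ∈ C.gr P j)
    (hcl : H.cl z = 0) (hpz : C.act p z = z) : z ∈ N P j := by
  rw [← hpz]
  refine hN.kills _ _ j j _ ?_ ?_ z hz hcl
  · have := hp.deg
    rw [hp.dim]
    simpa using this
  · exact hp.kills _ (by omega)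

lemma pull_mem_N (hN : IsAbelJacobiKernel H N) {j : ℕ} {z : C.A X} (hz : z ∈ N X j) (i : Y ⟶ X) :
    C.pull i z ∈ N Y j := by
  rw [← C.act_cograph]
  refine hN.stable _ _ j j _ ?_ z hz
  have := cograph_mem (C := C) i
  simpa using this

lemma pencil_of (hA : IsAdmissible H 𝒦 Q) {n : ℕ} {q : C.A (S.prod S)} (h : Q n S q) :
    HasPencil 𝒦 Q n q ∧ 2 ≤ n := by
  rcases hA.variety n S q h with ⟨rfl, hq⟩ | hq
  · exact ⟨hq.hasPencil hA.curve, le_rfl⟩
  · exact ⟨hq.pencil, hq.two_le⟩

theorem vanish {d : ℕ∞} (hA : IsAdmissible H 𝒦 Q) (hN : IsAbelJacobiKernel H N)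
    (hinj : InjectiveUpTo 𝒦 Q N d) :
    ∀ j : ℕ, (j : ℕ∞) ≤ d → V2At H 𝒦 Q j ∧ V1At 𝒦 Q j := by
  intro j
  induction j using Nat.strong_induction_on with
  | _ j ih =>
  intro hjd
  have hV1 : ∀ i : ℤ, i < j → V1At 𝒦 Q i := by
    intro i hi
    rcases lt_or_ge i 0 with h | h
    · exact V1At_neg h
    · obtain ⟨i, rfl⟩ := Int.eq_ofNat_of_zero_le h
      have hij : i < j := by exact_mod_cast hi
      exact (ih i hij (le_trans (by exact_mod_cast hij.le) hjd)).2
  rcases Nat.eq_zero_or_pos j with hj0 | hj0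
  · subst hj0
    refine ⟨fun n P p hP hn z hz hcl hpz => ?_, fun n P p hP hn z hz hpz => ?_⟩
    · have := hP.pos hA
      omega
    · have hcl := (hP.middle hA).cl_zero (j := (0 : ℕ)) (by omega) hz hpz
      exact gr_zero_eq (H := H) (by exact_mod_cast hz) hcl
  -- the transpose of a homologically trivial class
  have hcltp : ∀ {X Y : 𝒱.Obj} {z : C.A (X.prod Y)}, H.cl z = 0 → H.cl (tp C z) = 0 := by
    intro X Y z hz
    rw [cl_tp, hz, TH133.tp, map_zero]
  have hV2 : V2At H 𝒦 Q j := by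
    intro n P p hP hn z hz hcl hpz
    have hmid := hP.middle hA
    have hzN : z ∈ N P j := hmid.mem_N hN (by omega) hz hcl hpz
    cases hP with
    | factor _ _ _ hr =>
      cases hr with
      | curve _ o hT ho hd => omega
      | variety _ _ _ h =>
        obtain ⟨hpen, hn2⟩ := pencil_of hA h
        refine zero_of_pencil_alone hA hmid hpen hz hpz (by omega) (by omega) ?_ hV1
        intro Y i r hr y hy hry hyz
        refine injective_of hN hinj hj0 hjd (.factor _ Y r hr) (by omega) ?_ hry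
        rw [hyz]
        exact pull_mem_N hN hzN i
    | prod n' m P' T p' r hp hr =>
      have hmid' := hp.middle hA
      have hpos := hp.pos hA
      cases hr with
      | curve _ o hT ho hd =>
        have hT1 := hA.curve T hT
        refine zero_of_curve hA.fibre hmid' hT1 hT ho hd hz hpz ?_ ?_
        · intro t ht htc y hy hpy hyt
          refine injective_of hN hinj hj0 hjd hp (by omega) ?_ hpy
          have h1 : C.act (tp C z) t ∈ N P' j := by
            refine hN.kills T P' 1 j (tp C z) ?_ ?_ t (by exact_mod_cast ht) htc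
            · have := tp_mem C hz
              rw [hT1]
              simpa using this
            · exact kills_of_cl (hcltp hcl) _
          rw [hyt]
          refine hN.stable P' P' j j p' ?_ _ h1
          have := hmid'.deg
          rw [hmid'.dim]
          simpa using this
        · intro x hx hpx
          exact hV1 _ (by omega) n' P' p' hp (by omega) x hx hpx
      | variety _ _ _ h =>
        obtain ⟨hpen, hn2⟩ := pencil_of hA h
        refine zero_of_pencil hA hp ((IsFactor.variety _ _ _ h).middle hA) hpen hz hpz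
          (by omega) (by omega) ?_ hV1
        intro Y i r hr y hy hpy hyz
        refine injective_of hN hinj hj0 hjd (.prod n' (m - 1) P' Y p' r hp hr) (by omega) ?_ hpy
        rw [hyz]
        exact pull_mem_N hN hzN _
  refine ⟨hV2, ?_⟩
  intro n
  induction n using Nat.strong_induction_on with
  | _ n ihn =>
  intro P p hP hn z hz hpz
  have hmid := hP.middle hA
  have hcl := hmid.cl_zero (j := j) (by omega) hz hpz
  cases hP with
  | factor _ _ _ hr =>
    cases hr with
    | curve _ o hT ho hd => omega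
    | variety _ _ _ h =>
      obtain ⟨hpen, hn2⟩ := pencil_of hA h
      refine zero_of_pencil_alone hA hmid hpen hz hpz (by omega) (by omega) ?_ hV1
      intro Y i r hr y hy hry hyz
      by_cases hn' : ((n - 1 : ℕ) : ℤ) = 2 * j
      · refine hV2 (n - 1) Y r (.factor _ Y r hr) hn' y hy ?_ hry
        rw [hyz, H.cl_pull, hcl, map_zero]
      · exact ihn (n - 1) (by omega) Y r (.factor _ Y r hr) (by omega) y hy hry
  | prod n' m P' T p' r hp hr =>
    have hmid' := hp.middle hA
    have hpos := hp.pos hA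
    cases hr with
    | curve _ o hT ho hd =>
      have hT1 := hA.curve T hT
      refine zero_of_curve hA.fibre hmid' hT1 hT ho hd hz hpz ?_ ?_
      · intro t ht htc y hy hpy hyt
        by_cases hn' : (n' : ℤ) = 2 * j
        · refine hV2 n' P' p' hp hn' y hy ?_ hpy
          rw [hyt, cl_act H, cl_act H, htc, TheoryData.act_map_zero, TheoryData.act_map_zero]
        · exact ihn n' (by omega) P' p' hp (by omega) y hy hpy
      · intro x hx hpx
        exact hV1 _ (by omega) n' P' p' hp (by omega) x hx hpx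
    | variety _ _ _ h =>
      obtain ⟨hpen, hn2⟩ := pencil_of hA h
      refine zero_of_pencil hA hp ((IsFactor.variety _ _ _ h).middle hA) hpen hz hpz
        (by omega) (by omega) ?_ hV1
      intro Y i r hr y hy hpy hyz
      by_cases hn' : ((n' + (m - 1) : ℕ) : ℤ) = 2 * j
      · refine hV2 (n' + (m - 1)) _ _ (.prod n' (m - 1) P' Y p' r hp hr) hn' y hy ?_ hpy
        rw [hyz, H.cl_pull, hcl, map_zero]
      · exact ihn (n' + (m - 1)) (by omega) _ _ (.prod n' (m - 1) P' Y p' r hp hr)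
          (by omega) y hy hpy

end Pool.Agent.N164.BB
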